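import Mathlib
set_option autoImplicit false

/-! # Complex Gaussian integrals in the plane -/

namespace Pool.Agent.R244.PQ

open MeasureTheory Set Complex
open scoped ENNReal

/-- quadratic form -/
noncomputable def qf (a b d : ℂ) (y : ℝ × ℝ) : ℂ :=
  a * (y.1 : ℂ) ^ 2 + 2 * b * (y.1 : ℂ) * (y.2 : ℂ) + d * (y.2 : ℂ) ^ 2

/-- Gaussian -/
noncomputable def ga (a b d : ℂ) (y : ℝ × ℝ) : ℂ := cexp (-(Real.pi : ℂ) * qf a b d y)

/-- positive real part -/
def Pos (a b d : ℂ) : Prop :=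
  ∃ c : ℝ, 0 < c ∧ ∀ y : ℝ × ℝ, c * (y.1 ^ 2 + y.2 ^ 2) ≤ (qf a b d y).re

/-- linear form -/
noncomputable def lf (α : ℂ × ℂ) (y : ℝ × ℝ) : ℂ := α.1 * (y.1 : ℂ) + α.2 * (y.2 : ℂ)

/-- the form `D ⟨M⁻¹ α, β⟩` -/
noncomputable def nf (a b d : ℂ) (α β : ℂ × ℂ) : ℂ :=
  (d * α.1 - b * α.2) * β.1 + (a * α.2 - b * α.1) * β.2

lemma int1 {c : ℝ} (hc : 0 < c) (i : ℕ) :
    Integrable (fun x : ℝ => x ^ i * Real.exp (-c * x ^ 2)) := by
  have h := integrable_rpow_mul_exp_neg_mul_sq hc (s := (i : ℝ)) (by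
    have : (0 : ℝ) ≤ i := Nat.cast_nonneg i
    linarith)
  refine h.congr (Filter.Eventually.of_forall fun x => ?_)
  simp only [Real.rpow_natCast]

lemma ga_cont (a b d : ℂ) : Continuous (ga a b d) := by
  unfold ga qf
  fun_prop

lemma ga_norm (a b d : ℂ) (y : ℝ × ℝ) : ‖ga a b d y‖ = Real.exp (-Real.pi * (qf a b d y).re) := by
  unfold ga
  rw [Complex.norm_exp]
  congr 1
  simp

lemma ga_int {a b d : ℂ} (h : Pos a b d) (i j : ℕ) :
    Integrable (fun y : ℝ × ℝ => (y.1 : ℂ) ^ i * (y.2 : ℂ) ^ j * ga a b d y) := by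
  obtain ⟨c, hc, hq⟩ := h
  have hpc : 0 < Real.pi * c := mul_pos Real.pi_pos hc
  have h1 := (int1 hpc i).mul_prod (int1 hpc j)
  refine h1.norm.mono' ?_ ?_
  · apply Continuous.aestronglyMeasurable
    have := ga_cont a b d
    fun_prop
  · refine Filter.Eventually.of_forall fun y => ?_
    rw [norm_mul, norm_mul, norm_pow, norm_pow, ga_norm, Complex.norm_real, Complex.norm_real,
      norm_mul, norm_mul, norm_mul, norm_pow, norm_pow]
    rw [Real.norm_of_nonneg (Real.exp_pos _).le, Real.norm_of_nonneg (Real.exp_pos _).le]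
    have h2 : Real.exp (-Real.pi * (qf a b d y).re) ≤
        Real.exp (-(Real.pi * c) * y.1 ^ 2) * Real.exp (-(Real.pi * c) * y.2 ^ 2) := by
      rw [← Real.exp_add]
      apply Real.exp_le_exp.2
      have := mul_le_mul_of_nonneg_left (hq y) Real.pi_pos.le
      nlinarith
    calc ‖y.1‖ ^ i * ‖y.2‖ ^ j * Real.exp (-Real.pi * (qf a b d y).re)
        ≤ ‖y.1‖ ^ i * ‖y.2‖ ^ j * (Real.exp (-(Real.pi * c) * y.1 ^ 2) *
          Real.exp (-(Real.pi * c) * y.2 ^ 2)) :=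
          mul_le_mul_of_nonneg_left h2 (by positivity)
      _ = _ := by ring

/-- the norm of the Gaussian integral -/
lemma ga_Z {a b d : ℂ} (h : Pos a b d) :
    ‖∫ y : ℝ × ℝ, ga a b d y‖ = ‖a * d - b ^ 2‖ ^ (-(1 / 2 : ℝ)) := by
  have hint : Integrable (ga a b d) := by
    have := ga_int h 0 0
    simpa using this
  obtain ⟨c, hc, hq⟩ := h
  have ha : 0 < a.re := by
    have := hq (1, 0)
    simp only [qf] at this
    norm_num at this
    linarith
  have ha0 : a ≠ 0 := by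
    rintro rfl
    simp at ha
  -- Schur complement
  set u : ℂ := -b / a with hu
  have hau : a * u = -b := by rw [hu]; field_simp
  have h1 := congrArg Complex.re hau
  have h2 := congrArg Complex.im hau
  simp only [Complex.mul_re, Complex.mul_im, Complex.neg_re, Complex.neg_im] at h1 h2
  set s : ℂ := d - b ^ 2 / a with hs
  have hs' : s = d + b * u := by rw [hs, hu]; field_simp; ring
  have hsre : s.re = (qf a b d (u.re, 1)).re + (qf a b d (u.im, 0)).re := by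
    rw [hs']
    unfold qf
    simp [pow_two, Complex.add_re, Complex.mul_re]
    linear_combination -(u.re) * h1 - u.im * h2
  have hspos : 0 < s.re := by
    rw [hsre]
    have h3 := hq (u.re, 1)
    have h4 := hq (u.im, 0)
    simp only at h3 h4
    nlinarith [mul_nonneg hc.le (sq_nonneg u.re), mul_nonneg hc.le (sq_nonneg u.im)]
  have hs0 : s ≠ 0 := by
    intro h0
    rw [h0] at hspos
    simp at hspos
  have hpi : (Real.pi : ℂ) ≠ 0 := by exact_mod_cast Real.pi_pos.ne'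
  have hinner : ∀ y2 : ℝ, ∫ y1 : ℝ, ga a b d (y1, y2) =
      (1 / a) ^ (1 / 2 : ℂ) * cexp (-((Real.pi : ℂ) * s) * (y2 : ℂ) ^ 2) := by
    intro y2
    have hb : (-((Real.pi : ℂ) * a)).re < 0 := by
      simp
      positivity
    have h3 := integral_cexp_quadratic hb (-(2 * Real.pi * b * y2)) (-(Real.pi * d * y2 ^ 2))
    have h4 : ∀ y1 : ℝ, ga a b d (y1, y2) = cexp (-((Real.pi : ℂ) * a) * (y1 : ℂ) ^ 2 +
        (-(2 * Real.pi * b * y2)) * (y1 : ℂ) + (-(Real.pi * d * y2 ^ 2))) := by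
      intro y1
      unfold ga qf
      congr 1
      ring
    simp_rw [h4]
    have e2 : (Real.pi : ℂ) / - -((Real.pi : ℂ) * a) = 1 / a := by
      rw [neg_neg]
      field_simp
    rw [h3, e2]
    congr 2
    rw [hs]
    field_simp
    ring
  have houter : ∫ y : ℝ × ℝ, ga a b d y = (1 / a) ^ (1 / 2 : ℂ) * (1 / s) ^ (1 / 2 : ℂ) := by
    rw [Measure.volume_eq_prod, integral_prod_symm _ (by rwa [Measure.volume_eq_prod] at hint)]
    simp_rw [hinner]
    rw [integral_const_mul]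
    congr 1
    have hb : 0 < ((Real.pi : ℂ) * s).re := by
      simp
      positivity
    rw [integral_gaussian_complex hb]
    congr 1
    field_simp
  rw [houter, norm_mul]
  have e1 : ∀ w : ℂ, ‖(1 / w) ^ (1 / 2 : ℂ)‖ = ‖w‖ ^ (-(1 / 2 : ℝ)) := by
    intro w
    have : (1 / 2 : ℂ) = ((1 / 2 : ℝ) : ℂ) := by norm_num
    rw [this, Complex.norm_cpow_real, norm_div, norm_one, one_div, Real.inv_rpow (norm_nonneg _),
      Real.rpow_neg (norm_nonneg _)]
  rw [e1, e1, ← Real.mul_rpow (norm_nonneg _) (norm_nonneg _), ← norm_mul]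
  congr 2
  rw [hs]
  field_simp

lemma ibp1 (h h' : ℝ × ℝ → ℂ) (hd : ∀ y : ℝ × ℝ, HasDerivAt (fun s => h (s, y.2)) (h' y) y.1)
    (hi : Integrable h) (hi' : Integrable h') : ∫ y, h' y = 0 := by
  rw [Measure.volume_eq_prod] at hi hi' ⊢
  rw [integral_prod_symm _ hi']
  have h1 := hi.swap.prod_right_ae
  have h2 := hi'.swap.prod_right_ae
  rw [integral_eq_zero_of_ae]
  filter_upwards [h1, h2] with y2 h3 h4
  exact integral_eq_zero_of_hasDerivAt_of_integrable (fun y1 => hd (y1, y2)) h4 h3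

lemma ibp2 (h h' : ℝ × ℝ → ℂ) (hd : ∀ y : ℝ × ℝ, HasDerivAt (fun s => h (y.1, s)) (h' y) y.2)
    (hi : Integrable h) (hi' : Integrable h') : ∫ y, h' y = 0 := by
  rw [Measure.volume_eq_prod] at hi hi' ⊢
  rw [integral_prod _ hi']
  have h1 := hi.prod_right_ae
  have h2 := hi'.prod_right_ae
  rw [integral_eq_zero_of_ae]
  filter_upwards [h1, h2] with y1 h3 h4
  exact integral_eq_zero_of_hasDerivAt_of_integrable (fun y2 => hd (y1, y2)) h4 h3

lemma lf_cont (α : ℂ × ℂ) : Continuous (lf α) := by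
  unfold lf
  fun_prop

lemma I0 {a b d : ℂ} (h : Pos a b d) : Integrable (ga a b d) := by
  have := ga_int h 0 0
  simpa using this

lemma I1 {a b d : ℂ} (h : Pos a b d) (α : ℂ × ℂ) :
    Integrable (fun y => lf α y * ga a b d y) := by
  have h1 := ((ga_int h 1 0).const_mul α.1).add ((ga_int h 0 1).const_mul α.2)
  refine h1.congr (Filter.Eventually.of_forall fun y => ?_)
  simp only [lf, Pi.add_apply]
  ring

lemma I2 {a b d : ℂ} (h : Pos a b d) (α β : ℂ × ℂ) :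
    Integrable (fun y => lf α y * lf β y * ga a b d y) := by
  have h1 := (((ga_int h 2 0).const_mul (α.1 * β.1)).add
    ((ga_int h 1 1).const_mul (α.1 * β.2 + α.2 * β.1))).add ((ga_int h 0 2).const_mul (α.2 * β.2))
  refine h1.congr (Filter.Eventually.of_forall fun y => ?_)
  simp only [lf, Pi.add_apply]
  ring

lemma I3 {a b d : ℂ} (h : Pos a b d) (α β γ : ℂ × ℂ) :
    Integrable (fun y => lf α y * lf β y * lf γ y * ga a b d y) := by
  have h1 := ((((ga_int h 3 0).const_mul (α.1 * β.1 * γ.1)).add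
    ((ga_int h 2 1).const_mul (α.1 * β.1 * γ.2 + α.1 * β.2 * γ.1 + α.2 * β.1 * γ.1))).add
    ((ga_int h 1 2).const_mul (α.1 * β.2 * γ.2 + α.2 * β.1 * γ.2 + α.2 * β.2 * γ.1))).add
    ((ga_int h 0 3).const_mul (α.2 * β.2 * γ.2))
  refine h1.congr (Filter.Eventually.of_forall fun y => ?_)
  simp only [lf, Pi.add_apply]
  ring

lemma I4 {a b d : ℂ} (h : Pos a b d) (α β γ δ : ℂ × ℂ) :
    Integrable (fun y => lf α y * lf β y * lf γ y * lf δ y * ga a b d y) := by
  have h1 := (((((ga_int h 4 0).const_mul (α.1 * β.1 * γ.1 * δ.1)).add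
    ((ga_int h 3 1).const_mul (α.1 * β.1 * γ.1 * δ.2 + α.1 * β.1 * γ.2 * δ.1 +
      α.1 * β.2 * γ.1 * δ.1 + α.2 * β.1 * γ.1 * δ.1))).add
    ((ga_int h 2 2).const_mul (α.1 * β.1 * γ.2 * δ.2 + α.1 * β.2 * γ.1 * δ.2 +
      α.2 * β.1 * γ.1 * δ.2 + α.1 * β.2 * γ.2 * δ.1 + α.2 * β.1 * γ.2 * δ.1 +
      α.2 * β.2 * γ.1 * δ.1))).add
    ((ga_int h 1 3).const_mul (α.1 * β.2 * γ.2 * δ.2 + α.2 * β.1 * γ.2 * δ.2 +
      α.2 * β.2 * γ.1 * δ.2 + α.2 * β.2 * γ.2 * δ.1))).add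
    ((ga_int h 0 4).const_mul (α.2 * β.2 * γ.2 * δ.2))
  refine h1.congr (Filter.Eventually.of_forall fun y => ?_)
  simp only [lf, Pi.add_apply]
  ring

lemma hd1 (a b d : ℂ) (y : ℝ × ℝ) : HasDerivAt (fun s => ga a b d (s, y.2))
    (-(2 * Real.pi : ℂ) * lf (a, b) y * ga a b d y) y.1 := by
  have h0 : HasDerivAt (fun s : ℝ => (s : ℂ)) 1 y.1 := Complex.ofRealCLM.hasDerivAt
  have h1 : HasDerivAt (fun s : ℝ => -(Real.pi : ℂ) * qf a b d (s, y.2))
      (-(2 * Real.pi : ℂ) * lf (a, b) y) y.1 := by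
    unfold qf lf
    have := ((((h0.pow 2).const_mul a).add ((h0.const_mul (2 * b)).mul_const (y.2 : ℂ))).add_const
      (d * (y.2 : ℂ) ^ 2)).const_mul (-(Real.pi : ℂ))
    refine this.congr_deriv ?_
    simp
    ring
  have h2 := h1.cexp
  refine h2.congr_deriv ?_
  unfold ga
  ring

lemma hd2 (a b d : ℂ) (y : ℝ × ℝ) : HasDerivAt (fun s => ga a b d (y.1, s))
    (-(2 * Real.pi : ℂ) * lf (b, d) y * ga a b d y) y.2 := by
  have h0 : HasDerivAt (fun s : ℝ => (s : ℂ)) 1 y.2 := Complex.ofRealCLM.hasDerivAt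
  have h1 : HasDerivAt (fun s : ℝ => -(Real.pi : ℂ) * qf a b d (y.1, s))
      (-(2 * Real.pi : ℂ) * lf (b, d) y) y.2 := by
    unfold qf lf
    have := (((h0.const_mul (2 * b * (y.1 : ℂ))).const_add (a * (y.1 : ℂ) ^ 2)).add
      ((h0.pow 2).const_mul d)).const_mul (-(Real.pi : ℂ))
    refine this.congr_deriv ?_
    simp
    ring
  have h2 := h1.cexp
  refine h2.congr_deriv ?_
  unfold ga
  ring

lemma hl1 (α : ℂ × ℂ) (y : ℝ × ℝ) : HasDerivAt (fun s => lf α (s, y.2)) α.1 y.1 := by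
  have h0 : HasDerivAt (fun s : ℝ => (s : ℂ)) 1 y.1 := Complex.ofRealCLM.hasDerivAt
  have := (h0.const_mul α.1).add_const (α.2 * (y.2 : ℂ))
  refine this.congr_deriv ?_
  simp

lemma hl2 (α : ℂ × ℂ) (y : ℝ × ℝ) : HasDerivAt (fun s => lf α (y.1, s)) α.2 y.2 := by
  have h0 : HasDerivAt (fun s : ℝ => (s : ℂ)) 1 y.2 := Complex.ofRealCLM.hasDerivAt
  have := (h0.const_mul α.2).const_add (α.1 * (y.1 : ℂ))
  refine this.congr_deriv ?_
  simp

/-- second moments -/
lemma wick2 {a b d : ℂ} (h : Pos a b d) (α β : ℂ × ℂ) :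
    2 * Real.pi * ((a * d - b ^ 2) * ∫ y, lf α y * lf β y * ga a b d y) =
      nf a b d α β * ∫ y, ga a b d y := by
  have e1 := ibp1 (fun y => lf β y * ga a b d y) (fun y => β.1 * ga a b d y -
    2 * Real.pi * (lf (a, b) y * lf β y * ga a b d y))
    (fun y => ((hl1 β y).mul (hd1 a b d y)).congr_deriv (by ring)) (I1 h β)
    (((I0 h).const_mul _).sub ((I2 h _ _).const_mul _))
  have e2 := ibp2 (fun y => lf β y * ga a b d y) (fun y => β.2 * ga a b d y -
    2 * Real.pi * (lf (b, d) y * lf β y * ga a b d y))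
    (fun y => ((hl2 β y).mul (hd2 a b d y)).congr_deriv (by ring)) (I1 h β)
    (((I0 h).const_mul _).sub ((I2 h _ _).const_mul _))
  rw [integral_sub ((I0 h).const_mul _) ((I2 h _ _).const_mul _), integral_const_mul,
    integral_const_mul] at e1 e2
  have e3 : (a * d - b ^ 2) * ∫ y, lf α y * lf β y * ga a b d y =
      (d * α.1 - b * α.2) * (∫ y, lf (a, b) y * lf β y * ga a b d y) +
      (a * α.2 - b * α.1) * ∫ y, lf (b, d) y * lf β y * ga a b d y := by
    rw [← integral_const_mul, ← integral_const_mul, ← integral_const_mul,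
      ← integral_add ((I2 h _ _).const_mul _) ((I2 h _ _).const_mul _)]
    congr 1
    ext y
    unfold lf
    ring
  rw [e3]
  unfold nf
  linear_combination -(d * α.1 - b * α.2) * e1 - (a * α.2 - b * α.1) * e2

lemma int_comb {A B C D : ℝ × ℝ → ℂ} (c₁ c₂ c₃ c₄ : ℂ) (hA : Integrable A) (hB : Integrable B)
    (hC : Integrable C) (hD : Integrable D) :
    Integrable (fun y => (c₁ * A y + c₂ * B y + c₃ * C y) - c₄ * D y) ∧
    ∫ y, ((c₁ * A y + c₂ * B y + c₃ * C y) - c₄ * D y) =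
      (c₁ * ∫ y, A y) + (c₂ * ∫ y, B y) + (c₃ * ∫ y, C y) - c₄ * ∫ y, D y := by
  have h1 : Integrable (fun y => c₁ * A y + c₂ * B y) := (hA.const_mul _).add (hB.const_mul _)
  have h2 : Integrable (fun y => c₁ * A y + c₂ * B y + c₃ * C y) := h1.add (hC.const_mul _)
  refine ⟨h2.sub (hD.const_mul _), ?_⟩
  rw [integral_sub h2 (hD.const_mul _), integral_add h1 (hC.const_mul _),
    integral_add (hA.const_mul _) (hB.const_mul _), integral_const_mul, integral_const_mul,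
    integral_const_mul, integral_const_mul]

/-- fourth moments -/
lemma wick4 {a b d : ℂ} (h : Pos a b d) (α β γ δ : ℂ × ℂ) :
    4 * Real.pi ^ 2 * ((a * d - b ^ 2) ^ 2 * ∫ y, lf α y * lf β y * lf γ y * lf δ y * ga a b d y) =
      (nf a b d α β * nf a b d γ δ + nf a b d α γ * nf a b d β δ +
        nf a b d α δ * nf a b d β γ) * ∫ y, ga a b d y := by
  have c1 := int_comb β.1 γ.1 δ.1 (2 * Real.pi) (I2 h γ δ) (I2 h β δ) (I2 h β γ)
    (I4 h (a, b) β γ δ)
  have c2 := int_comb β.2 γ.2 δ.2 (2 * Real.pi) (I2 h γ δ) (I2 h β δ) (I2 h β γ)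
    (I4 h (b, d) β γ δ)
  have e1 := ibp1 (fun y => lf β y * lf γ y * lf δ y * ga a b d y) _
    (fun y => ((((hl1 β y).mul (hl1 γ y)).mul (hl1 δ y)).mul (hd1 a b d y)).congr_deriv (by
      simp only [Pi.mul_apply]
      ring)) (I3 h β γ δ) c1.1
  have e2 := ibp2 (fun y => lf β y * lf γ y * lf δ y * ga a b d y) _
    (fun y => ((((hl2 β y).mul (hl2 γ y)).mul (hl2 δ y)).mul (hd2 a b d y)).congr_deriv (by
      simp only [Pi.mul_apply]
      ring)) (I3 h β γ δ) c2.1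
  rw [c1.2] at e1
  rw [c2.2] at e2
  have e3 : (a * d - b ^ 2) * ∫ y, lf α y * lf β y * lf γ y * lf δ y * ga a b d y =
      (d * α.1 - b * α.2) * (∫ y, lf (a, b) y * lf β y * lf γ y * lf δ y * ga a b d y) +
      (a * α.2 - b * α.1) * ∫ y, lf (b, d) y * lf β y * lf γ y * lf δ y * ga a b d y := by
    rw [← integral_const_mul, ← integral_const_mul, ← integral_const_mul,
      ← integral_add ((I4 h _ _ _ _).const_mul _) ((I4 h _ _ _ _).const_mul _)]
    congr 1
    ext y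
    unfold lf
    ring
  have w1 := wick2 h γ δ
  have w2 := wick2 h β δ
  have w3 := wick2 h β γ
  have e4 : 2 * Real.pi * ((a * d - b ^ 2) * ∫ y, lf α y * lf β y * lf γ y * lf δ y * ga a b d y) =
      nf a b d α β * (∫ y, lf γ y * lf δ y * ga a b d y) +
      nf a b d α γ * (∫ y, lf β y * lf δ y * ga a b d y) +
      nf a b d α δ * (∫ y, lf β y * lf γ y * ga a b d y) := by
    rw [e3]
    unfold nf
    linear_combination -(d * α.1 - b * α.2) * e1 - (a * α.2 - b * α.1) * e2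
  linear_combination 2 * Real.pi * (a * d - b ^ 2) * e4 + nf a b d α β * w1 + nf a b d α γ * w2 +
    nf a b d α δ * w3

/-- the size of the fourth moments -/
lemma wick4_norm {a b d : ℂ} (h : Pos a b d) (hD : a * d - b ^ 2 ≠ 0) (α β γ δ : ℂ × ℂ) :
    ‖∫ y, lf α y * lf β y * lf γ y * lf δ y * ga a b d y‖ =
      ‖nf a b d α β * nf a b d γ δ + nf a b d α γ * nf a b d β δ +
        nf a b d α δ * nf a b d β γ‖ * ‖a * d - b ^ 2‖ ^ (-(5 / 2 : ℝ)) / (4 * Real.pi ^ 2) := by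
  have h1 := congrArg norm (wick4 h α β γ δ)
  have h2 : ‖(4 * (Real.pi : ℂ) ^ 2)‖ = 4 * Real.pi ^ 2 := by
    rw [norm_mul, norm_pow, Complex.norm_real, Real.norm_of_nonneg Real.pi_pos.le]
    norm_num
  rw [norm_mul (4 * (Real.pi : ℂ) ^ 2), h2, norm_mul, norm_mul _ (∫ y, ga a b d y), ga_Z h,
    norm_pow] at h1
  have h3 : 0 < ‖a * d - b ^ 2‖ := norm_pos_iff.2 hD
  have h4 : ‖a * d - b ^ 2‖ ^ (-(5 / 2 : ℝ)) * ‖a * d - b ^ 2‖ ^ 2 =
      ‖a * d - b ^ 2‖ ^ (-(1 / 2 : ℝ)) := by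
    rw [← Real.rpow_natCast, ← Real.rpow_add h3]
    norm_num
  rw [eq_div_iff (by positivity)]
  apply mul_right_cancel₀ (pow_pos h3 2).ne'
  calc _ = 4 * Real.pi ^ 2 * (‖a * d - b ^ 2‖ ^ 2 *
        ‖∫ y, lf α y * lf β y * lf γ y * lf δ y * ga a b d y‖) := by ring
    _ = _ := by rw [h1, ← h4]; ring

end Pool.Agent.R244.PQ
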