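import Mathlib
import Pool.Agent.R244.PQ.Wick
set_option autoImplicit false

/-! # The kernel: algebra -/

namespace Pool.Agent.R244.PQ

open MeasureTheory Set Complex
open scoped ENNReal

/-- the algebraic identity for the determinant -/
lemma alg_D (w v C₁ S₁ C₂ S₂ P₁ Q₁ P₂ Q₂ : ℂ) (h1 : C₁ ^ 2 + S₁ ^ 2 = 1) (h2 : C₂ ^ 2 + S₂ ^ 2 = 1)
    (h3 : P₁ ^ 2 + Q₁ ^ 2 = 1) (h4 : P₂ ^ 2 + Q₂ ^ 2 = 1) (c c' A : ℂ)
    (hc : c = C₁ * C₂ + S₁ * S₂) (hc' : c' = P₁ * P₂ + Q₁ * Q₂)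
    (hA : A = (C₁ * C₂ - S₁ * S₂) * (P₁ * P₂ - Q₁ * Q₂) +
      (S₁ * C₂ + C₁ * S₂) * (Q₁ * P₂ + P₁ * Q₂)) :
    (w * (C₁ ^ 2 + C₂ ^ 2) + v * (P₁ ^ 2 + P₂ ^ 2)) *
      (w * (S₁ ^ 2 + S₂ ^ 2) + v * (Q₁ ^ 2 + Q₂ ^ 2)) -
      (w * (C₁ * S₁ + C₂ * S₂) + v * (P₁ * Q₁ + P₂ * Q₂)) ^ 2 =
    w ^ 2 * (1 - c ^ 2) + v ^ 2 * (1 - c' ^ 2) + w * v * (2 - 2 * c * c' * A) := by
  have e1 : C₁ ^ 2 + C₂ ^ 2 = 1 + c * (C₁ * C₂ - S₁ * S₂) := by grind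
  have e2 : S₁ ^ 2 + S₂ ^ 2 = 1 - c * (C₁ * C₂ - S₁ * S₂) := by grind
  have e3 : C₁ * S₁ + C₂ * S₂ = c * (S₁ * C₂ + C₁ * S₂) := by grind
  have e4 : P₁ ^ 2 + P₂ ^ 2 = 1 + c' * (P₁ * P₂ - Q₁ * Q₂) := by grind
  have e5 : Q₁ ^ 2 + Q₂ ^ 2 = 1 - c' * (P₁ * P₂ - Q₁ * Q₂) := by grind
  have e6 : P₁ * Q₁ + P₂ * Q₂ = c' * (Q₁ * P₂ + P₁ * Q₂) := by grind
  have e7 : (C₁ * C₂ - S₁ * S₂) ^ 2 + (S₁ * C₂ + C₁ * S₂) ^ 2 = 1 := by grind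
  have e8 : (P₁ * P₂ - Q₁ * Q₂) ^ 2 + (Q₁ * P₂ + P₁ * Q₂) ^ 2 = 1 := by grind
  rw [e1, e2, e3, e4, e5, e6, hA]
  linear_combination -(w ^ 2 * c ^ 2) * e7 - (v ^ 2 * c' ^ 2) * e8

/-- the algebraic identity for the moments -/
lemma alg_T (w v C₁ S₁ C₂ S₂ P₁ Q₁ P₂ Q₂ : ℂ) (h1 : C₁ ^ 2 + S₁ ^ 2 = 1) (h2 : C₂ ^ 2 + S₂ ^ 2 = 1)
    (h3 : P₁ ^ 2 + Q₁ ^ 2 = 1) (h4 : P₂ ^ 2 + Q₂ ^ 2 = 1) (c c' A a b d : ℂ)
    (hc : c = C₁ * C₂ + S₁ * S₂) (hc' : c' = P₁ * P₂ + Q₁ * Q₂)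
    (hA : A = (C₁ * C₂ - S₁ * S₂) * (P₁ * P₂ - Q₁ * Q₂) +
      (S₁ * C₂ + C₁ * S₂) * (Q₁ * P₂ + P₁ * Q₂))
    (ha : a = w * (C₁ ^ 2 + C₂ ^ 2) + v * (P₁ ^ 2 + P₂ ^ 2))
    (hd : d = w * (S₁ ^ 2 + S₂ ^ 2) + v * (Q₁ ^ 2 + Q₂ ^ 2))
    (hb : b = w * (C₁ * S₁ + C₂ * S₂) + v * (P₁ * Q₁ + P₂ * Q₂)) :
    nf a b d (C₁, S₁) (C₂, S₂) * nf a b d (P₁, Q₁) (P₂, Q₂) +
      nf a b d (C₁, S₁) (P₁, Q₁) * nf a b d (C₂, S₂) (P₂, Q₂) +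
      nf a b d (C₁, S₁) (P₂, Q₂) * nf a b d (C₂, S₂) (P₁, Q₁) =
    w * v * (c * c' * (1 + A ^ 2) - A * (c ^ 2 + c' ^ 2) + 2 * (1 - c ^ 2) * (1 - c' ^ 2) * A) +
      (w ^ 2 * (1 - c ^ 2) + v ^ 2 * (1 - c' ^ 2)) * (A - c * c') := by
  have e1 : C₁ ^ 2 + C₂ ^ 2 = 1 + c * (C₁ * C₂ - S₁ * S₂) := by grind
  have e2 : S₁ ^ 2 + S₂ ^ 2 = 1 - c * (C₁ * C₂ - S₁ * S₂) := by grind
  have e3 : C₁ * S₁ + C₂ * S₂ = c * (S₁ * C₂ + C₁ * S₂) := by grind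
  have e4 : P₁ ^ 2 + P₂ ^ 2 = 1 + c' * (P₁ * P₂ - Q₁ * Q₂) := by grind
  have e5 : Q₁ ^ 2 + Q₂ ^ 2 = 1 - c' * (P₁ * P₂ - Q₁ * Q₂) := by grind
  have e6 : P₁ * Q₁ + P₂ * Q₂ = c' * (Q₁ * P₂ + P₁ * Q₂) := by grind
  have e7 : (C₁ * C₂ - S₁ * S₂) ^ 2 + (S₁ * C₂ + C₁ * S₂) ^ 2 = 1 := by grind
  have e8 : (P₁ * P₂ - Q₁ * Q₂) ^ 2 + (Q₁ * P₂ + P₁ * Q₂) ^ 2 = 1 := by grind
  rw [e1, e4] at ha
  rw [e2, e5] at hd
  rw [e3, e6] at hb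
  obtain ⟨X, hX⟩ : ∃ X, X = C₁ * C₂ - S₁ * S₂ := ⟨_, rfl⟩
  obtain ⟨Y, hY⟩ : ∃ Y, Y = S₁ * C₂ + C₁ * S₂ := ⟨_, rfl⟩
  obtain ⟨X', hX'⟩ : ∃ X, X = P₁ * P₂ - Q₁ * Q₂ := ⟨_, rfl⟩
  obtain ⟨Y', hY'⟩ : ∃ Y, Y = Q₁ * P₂ + P₁ * Q₂ := ⟨_, rfl⟩
  rw [← hX, ← hY] at e7
  rw [← hX', ← hY'] at e8
  rw [← hX, ← hX', ← hY, ← hY'] at hA
  rw [← hX, ← hX'] at ha hd
  rw [← hY, ← hY'] at hb
  have u1 : C₁ * C₂ = (c + X) / 2 := by rw [hc, hX]; ring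
  have u2 : S₁ * S₂ = (c - X) / 2 := by rw [hc, hX]; ring
  have u3 : P₁ * P₂ = (c' + X') / 2 := by rw [hc', hX']; ring
  have u4 : Q₁ * Q₂ = (c' - X') / 2 := by rw [hc', hX']; ring
  have g1 : nf a b d (C₁, S₁) (C₂, S₂) * nf a b d (P₁, Q₁) (P₂, Q₂) =
      (d * (C₁ * C₂) - b * Y + a * (S₁ * S₂)) * (d * (P₁ * P₂) - b * Y' + a * (Q₁ * Q₂)) := by
    rw [hY, hY']
    unfold nf
    ring
  have g2 : nf a b d (C₁, S₁) (P₁, Q₁) * nf a b d (C₂, S₂) (P₂, Q₂) +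
      nf a b d (C₁, S₁) (P₂, Q₂) * nf a b d (C₂, S₂) (P₁, Q₁) =
      2 * d ^ 2 * (C₁ * C₂) * (P₁ * P₂) + 2 * a ^ 2 * (S₁ * S₂) * (Q₁ * Q₂) + a * d * Y * Y' +
      b ^ 2 * (2 * (S₁ * S₂) * (P₁ * P₂) + 2 * (C₁ * C₂) * (Q₁ * Q₂) + Y * Y') -
      2 * b * d * ((P₁ * P₂) * Y + (C₁ * C₂) * Y') - 2 * a * b * ((Q₁ * Q₂) * Y + (S₁ * S₂) * Y') := by
    rw [hY, hY']
    unfold nf
    ring
  rw [add_assoc, g1, g2, u1, u2, u3, u4]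
  clear g1 g2 u1 u2 u3 u4 hX hY hX' hY' e1 e2 e3 e4 e5 e6 h1 h2 h3 h4 hc hc'
  subst ha hd hb hA
  grind

/-- the formula for the main polynomial -/
lemma alg_P (c c' A : ℝ) :
    c * c' * (1 + A ^ 2) - A * (c ^ 2 + c' ^ 2) + 2 * (1 - c ^ 2) * (1 - c' ^ 2) * A -
      (2 - c ^ 2 - c' ^ 2) * (A - c * c') =
    c * c' * (1 - A) * (3 - A - 2 * (c * c')) - (c * c' + 2 * A) * (c - c') ^ 2 := by
  ring

/-- real power bookkeeping -/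
lemma key {α L V m δ A ρ : ℝ} (hα : 1 / 3 ≤ α) (hα1 : α ≤ 1) (hL : 1 ≤ L) (hm : 0 < m)
    (hm1 : m ≤ 1) (hδ : 0 ≤ δ) (hA : 0 < A) (hρ : 0 < ρ) (hρ1 : ρ ≤ 1) (hV1 : m ≤ V) (hV2 : ρ ≤ V)
    (hV3 : Real.sqrt L * ρ ≤ V) (hV4 : L * A ^ 2 ≤ 5 * V) (hV5 : L * ρ ^ 2 ≤ 4 * V)
    (hV6 : L * δ ≤ V) :
    (3 * V * (m + δ) + 3 * L * ρ ^ 2) * V ^ (-(5 / 2 : ℝ)) ≤ 90 * (L * (A * ρ)) ^ (-α) := by
  have hV : 0 < V := hρ.trans_le hV2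
  have hL0 : 0 < L := by linarith
  have hsL : 0 < Real.sqrt L := Real.sqrt_pos.2 hL0
  have hLL : Real.sqrt L * Real.sqrt L = L := Real.mul_self_sqrt hL0.le
  set p := Real.sqrt L * A with hp
  set q := Real.sqrt L * ρ with hq
  have hp0 : 0 < p := by positivity
  have hq0 : 0 < q := by positivity
  have hpq : L * (A * ρ) = p * q := by
    rw [hp, hq]
    linear_combination -(A * ρ) * hLL
  have hp2 : p ^ 2 ≤ 5 * V := by rw [hp, mul_pow, Real.sq_sqrt hL0.le]; exact hV4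
  have hq2 : q ^ 2 ≤ 4 * V := by rw [hq, mul_pow, Real.sq_sqrt hL0.le]; exact hV5
  -- `p ^ α ≤ 5 V^(α/2)`
  have hpα : p ^ α ≤ 5 * V ^ (α / 2) := by
    have e1 : p ^ α = (p ^ 2) ^ (α / 2) := by
      rw [← Real.rpow_natCast, ← Real.rpow_mul hp0.le]
      congr 1
      push_cast
      ring
    rw [e1]
    calc (p ^ 2) ^ (α / 2) ≤ (5 * V) ^ (α / 2) :=
          Real.rpow_le_rpow (by positivity) hp2 (by linarith)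
      _ = 5 ^ (α / 2) * V ^ (α / 2) := Real.mul_rpow (by norm_num) hV.le
      _ ≤ 5 * V ^ (α / 2) := by
          apply mul_le_mul_of_nonneg_right _ (by positivity)
          calc (5 : ℝ) ^ (α / 2) ≤ 5 ^ (1 : ℝ) :=
                Real.rpow_le_rpow_of_exponent_le (by norm_num) (by linarith)
            _ = 5 := Real.rpow_one _
  have hVV : V ^ (-(5 / 2 : ℝ)) * V = V ^ (-(3 / 2 : ℝ)) := by
    nth_rewrite 2 [← Real.rpow_one V]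
    rw [← Real.rpow_add hV]
    norm_num
  have hpqα : 0 < (p * q) ^ α := by positivity
  rw [hpq, Real.rpow_neg (x := p * q) (by positivity), ← div_eq_mul_inv 90, le_div_iff₀ hpqα,
    Real.mul_rpow hp0.le hq0.le]
  have hqV : q ^ α ≤ V ^ α := Real.rpow_le_rpow hq0.le hV3 (by linarith)
  -- first term
  have t1 : m * V ^ (-(3 / 2 : ℝ)) * (p ^ α * q ^ α) ≤ 5 := by
    calc m * V ^ (-(3 / 2 : ℝ)) * (p ^ α * q ^ α)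
        ≤ m * V ^ (-(3 / 2 : ℝ)) * (5 * V ^ (α / 2) * V ^ α) := by gcongr
      _ = 5 * (m * (V ^ (-(3 / 2 : ℝ)) * V ^ (α / 2) * V ^ α)) := by ring
      _ = 5 * (m * V ^ (-(3 / 2 * (1 - α)))) := by
          rw [← Real.rpow_add hV, ← Real.rpow_add hV]
          congr 3
          ring
      _ ≤ 5 * (m * m ^ (-(3 / 2 * (1 - α)))) := by
          have := Real.rpow_le_rpow_of_nonpos hm hV1 (z := -(3 / 2 * (1 - α))) (by nlinarith)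
          gcongr
      _ = 5 * m ^ (1 - 3 / 2 * (1 - α)) := by
          nth_rewrite 1 [← Real.rpow_one m]
          rw [← Real.rpow_add hm]
          congr 2
      _ ≤ 5 * 1 := by
          have := Real.rpow_le_one hm.le hm1 (z := 1 - 3 / 2 * (1 - α)) (by linarith)
          gcongr
      _ = 5 := by ring
  -- second term
  have t2 : δ * V ^ (-(3 / 2 : ℝ)) * (p ^ α * q ^ α) ≤ 5 := by
    have h1 : δ ≤ V / L := by rw [le_div_iff₀ hL0]; linarith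
    have h2 : q ^ α ≤ L * V ^ ((1 - α) / 2) := by
      rw [hq, Real.mul_rpow hsL.le hρ.le]
      have h3 : Real.sqrt L ^ α ≤ L := by
        calc Real.sqrt L ^ α ≤ Real.sqrt L ^ (1 : ℝ) := by
              apply Real.rpow_le_rpow_of_exponent_le _ hα1
              rw [Real.one_le_sqrt]; exact hL
          _ = Real.sqrt L := Real.rpow_one _
          _ ≤ L := by
              rw [Real.sqrt_le_left (by linarith)]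
              nlinarith
      have h4 : ρ ^ α ≤ V ^ ((1 - α) / 2) := by
        calc ρ ^ α ≤ ρ ^ ((1 - α) / 2) :=
              Real.rpow_le_rpow_of_exponent_ge hρ hρ1 (by linarith)
          _ ≤ V ^ ((1 - α) / 2) := Real.rpow_le_rpow hρ.le hV2 (by linarith)
      gcongr
    calc δ * V ^ (-(3 / 2 : ℝ)) * (p ^ α * q ^ α)
        ≤ V / L * V ^ (-(3 / 2 : ℝ)) * (5 * V ^ (α / 2) * (L * V ^ ((1 - α) / 2))) := by gcongr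
      _ = 5 * (V ^ (1 : ℝ) * V ^ (-(3 / 2 : ℝ)) * V ^ (α / 2) * V ^ ((1 - α) / 2)) := by
          rw [Real.rpow_one]
          field_simp
      _ = 5 := by
          rw [← Real.rpow_add hV, ← Real.rpow_add hV, ← Real.rpow_add hV,
            show (1 : ℝ) + -(3 / 2) + α / 2 + (1 - α) / 2 = 0 by ring, Real.rpow_zero, mul_one]
  -- third term
  have t3 : q ^ 2 * V ^ (-(5 / 2 : ℝ)) * (p ^ α * q ^ α) ≤ 20 := by
    have ha : 0 ≤ 3 * α / 2 - 1 / 2 := by linarith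
    have hb : 0 ≤ 3 - 2 * α := by linarith
    have h1 : q ^ 2 * q ^ α ≤ 4 * V ^ (5 / 2 - α / 2) := by
      have e1 : q ^ 2 * q ^ α = (q ^ 2) ^ (3 * α / 2 - 1 / 2) * q ^ (3 - 2 * α) := by
        rw [← Real.rpow_natCast, ← Real.rpow_add hq0, ← Real.rpow_mul hq0.le,
          ← Real.rpow_add hq0]
        congr 1
        push_cast
        ring
      rw [e1]
      calc (q ^ 2) ^ (3 * α / 2 - 1 / 2) * q ^ (3 - 2 * α)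
          ≤ (4 * V) ^ (3 * α / 2 - 1 / 2) * V ^ (3 - 2 * α) := by
            have g1 := Real.rpow_le_rpow (by positivity) hq2 ha
            have g2 := Real.rpow_le_rpow hq0.le hV3 hb
            gcongr
        _ = 4 ^ (3 * α / 2 - 1 / 2) * (V ^ (3 * α / 2 - 1 / 2) * V ^ (3 - 2 * α)) := by
            rw [Real.mul_rpow (by norm_num) hV.le]
            ring
        _ = 4 ^ (3 * α / 2 - 1 / 2) * V ^ (5 / 2 - α / 2) := by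
            rw [← Real.rpow_add hV]
            congr 2
            ring
        _ ≤ 4 * V ^ (5 / 2 - α / 2) := by
            apply mul_le_mul_of_nonneg_right _ (by positivity)
            calc (4 : ℝ) ^ (3 * α / 2 - 1 / 2) ≤ 4 ^ (1 : ℝ) :=
                  Real.rpow_le_rpow_of_exponent_le (by norm_num) (by linarith)
              _ = 4 := Real.rpow_one _
    calc q ^ 2 * V ^ (-(5 / 2 : ℝ)) * (p ^ α * q ^ α)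
        = V ^ (-(5 / 2 : ℝ)) * p ^ α * (q ^ 2 * q ^ α) := by ring
      _ ≤ V ^ (-(5 / 2 : ℝ)) * (5 * V ^ (α / 2)) * (4 * V ^ (5 / 2 - α / 2)) := by gcongr
      _ = 20 * (V ^ (-(5 / 2 : ℝ)) * V ^ (α / 2) * V ^ (5 / 2 - α / 2)) := by ring
      _ = 20 := by
          rw [← Real.rpow_add hV, ← Real.rpow_add hV,
            show -(5 / 2 : ℝ) + α / 2 + (5 / 2 - α / 2) = 0 by ring, Real.rpow_zero, mul_one]
  have hq2' : L * ρ ^ 2 = q ^ 2 := by rw [hq, mul_pow, Real.sq_sqrt hL0.le]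
  calc (3 * V * (m + δ) + 3 * L * ρ ^ 2) * V ^ (-(5 / 2 : ℝ)) * (p ^ α * q ^ α)
      = 3 * (m * (V ^ (-(5 / 2 : ℝ)) * V) * (p ^ α * q ^ α)) +
        3 * (δ * (V ^ (-(5 / 2 : ℝ)) * V) * (p ^ α * q ^ α)) +
        3 * ((L * ρ ^ 2) * V ^ (-(5 / 2 : ℝ)) * (p ^ α * q ^ α)) := by ring
    _ ≤ 3 * 5 + 3 * 5 + 3 * 20 := by
        rw [hVV, hq2']
        gcongr
    _ = 90 := by norm_num

end Pool.Agent.R244.PQ
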