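import Mathlib
import Pool.Agent.R244.PQ.Trig
set_option autoImplicit false

/-! # The kernel bound -/

namespace Pool.Agent.R244.PQ

open MeasureTheory Set Complex
open scoped ENNReal

/-- `1 + 4 t²` -/
noncomputable def LL (t : ℝ) : ℝ := 1 + 4 * t ^ 2

/-- `1/z`, `z = 1 - 2it` -/
noncomputable def wz (t : ℝ) : ℂ := (1 + 2 * t * I) / (LL t : ℂ)

lemma LL_pos (t : ℝ) : 0 < LL t := by unfold LL; positivity
lemma LL_one (t : ℝ) : 1 ≤ LL t := by unfold LL; nlinarith [sq_nonneg t]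
lemma LL_neg (t : ℝ) : LL (-t) = LL t := by unfold LL; ring

/-- unit vectors -/
noncomputable def uu (θ : ℝ) : ℂ × ℂ := ((Real.cos θ : ℂ), (Real.sin θ : ℂ))

noncomputable def ca (t θ₁ θ₂ φ₁ φ₂ : ℝ) : ℂ :=
  wz t * ((Real.cos θ₁ : ℂ) ^ 2 + (Real.cos θ₂ : ℂ) ^ 2) +
    wz (-t) * ((Real.cos φ₁ : ℂ) ^ 2 + (Real.cos φ₂ : ℂ) ^ 2)

noncomputable def cb (t θ₁ θ₂ φ₁ φ₂ : ℝ) : ℂ :=
  wz t * ((Real.cos θ₁ : ℂ) * (Real.sin θ₁ : ℂ) + (Real.cos θ₂ : ℂ) * (Real.sin θ₂ : ℂ)) +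
    wz (-t) * ((Real.cos φ₁ : ℂ) * (Real.sin φ₁ : ℂ) + (Real.cos φ₂ : ℂ) * (Real.sin φ₂ : ℂ))

noncomputable def cd (t θ₁ θ₂ φ₁ φ₂ : ℝ) : ℂ :=
  wz t * ((Real.sin θ₁ : ℂ) ^ 2 + (Real.sin θ₂ : ℂ) ^ 2) +
    wz (-t) * ((Real.sin φ₁ : ℂ) ^ 2 + (Real.sin φ₂ : ℂ) ^ 2)

lemma cs (θ : ℝ) : (Real.cos θ : ℂ) ^ 2 + (Real.sin θ : ℂ) ^ 2 = 1 := by
  rw [← Complex.ofReal_pow, ← Complex.ofReal_pow, ← Complex.ofReal_add, Real.cos_sq_add_sin_sq]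
  norm_num

lemma det_eq (t θ₁ θ₂ φ₁ φ₂ c c' A : ℝ) (hc : c = Real.cos (θ₂ - θ₁)) (hc' : c' = Real.cos (φ₂ - φ₁))
    (hA : A = Real.cos (θ₁ + θ₂ - φ₁ - φ₂)) :
    (LL t : ℂ) ^ 2 * (ca t θ₁ θ₂ φ₁ φ₂ * cd t θ₁ θ₂ φ₁ φ₂ - cb t θ₁ θ₂ φ₁ φ₂ ^ 2) =
      ((2 * ((1 - c ^ 2) + (1 - c' ^ 2)) + LL t * (c ^ 2 + c' ^ 2 - 2 * c * c' * A) : ℝ) : ℂ) +
        ((4 * t * (c' ^ 2 - c ^ 2) : ℝ) : ℂ) * I := by
  have h := alg_D (wz t) (wz (-t)) (Real.cos θ₁) (Real.sin θ₁) (Real.cos θ₂) (Real.sin θ₂)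
    (Real.cos φ₁) (Real.sin φ₁) (Real.cos φ₂) (Real.sin φ₂) (cs _) (cs _) (cs _) (cs _) (c : ℂ)
    (c' : ℂ) (A : ℂ) (by rw [hc, Real.cos_sub]; push_cast; ring)
    (by rw [hc', Real.cos_sub]; push_cast; ring)
    (by
      rw [hA, show θ₁ + θ₂ - φ₁ - φ₂ = (θ₁ + θ₂) - (φ₁ + φ₂) by ring, Real.cos_sub, Real.cos_add,
        Real.cos_add, Real.sin_add, Real.sin_add]
      push_cast
      ring)
  unfold ca cb cd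
  rw [h]
  have hL : (LL t : ℂ) ≠ 0 := by exact_mod_cast (LL_pos t).ne'
  have hLt : (LL t : ℂ) = 1 + 4 * (t : ℂ) ^ 2 := by unfold LL; push_cast; ring
  have e1 : (LL t : ℂ) ^ 2 * wz t ^ 2 = 2 - LL t + 4 * t * I := by
    unfold wz
    rw [div_pow]
    field_simp
    rw [hLt]
    linear_combination (4 * (t : ℂ) ^ 2) * Complex.I_sq
  have e2 : (LL t : ℂ) ^ 2 * wz (-t) ^ 2 = 2 - LL t - 4 * t * I := by
    unfold wz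
    rw [LL_neg, div_pow]
    field_simp
    rw [hLt]
    push_cast
    linear_combination (4 * (t : ℂ) ^ 2) * Complex.I_sq
  have e3 : (LL t : ℂ) ^ 2 * (wz t * wz (-t)) = LL t := by
    unfold wz
    rw [LL_neg]
    field_simp
    push_cast
    rw [hLt]
    linear_combination -(4 * (t : ℂ) ^ 2) * Complex.I_sq
  push_cast
  linear_combination (1 - (c : ℂ) ^ 2) * e1 + (1 - (c' : ℂ) ^ 2) * e2 +
    (2 - 2 * (c : ℂ) * c' * A) * e3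

lemma sum_eq (t θ₁ θ₂ φ₁ φ₂ c c' A : ℝ) (hc : c = Real.cos (θ₂ - θ₁)) (hc' : c' = Real.cos (φ₂ - φ₁))
    (hA : A = Real.cos (θ₁ + θ₂ - φ₁ - φ₂)) (a b d : ℂ) (ha : a = ca t θ₁ θ₂ φ₁ φ₂)
    (hb : b = cb t θ₁ θ₂ φ₁ φ₂) (hd : d = cd t θ₁ θ₂ φ₁ φ₂) :
    (LL t : ℂ) ^ 2 * (nf a b d (uu θ₁) (uu θ₂) * nf a b d (uu φ₁) (uu φ₂) +
      nf a b d (uu θ₁) (uu φ₁) * nf a b d (uu θ₂) (uu φ₂) +
      nf a b d (uu θ₁) (uu φ₂) * nf a b d (uu θ₂) (uu φ₁)) =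
      ((LL t * (c * c' * (1 - A) * (3 - A - 2 * (c * c')) - (c * c' + 2 * A) * (c - c') ^ 2) : ℝ) : ℂ)
        + (((2 * ((1 - c ^ 2) + (1 - c' ^ 2)) : ℝ) : ℂ) + ((4 * t * (c' ^ 2 - c ^ 2) : ℝ) : ℂ) * I) *
          ((A - c * c' : ℝ) : ℂ) := by
  have h := alg_T (wz t) (wz (-t)) (Real.cos θ₁) (Real.sin θ₁) (Real.cos θ₂) (Real.sin θ₂)
    (Real.cos φ₁) (Real.sin φ₁) (Real.cos φ₂) (Real.sin φ₂) (cs _) (cs _) (cs _) (cs _) (c : ℂ)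
    (c' : ℂ) (A : ℂ) a b d (by rw [hc, Real.cos_sub]; push_cast; ring)
    (by rw [hc', Real.cos_sub]; push_cast; ring)
    (by
      rw [hA, show θ₁ + θ₂ - φ₁ - φ₂ = (θ₁ + θ₂) - (φ₁ + φ₂) by ring, Real.cos_sub, Real.cos_add,
        Real.cos_add, Real.sin_add, Real.sin_add]
      push_cast
      ring) (by rw [ha]; rfl) (by rw [hd]; rfl) (by rw [hb]; rfl)
  unfold uu
  rw [h]
  have hL : (LL t : ℂ) ≠ 0 := by exact_mod_cast (LL_pos t).ne'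
  have hLt : (LL t : ℂ) = 1 + 4 * (t : ℂ) ^ 2 := by unfold LL; push_cast; ring
  have e1 : (LL t : ℂ) ^ 2 * wz t ^ 2 = 2 - LL t + 4 * t * I := by
    unfold wz
    rw [div_pow]
    field_simp
    rw [hLt]
    linear_combination (4 * (t : ℂ) ^ 2) * Complex.I_sq
  have e2 : (LL t : ℂ) ^ 2 * wz (-t) ^ 2 = 2 - LL t - 4 * t * I := by
    unfold wz
    rw [LL_neg, div_pow]
    field_simp
    rw [hLt]
    push_cast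
    linear_combination (4 * (t : ℂ) ^ 2) * Complex.I_sq
  have e3 : (LL t : ℂ) ^ 2 * (wz t * wz (-t)) = LL t := by
    unfold wz
    rw [LL_neg]
    field_simp
    push_cast
    rw [hLt]
    linear_combination -(4 * (t : ℂ) ^ 2) * Complex.I_sq
  push_cast
  linear_combination (A - (c : ℂ) * c') * (1 - (c : ℂ) ^ 2) * e1 +
    (A - (c : ℂ) * c') * (1 - (c' : ℂ) ^ 2) * e2 +
    (c * c' * (1 + (A : ℂ) ^ 2) - A * ((c : ℂ) ^ 2 + (c' : ℂ) ^ 2) +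
      2 * (1 - (c : ℂ) ^ 2) * (1 - (c' : ℂ) ^ 2) * A) * e3

lemma abs_sin_ge {x : ℝ} (hx : |x| ≤ Real.pi / 2) : 2 / Real.pi * |x| ≤ |Real.sin x| := by
  exact Real.mul_abs_le_abs_sin hx

lemma fk {c c' : ℝ} (h1 : 1 / 2 ≤ c ^ 2) (h0 : 0 < c) (h1' : 1 / 2 ≤ c' ^ 2) (h0' : 0 < c') :
    1 / 2 ≤ c * c' := by
  have h2 : (1 / 2 : ℝ) ^ 2 ≤ (c * c') ^ 2 := by
    rw [mul_pow]
    nlinarith
  exact (abs_le_of_sq_le_sq' h2 (by positivity)).2 |> fun h => by linarith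

lemma fk1 {c c' : ℝ} (h0 : 0 < c) (h0' : 0 < c') (h1 : c ≤ 1) (h1' : c' ≤ 1) :
    c * c' ≤ 1 ∧ 1 - c * c' ≤ (1 - c ^ 2) + (1 - c' ^ 2) := by
  constructor
  · nlinarith
  · nlinarith [mul_nonneg h0.le (sub_nonneg.2 h1), mul_nonneg h0'.le (sub_nonneg.2 h1'),
      mul_nonneg (sub_nonneg.2 h1) (sub_nonneg.2 h1')]

lemma fδ {c c' A : ℝ} (hk : 1 / 2 ≤ c * c') (hA1 : A ≤ 1) :
    (c - c') ^ 2 ≤ c ^ 2 + c' ^ 2 - 2 * c * c' * A ∧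
    2 * (c * c') * (1 - A) ≤ c ^ 2 + c' ^ 2 - 2 * c * c' * A ∧
    1 - A ≤ c ^ 2 + c' ^ 2 - 2 * c * c' * A := by
  have h1 : 0 ≤ (c * c' - 1 / 2) * (1 - A) := mul_nonneg (by linarith) (by linarith)
  refine ⟨?_, ?_, ?_⟩
  · nlinarith
  · nlinarith [sq_nonneg (c - c')]
  · nlinarith [sq_nonneg (c - c')]

lemma fρ {c c' ρ : ℝ} (h1 : 1 / 2 ≤ c * c') (h0 : 0 < c) (h0' : 0 < c') (hc1 : c ≤ 1)
    (hc1' : c' ≤ 1) (hρ : ρ = |c' ^ 2 - c ^ 2|) :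
    (c - c') ^ 2 ≤ ρ ^ 2 ∧ ρ ^ 2 ≤ 4 * (c - c') ^ 2 ∧ ρ ≤ (1 - c ^ 2) + (1 - c' ^ 2) := by
  have h2 : ρ ^ 2 = (c - c') ^ 2 * (c + c') ^ 2 := by rw [hρ, sq_abs]; ring
  have h3 : 1 ≤ (c + c') ^ 2 := by nlinarith [sq_nonneg (c - c')]
  have h4 : (c + c') ^ 2 ≤ 4 := by
    have : c + c' ≤ 2 := by linarith
    nlinarith
  refine ⟨?_, ?_, ?_⟩
  · rw [h2]; exact le_mul_of_one_le_right (sq_nonneg _) h3
  · rw [h2, mul_comm]; exact mul_le_mul_of_nonneg_right h4 (sq_nonneg _)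
  · rw [hρ, abs_le]
    have e1 : c ^ 2 ≤ 1 := by nlinarith
    have e2 : c' ^ 2 ≤ 1 := by nlinarith
    constructor <;> linarith

lemma fV {t L m δ ρ V : ℝ} (hL : L = 1 + 4 * t ^ 2) (hρ : 0 < ρ) (hρm : ρ ≤ m) (hδ : 0 ≤ δ)
    (hV1 : 2 * m + L * δ ≤ V) (hV2 : 4 * |t| * ρ ≤ V) : Real.sqrt L * ρ ≤ V := by
  have e1 : Real.sqrt L ≤ 1 + 2 * |t| := by
    rw [Real.sqrt_le_left (by positivity), hL]
    nlinarith [abs_nonneg t, sq_abs t]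
  have e2 : 0 ≤ L * δ := by
    rw [hL]
    positivity
  have e3 : Real.sqrt L * ρ ≤ (1 + 2 * |t|) * ρ := mul_le_mul_of_nonneg_right e1 hρ.le
  linarith

lemma fT1 {L c c' A m δ ρ V : ℝ} (hL : 0 < L) (hk : 1 / 2 ≤ c * c') (hk1 : c * c' ≤ 1)
    (hA0 : 0 ≤ A) (hA1 : A ≤ 1) (hm : 1 - c * c' ≤ m) (hδ : 2 * (c * c') * (1 - A) ≤ δ)
    (hδ' : 1 - A ≤ δ) (hρ : (c - c') ^ 2 ≤ ρ ^ 2) (hV : L * δ ≤ V) :
    |L * (c * c' * (1 - A) * (3 - A - 2 * (c * c')) - (c * c' + 2 * A) * (c - c') ^ 2)| ≤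
      V * δ + V * m + 3 * L * ρ ^ 2 := by
  obtain ⟨k, hkk⟩ : ∃ k, k = c * c' := ⟨_, rfl⟩
  obtain ⟨s, hs⟩ : ∃ s, s = (c - c') ^ 2 := ⟨_, rfl⟩
  rw [← hkk] at hk hk1 hm hδ ⊢
  rw [← hs] at hρ ⊢
  have hs0 : 0 ≤ s := by rw [hs]; positivity
  clear hs hkk
  have hδ0 : 0 ≤ δ := by linarith
  have hm0 : 0 ≤ m := by linarith
  rw [abs_mul, abs_of_pos hL]
  have e0 : 0 ≤ 1 - A := by linarith
  have g1 : |k * (1 - A) * (3 - A - 2 * k)| ≤ δ * (δ + m) := by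
    rw [abs_of_nonneg (mul_nonneg (mul_nonneg (by linarith) e0) (by linarith))]
    calc k * (1 - A) * (3 - A - 2 * k) = (2 * k * (1 - A)) * ((1 - A) / 2 + (1 - k)) := by ring
      _ ≤ δ * (δ + m) := by
          apply mul_le_mul hδ (by linarith) (by linarith) hδ0
  have g2 : |(k + 2 * A) * s| ≤ 3 * ρ ^ 2 := by
    rw [abs_of_nonneg (mul_nonneg (by linarith) hs0)]
    calc (k + 2 * A) * s ≤ 3 * s := mul_le_mul_of_nonneg_right (by linarith) hs0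
      _ ≤ 3 * ρ ^ 2 := by linarith
  have g3 : |k * (1 - A) * (3 - A - 2 * k) - (k + 2 * A) * s| ≤ δ * (δ + m) + 3 * ρ ^ 2 :=
    (abs_sub _ _).trans (add_le_add g1 g2)
  calc L * |k * (1 - A) * (3 - A - 2 * k) - (k + 2 * A) * s|
      ≤ L * (δ * (δ + m) + 3 * ρ ^ 2) := mul_le_mul_of_nonneg_left g3 hL.le
    _ = (L * δ) * (δ + m) + 3 * L * ρ ^ 2 := by ring
    _ ≤ V * (δ + m) + 3 * L * ρ ^ 2 := by
        have := mul_le_mul_of_nonneg_right hV (show 0 ≤ δ + m by linarith)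
        linarith
    _ = _ := by ring

lemma kb_abs {α t L c c' A A₀ ρ : ℝ} {D T : ℂ} (hα : 1 / 3 ≤ α) (hα1 : α ≤ 1)
    (hL : L = 1 + 4 * t ^ 2) (hc2 : 1 / 2 ≤ c ^ 2) (hc0 : 0 < c) (hc1 : c ≤ 1)
    (hc2' : 1 / 2 ≤ c' ^ 2) (hc0' : 0 < c') (hc1' : c' ≤ 1) (hA0 : 0 ≤ A) (hA1 : A ≤ 1)
    (hA₀ : 0 < A₀) (hAA : A₀ ^ 2 ≤ 5 * (1 - A)) (hρ : 0 < ρ) (hρeq : ρ = |c' ^ 2 - c ^ 2|)
    (hD : (L : ℂ) ^ 2 * D = ((2 * ((1 - c ^ 2) + (1 - c' ^ 2)) +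
      L * (c ^ 2 + c' ^ 2 - 2 * c * c' * A) : ℝ) : ℂ) + ((4 * t * (c' ^ 2 - c ^ 2) : ℝ) : ℂ) * I)
    (hT : (L : ℂ) ^ 2 * T = ((L * (c * c' * (1 - A) * (3 - A - 2 * (c * c')) -
      (c * c' + 2 * A) * (c - c') ^ 2) : ℝ) : ℂ) + (((2 * ((1 - c ^ 2) + (1 - c' ^ 2)) : ℝ) : ℂ) +
      ((4 * t * (c' ^ 2 - c ^ 2) : ℝ) : ℂ) * I) * ((A - c * c' : ℝ) : ℂ)) :
    D ≠ 0 ∧ ‖T‖ * ‖D‖ ^ (-(5 / 2 : ℝ)) ≤ 90 * L ^ 3 * (L * (A₀ * ρ)) ^ (-α) := by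
  have hk := fk hc2 hc0 hc2' hc0'
  obtain ⟨hk1, hmk⟩ := fk1 hc0 hc0' hc1 hc1'
  obtain ⟨hδ1, hδ2, hδ3⟩ := fδ hk hA1
  obtain ⟨hρ1, hρ2, hρ3⟩ := fρ hk hc0 hc0' hc1 hc1' hρeq
  obtain ⟨m, hm⟩ : ∃ m, m = (1 - c ^ 2) + (1 - c' ^ 2) := ⟨_, rfl⟩
  obtain ⟨δ, hδ⟩ : ∃ δ, δ = c ^ 2 + c' ^ 2 - 2 * c * c' * A := ⟨_, rfl⟩
  rw [← hm] at hmk hρ3 hD hT
  rw [← hδ] at hδ1 hδ2 hδ3 hD
  have hm1 : m ≤ 1 := by rw [hm]; linarith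
  have hL1 : 1 ≤ L := by rw [hL]; nlinarith [sq_nonneg t]
  have hL0 : 0 < L := by linarith
  have hδ0 : 0 ≤ δ := by linarith
  have hm0 : 0 < m := by linarith
  obtain ⟨V, hV⟩ : ∃ V, V = ‖(L : ℂ) ^ 2 * D‖ := ⟨_, rfl⟩
  have hV1 : 2 * m + L * δ ≤ V := by
    have := Complex.re_le_norm ((L : ℂ) ^ 2 * D)
    rw [← hV, hD, Complex.add_re, Complex.ofReal_re, Complex.re_ofReal_mul, Complex.I_re] at this
    linarith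
  have hV2 : 4 * |t| * ρ ≤ V := by
    have := Complex.abs_im_le_norm ((L : ℂ) ^ 2 * D)
    rw [← hV, hD, Complex.add_im, Complex.ofReal_im, Complex.im_ofReal_mul, Complex.I_im, zero_add,
      mul_one, abs_mul, abs_mul, ← hρeq] at this
    norm_num at this
    exact this
  have hLδ : 0 ≤ L * δ := mul_nonneg hL0.le hδ0
  have hV0 : 0 < V := by linarith
  have hDne : D ≠ 0 := by
    rintro h0
    rw [hV, h0] at hV0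
    simp at hV0
  refine ⟨hDne, ?_⟩
  have hTb : ‖(L : ℂ) ^ 2 * T‖ ≤ 3 * V * (m + δ) + 3 * L * ρ ^ 2 := by
    rw [hT]
    have e1 : ‖((L * (c * c' * (1 - A) * (3 - A - 2 * (c * c')) - (c * c' + 2 * A) *
        (c - c') ^ 2) : ℝ) : ℂ)‖ ≤ V * δ + V * m + 3 * L * ρ ^ 2 := by
      rw [Complex.norm_real, Real.norm_eq_abs]
      exact fT1 hL0 hk hk1 hA0 hA1 hmk hδ2 hδ3 hρ1 (by linarith)
    have e2 : ‖(((2 * m : ℝ) : ℂ) + ((4 * t * (c' ^ 2 - c ^ 2) : ℝ) : ℂ) * I) *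
          ((A - c * c' : ℝ) : ℂ)‖ ≤ 2 * V * (m + δ) := by
      rw [norm_mul]
      have f1 : ‖((2 * m : ℝ) : ℂ) + ((4 * t * (c' ^ 2 - c ^ 2) : ℝ) : ℂ) * I‖ ≤ 2 * V := by
        refine (norm_add_le _ _).trans ?_
        rw [norm_mul, Complex.norm_I, mul_one, Complex.norm_real, Complex.norm_real,
          Real.norm_eq_abs, Real.norm_eq_abs, abs_of_pos (by linarith), abs_mul, abs_mul,
          ← hρeq]
        have : |(4 : ℝ)| = 4 := by norm_num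
        rw [this]
        linarith
      have f2 : ‖((A - c * c' : ℝ) : ℂ)‖ ≤ m + δ := by
        rw [Complex.norm_real, Real.norm_eq_abs, abs_le]
        constructor <;> linarith
      exact mul_le_mul f1 f2 (norm_nonneg _) (by linarith)
    refine (norm_add_le _ _).trans ?_
    linarith
  have hV3 := fV hL hρ hρ3 hδ0 hV1 hV2
  have hVA : L * A₀ ^ 2 ≤ 5 * V := by
    have e4 : A₀ ^ 2 ≤ 5 * δ := by linarith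
    have := mul_le_mul_of_nonneg_left e4 hL0.le
    linarith
  have hVρ : L * ρ ^ 2 ≤ 4 * V := by
    have e1 : ρ ^ 2 ≤ 4 * δ := by linarith
    have := mul_le_mul_of_nonneg_left e1 hL0.le
    linarith
  have hkey := key hα hα1 hL1 hm0 hm1 hδ0 hA₀ hρ (hρ3.trans hm1) (by linarith) (by linarith)
    hV3 hVA hVρ (by linarith)
  have hLn : ‖(L : ℂ) ^ 2‖ = L ^ 2 := by
    rw [norm_pow, Complex.norm_real, Real.norm_of_nonneg hL0.le]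
  have hVD : V = L ^ 2 * ‖D‖ := by rw [hV, norm_mul, hLn]
  rw [norm_mul, hLn] at hTb
  have hDn : 0 < ‖D‖ := norm_pos_iff.2 hDne
  have hDV : ‖D‖ ^ (-(5 / 2 : ℝ)) = L ^ 5 * V ^ (-(5 / 2 : ℝ)) := by
    rw [hVD, Real.mul_rpow (by positivity) hDn.le, ← mul_assoc, ← Real.rpow_natCast L 2,
      ← Real.rpow_mul hL0.le, ← Real.rpow_natCast L 5, ← Real.rpow_add hL0]
    norm_num
  have hTb' : ‖T‖ ≤ (3 * V * (m + δ) + 3 * L * ρ ^ 2) / L ^ 2 := by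
    rw [le_div_iff₀ (by positivity)]
    linarith
  have hVp : 0 < V ^ (-(5 / 2 : ℝ)) := Real.rpow_pos_of_pos hV0 _
  calc ‖T‖ * ‖D‖ ^ (-(5 / 2 : ℝ))
      ≤ (3 * V * (m + δ) + 3 * L * ρ ^ 2) / L ^ 2 * (L ^ 5 * V ^ (-(5 / 2 : ℝ))) := by
        rw [hDV]
        exact mul_le_mul_of_nonneg_right hTb' (by positivity)
    _ = L ^ 3 * ((3 * V * (m + δ) + 3 * L * ρ ^ 2) * V ^ (-(5 / 2 : ℝ))) := by
        field_simp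
    _ ≤ L ^ 3 * (90 * (L * (A₀ * ρ)) ^ (-α)) := mul_le_mul_of_nonneg_left hkey (by positivity)
    _ = _ := by ring

lemma fcos {x : ℝ} (hx : |x| ≤ Real.pi / 4) : 1 / 2 ≤ Real.cos x ^ 2 ∧ 0 < Real.cos x := by
  have hpi := Real.pi_pos
  have h4 : Real.cos (Real.pi / 4) ≤ Real.cos |x| :=
    Real.cos_le_cos_of_nonneg_of_le_pi (abs_nonneg x) (by linarith) hx
  rw [Real.cos_abs, Real.cos_pi_div_four] at h4
  have h5 : 0 < Real.sqrt 2 := by positivity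
  have h6 := Real.sq_sqrt (show (0 : ℝ) ≤ 2 by norm_num)
  constructor
  · nlinarith
  · linarith

lemma fA {x : ℝ} (hx : |x| ≤ Real.pi / 2) : |x| ^ 2 ≤ 5 * (1 - Real.cos x) := by
  have hpi := Real.pi_pos
  have e1 := Real.cos_le_one_sub_mul_cos_sq (hx.trans (by linarith))
  have e2 : Real.pi ^ 2 < 10 := by
    have := Real.pi_lt_d2
    nlinarith
  have e3 : x ^ 2 / 5 ≤ 2 / Real.pi ^ 2 * x ^ 2 := by
    rw [div_eq_mul_one_div, mul_comm]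
    apply mul_le_mul_of_nonneg_right _ (sq_nonneg _)
    rw [div_le_div_iff₀ (by norm_num) (by positivity)]
    linarith
  rw [sq_abs]
  linarith

lemma fpi {α : ℝ} (hα0 : 0 ≤ α) (hα1 : α ≤ 1) : ((2 / Real.pi) ^ 2) ^ (-α) ≤ 3 := by
  have hpi := Real.pi_pos
  have e1 : (1 / 3 : ℝ) ≤ (2 / Real.pi) ^ 2 := by
    rw [div_pow, div_le_div_iff₀ (by norm_num) (by positivity)]
    have := Real.pi_lt_d2
    nlinarith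
  calc ((2 / Real.pi) ^ 2) ^ (-α) ≤ (1 / 3 : ℝ) ^ (-α) :=
        Real.rpow_le_rpow_of_nonpos (by norm_num) e1 (by linarith)
    _ = 3 ^ α := by rw [Real.rpow_neg (by norm_num), one_div, Real.inv_rpow (by norm_num),
        inv_inv]
    _ ≤ 3 ^ (1 : ℝ) := Real.rpow_le_rpow_of_exponent_le (by norm_num) hα1
    _ = 3 := Real.rpow_one _

/-- the bound in terms of the angles -/
lemma kb_real {α t : ℝ} (hα : 1 / 3 ≤ α) (hα1 : α ≤ 1) {θ₁ θ₂ φ₁ φ₂ : ℝ}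
    (h1 : |θ₂ - θ₁| ≤ Real.pi / 4) (h2 : |φ₂ - φ₁| ≤ Real.pi / 4)
    (h3 : |θ₁ + θ₂ - φ₁ - φ₂| ≤ Real.pi / 2)
    (hA : θ₁ + θ₂ - φ₁ - φ₂ ≠ 0) (hp : (θ₂ - θ₁) + (φ₂ - φ₁) ≠ 0)
    (hm : (θ₂ - θ₁) - (φ₂ - φ₁) ≠ 0) (a b d : ℂ) (ha : a = ca t θ₁ θ₂ φ₁ φ₂)
    (hb : b = cb t θ₁ θ₂ φ₁ φ₂) (hd : d = cd t θ₁ θ₂ φ₁ φ₂) :
    a * d - b ^ 2 ≠ 0 ∧
    ‖nf a b d (uu θ₁) (uu θ₂) * nf a b d (uu φ₁) (uu φ₂) +
      nf a b d (uu θ₁) (uu φ₁) * nf a b d (uu θ₂) (uu φ₂) +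
      nf a b d (uu θ₁) (uu φ₂) * nf a b d (uu θ₂) (uu φ₁)‖ * ‖a * d - b ^ 2‖ ^ (-(5 / 2 : ℝ)) ≤
      270 * LL t ^ 3 * (LL t * (|θ₁ + θ₂ - φ₁ - φ₂| * (|(θ₂ - θ₁) + (φ₂ - φ₁)| *
        |(θ₂ - θ₁) - (φ₂ - φ₁)|))) ^ (-α) := by
  have hpi := Real.pi_pos
  have hL0 := LL_pos t
  have hAp : 0 < |θ₁ + θ₂ - φ₁ - φ₂| := abs_pos.2 hA
  have hD := det_eq t θ₁ θ₂ φ₁ φ₂ _ _ _ rfl rfl rfl
  have hT := sum_eq t θ₁ θ₂ φ₁ φ₂ _ _ _ rfl rfl rfl a b d ha hb hd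
  rw [← ha, ← hb, ← hd] at hD
  have hρeq : |Real.sin ((θ₂ - θ₁) + (φ₂ - φ₁))| * |Real.sin ((θ₂ - θ₁) - (φ₂ - φ₁))| =
      |Real.cos (φ₂ - φ₁) ^ 2 - Real.cos (θ₂ - θ₁) ^ 2| := by
    generalize θ₂ - θ₁ = x
    generalize φ₂ - φ₁ = y
    rw [← abs_mul]
    congr 1
    rw [Real.sin_add, Real.sin_sub]
    have e1 := Real.sin_sq_add_cos_sq x
    have e2 := Real.sin_sq_add_cos_sq y
    linear_combination Real.cos y ^ 2 * e1 - Real.cos x ^ 2 * e2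
  have hxb : |(θ₂ - θ₁) + (φ₂ - φ₁)| ≤ Real.pi / 2 := (abs_add_le _ _).trans (by linarith)
  have hyb : |(θ₂ - θ₁) - (φ₂ - φ₁)| ≤ Real.pi / 2 := (abs_sub _ _).trans (by linarith)
  have hx := abs_sin_ge hxb
  have hy := abs_sin_ge hyb
  have hxp : 0 < |(θ₂ - θ₁) + (φ₂ - φ₁)| := abs_pos.2 hp
  have hyp : 0 < |(θ₂ - θ₁) - (φ₂ - φ₁)| := abs_pos.2 hm
  obtain ⟨x, hx'⟩ : ∃ x, x = |(θ₂ - θ₁) + (φ₂ - φ₁)| := ⟨_, rfl⟩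
  obtain ⟨y, hy'⟩ : ∃ y, y = |(θ₂ - θ₁) - (φ₂ - φ₁)| := ⟨_, rfl⟩
  rw [← hx'] at hx hxp ⊢
  rw [← hy'] at hy hyp ⊢
  have hρlow : (2 / Real.pi) ^ 2 * (x * y) ≤
      |Real.sin ((θ₂ - θ₁) + (φ₂ - φ₁))| * |Real.sin ((θ₂ - θ₁) - (φ₂ - φ₁))| := by
    calc (2 / Real.pi) ^ 2 * (x * y) = (2 / Real.pi * x) * (2 / Real.pi * y) := by ring
      _ ≤ _ := mul_le_mul hx hy (by positivity) (abs_nonneg _)
  have hρ : 0 < |Real.sin ((θ₂ - θ₁) + (φ₂ - φ₁))| * |Real.sin ((θ₂ - θ₁) - (φ₂ - φ₁))| :=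
    lt_of_lt_of_le (by positivity) hρlow
  have h := kb_abs hα hα1 (show LL t = 1 + 4 * t ^ 2 from rfl) (fcos h1).1 (fcos h1).2
    (Real.cos_le_one _) (fcos h2).1 (fcos h2).2 (Real.cos_le_one _)
    (Real.cos_nonneg_of_neg_pi_div_two_le_of_le (by linarith [(abs_le.1 h3).1])
      (abs_le.1 h3).2) (Real.cos_le_one _) hAp (fA h3) hρ hρeq hD hT
  refine ⟨h.1, h.2.trans ?_⟩
  have hfin : (LL t * (|θ₁ + θ₂ - φ₁ - φ₂| * (|Real.sin ((θ₂ - θ₁) + (φ₂ - φ₁))| *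
      |Real.sin ((θ₂ - θ₁) - (φ₂ - φ₁))|))) ^ (-α) ≤
      3 * (LL t * (|θ₁ + θ₂ - φ₁ - φ₂| * (x * y))) ^ (-α) := by
    calc _ ≤ ((2 / Real.pi) ^ 2 * (LL t * (|θ₁ + θ₂ - φ₁ - φ₂| * (x * y)))) ^ (-α) := by
          apply Real.rpow_le_rpow_of_nonpos (by positivity) _ (by linarith)
          calc _ = LL t * (|θ₁ + θ₂ - φ₁ - φ₂| * ((2 / Real.pi) ^ 2 * (x * y))) := by ring
            _ ≤ _ := mul_le_mul_of_nonneg_left (mul_le_mul_of_nonneg_left hρlow hAp.le) hL0.le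
      _ = ((2 / Real.pi) ^ 2) ^ (-α) * (LL t * (|θ₁ + θ₂ - φ₁ - φ₂| * (x * y))) ^ (-α) :=
          Real.mul_rpow (by positivity) (by positivity)
      _ ≤ _ := mul_le_mul_of_nonneg_right (fpi (by linarith) hα1) (by positivity)
  calc _ ≤ 90 * LL t ^ 3 * (3 * (LL t * (|θ₁ + θ₂ - φ₁ - φ₂| * (x * y))) ^ (-α)) :=
        mul_le_mul_of_nonneg_left hfin (by positivity)
    _ = _ := by ring

end Pool.Agent.R244.PQ
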