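import Mathlib
set_option autoImplicit false

/-! # A `TT^*` lemma -/

namespace Pool.Agent.R244.PQ

open MeasureTheory Set
open scoped ENNReal ComplexConjugate

lemma ttstar {P X : Type*} [MeasurableSpace P] [MeasurableSpace X] (μ : Measure P) (ν : Measure X)
    [SFinite μ] [SFinite ν] (Φ : P → X → ℂ) (hΦ : Measurable (Function.uncurry Φ))
    (hfin : ∫⁻ x, (∫⁻ p, ‖Φ p x‖ₑ ∂μ) ^ 2 ∂ν < ∞) (k : P × P → ℝ≥0∞)
    (hk : ∀ᵐ z ∂(μ.prod μ), ‖∫ x, Φ z.1 x * conj (Φ z.2 x) ∂ν‖ₑ ≤ k z) :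
    ∫⁻ x, ‖∫ p, Φ p x ∂μ‖ₑ ^ 2 ∂ν ≤ ∫⁻ z, k z ∂(μ.prod μ) := by
  have hmeas : Measurable (fun w : (P × P) × X => Φ w.1.1 w.2 * conj (Φ w.1.2 w.2)) := by
    have h1 : Measurable fun w : (P × P) × X => Φ w.1.1 w.2 :=
      hΦ.comp ((measurable_fst.comp measurable_fst).prodMk measurable_snd)
    have h2 : Measurable fun w : (P × P) × X => Φ w.1.2 w.2 :=
      hΦ.comp ((measurable_snd.comp measurable_fst).prodMk measurable_snd)
    exact h1.mul (Complex.continuous_conj.measurable.comp h2)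
  have hint : Integrable (fun w : (P × P) × X => Φ w.1.1 w.2 * conj (Φ w.1.2 w.2))
      ((μ.prod μ).prod ν) := by
    refine ⟨hmeas.aestronglyMeasurable, ?_⟩
    rw [hasFiniteIntegral_iff_enorm]
    rw [lintegral_prod_symm' _ hmeas.enorm]
    refine lt_of_le_of_lt (lintegral_mono fun x => ?_) hfin
    have h3 : Measurable fun p => ‖Φ p x‖ₑ := (hΦ.comp (measurable_id.prodMk measurable_const)).enorm
    calc ∫⁻ z : P × P, ‖Φ z.1 x * conj (Φ z.2 x)‖ₑ ∂(μ.prod μ)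
        = ∫⁻ z : P × P, ‖Φ z.1 x‖ₑ * ‖Φ z.2 x‖ₑ ∂(μ.prod μ) := by
          refine lintegral_congr fun z => ?_
          rw [enorm_mul]
          congr 1
          rw [← ofReal_norm, ← ofReal_norm, RCLike.norm_conj]
      _ = (∫⁻ p, ‖Φ p x‖ₑ ∂μ) * (∫⁻ p, ‖Φ p x‖ₑ ∂μ) :=
          lintegral_prod_mul h3.aemeasurable h3.aemeasurable
      _ ≤ _ := le_of_eq (by rw [sq])
  have hH : ∀ x, (∫ p, Φ p x ∂μ) * conj (∫ p, Φ p x ∂μ) =
      ∫ z : P × P, Φ z.1 x * conj (Φ z.2 x) ∂(μ.prod μ) := by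
    intro x
    rw [integral_prod_mul (fun p => Φ p x) (fun p => conj (Φ p x)), ← integral_conj]
  have hHint : Integrable (fun x => (∫ p, Φ p x ∂μ) * conj (∫ p, Φ p x ∂μ)) ν := by
    simp_rw [hH]
    exact hint.integral_prod_right
  have hn : ∀ x, (∫ p, Φ p x ∂μ) * conj (∫ p, Φ p x ∂μ) = ((‖∫ p, Φ p x ∂μ‖ ^ 2 : ℝ) : ℂ) := by
    intro x
    rw [Complex.mul_conj, Complex.normSq_eq_norm_sq]
  have hrint : Integrable (fun x => ‖∫ p, Φ p x ∂μ‖ ^ 2) ν := by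
    have := hHint.re
    refine this.congr (Filter.Eventually.of_forall fun x => ?_)
    simp only
    rw [hn x]
    exact Complex.ofReal_re _
  have h1 : ∫⁻ x, ‖∫ p, Φ p x ∂μ‖ₑ ^ 2 ∂ν =
      ‖∫ x, (∫ p, Φ p x ∂μ) * conj (∫ p, Φ p x ∂μ) ∂ν‖ₑ := by
    have h2 : ∫ x, (∫ p, Φ p x ∂μ) * conj (∫ p, Φ p x ∂μ) ∂ν =
        ((∫ x, ‖∫ p, Φ p x ∂μ‖ ^ 2 ∂ν : ℝ) : ℂ) := by
      rw [← integral_complex_ofReal]
      exact integral_congr_ae (Filter.Eventually.of_forall hn)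
    rw [h2, ← ofReal_norm (((∫ x, ‖∫ p, Φ p x ∂μ‖ ^ 2 ∂ν : ℝ) : ℂ)), Complex.norm_real,
      Real.norm_of_nonneg (integral_nonneg fun x => by positivity),
      ofReal_integral_eq_lintegral_ofReal hrint (Filter.Eventually.of_forall fun x => by positivity)]
    refine lintegral_congr fun x => ?_
    rw [← ofReal_norm, ENNReal.ofReal_pow (norm_nonneg _)]
  rw [h1]
  simp_rw [hH]
  have h3 : ∫ x, ∫ z : P × P, Φ z.1 x * conj (Φ z.2 x) ∂(μ.prod μ) ∂ν =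
      ∫ z : P × P, ∫ x, Φ z.1 x * conj (Φ z.2 x) ∂ν ∂(μ.prod μ) :=
    integral_integral_swap (f := fun x (z : P × P) => Φ z.1 x * conj (Φ z.2 x)) hint.swap
  rw [h3]
  refine (enorm_integral_le_lintegral_enorm _).trans (lintegral_mono_ae ?_)
  filter_upwards [hk] with z hz using hz

end Pool.Agent.R244.PQ
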