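import Mathlib
import Pool.Agent.R244.PQ.Kb
import Pool.Agent.R244.PQ.TT
set_option autoImplicit false

/-! # The kernel of the fixed time estimate -/

namespace Pool.Agent.R244.PQ

open MeasureTheory Set Complex
open scoped ENNReal ComplexConjugate

/-- `x · e_θ` -/
noncomputable def ss (θ : ℝ) (x : ℝ × ℝ) : ℝ := x.1 * Real.cos θ + x.2 * Real.sin θ

/-- the ridge functions -/
noncomputable def ψ (t θ : ℝ) (x : ℝ × ℝ) : ℂ :=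
  (ss θ x : ℂ) * cexp (-(Real.pi : ℂ) * (ss θ x : ℂ) ^ 2 * wz t)

lemma wz_re (t : ℝ) : (wz t).re = 1 / LL t := by
  unfold wz
  rw [Complex.div_ofReal_re]
  simp

lemma wz_conj (t : ℝ) : conj (wz t) = wz (-t) := by
  unfold wz
  rw [LL_neg, map_div₀, Complex.conj_ofReal, map_add, map_one, map_mul, map_mul, Complex.conj_I,
    Complex.conj_ofReal, Complex.conj_ofNat]
  push_cast
  ring

lemma ss_cont : Continuous (fun w : ℝ × (ℝ × ℝ) => ss w.1 w.2) := by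
  unfold ss
  fun_prop

lemma ψ_cont (t : ℝ) : Continuous (fun w : ℝ × (ℝ × ℝ) => ψ t w.1 w.2) := by
  unfold ψ
  have := ss_cont
  fun_prop

lemma ψ_norm (t θ : ℝ) (x : ℝ × ℝ) :
    ‖ψ t θ x‖ = |ss θ x| * Real.exp (-(Real.pi / LL t) * ss θ x ^ 2) := by
  unfold ψ
  rw [norm_mul, Complex.norm_real, Real.norm_eq_abs, Complex.norm_exp]
  congr 2
  rw [show -(Real.pi : ℂ) * (ss θ x : ℂ) ^ 2 * wz t = ((-Real.pi * ss θ x ^ 2 : ℝ) : ℂ) * wz t by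
    push_cast; ring, Complex.re_ofReal_mul, wz_re]
  ring

lemma ψ_norm_le (t θ : ℝ) (x : ℝ × ℝ) :
    ‖ψ t θ x‖ ≤ LL t * Real.exp (-(Real.pi / (2 * LL t)) * ss θ x ^ 2) := by
  rw [ψ_norm]
  obtain ⟨s, hs⟩ : ∃ s, s = ss θ x := ⟨_, rfl⟩
  rw [← hs]
  have hL := LL_one t
  have hL0 := LL_pos t
  have h1 : |s| ≤ LL t * Real.exp (Real.pi / (2 * LL t) * s ^ 2) := by
    have h2 : Real.pi / (2 * LL t) * s ^ 2 + 1 ≤ Real.exp (Real.pi / (2 * LL t) * s ^ 2) :=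
      Real.add_one_le_exp _
    have h3 : LL t * (Real.pi / (2 * LL t) * s ^ 2 + 1) = Real.pi / 2 * s ^ 2 + LL t := by
      field_simp
    have h4 : |s| ≤ s ^ 2 + 1 := by
      rw [← sq_abs]
      nlinarith [sq_nonneg (|s| - 1), abs_nonneg s]
    have h5 : s ^ 2 ≤ Real.pi / 2 * s ^ 2 := by
      have := Real.pi_gt_three
      nlinarith [sq_nonneg s]
    calc |s| ≤ Real.pi / 2 * s ^ 2 + LL t := by linarith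
      _ = LL t * (Real.pi / (2 * LL t) * s ^ 2 + 1) := h3.symm
      _ ≤ _ := mul_le_mul_of_nonneg_left h2 hL0.le
  calc |s| * Real.exp (-(Real.pi / LL t) * s ^ 2)
      ≤ LL t * Real.exp (Real.pi / (2 * LL t) * s ^ 2) * Real.exp (-(Real.pi / LL t) * s ^ 2) :=
        mul_le_mul_of_nonneg_right h1 (Real.exp_pos _).le
    _ = _ := by
        rw [mul_assoc, ← Real.exp_add]
        congr 2
        field_simp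
        ring

lemma ss_id (θ₁ θ₂ : ℝ) (x : ℝ × ℝ) :
    ss θ₁ x ^ 2 + ss θ₂ x ^ 2 - 2 * Real.cos (θ₂ - θ₁) * (ss θ₁ x * ss θ₂ x) =
      Real.sin (θ₂ - θ₁) ^ 2 * (x.1 ^ 2 + x.2 ^ 2) := by
  unfold ss
  rw [Real.cos_sub, Real.sin_sub]
  have h1 := Real.cos_sq_add_sin_sq θ₁
  have h2 := Real.cos_sq_add_sin_sq θ₂
  grind

lemma ss_lower (θ₁ θ₂ : ℝ) (x : ℝ × ℝ) :
    Real.sin (θ₂ - θ₁) ^ 2 / 2 * (x.1 ^ 2 + x.2 ^ 2) ≤ ss θ₁ x ^ 2 + ss θ₂ x ^ 2 := by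
  have h := ss_id θ₁ θ₂ x
  have h1 := Real.cos_le_one (θ₂ - θ₁)
  have h2 := Real.neg_one_le_cos (θ₂ - θ₁)
  obtain ⟨c, hc⟩ : ∃ c, c = Real.cos (θ₂ - θ₁) := ⟨_, rfl⟩
  rw [← hc] at h h1 h2
  have h3 : |c * (ss θ₁ x * ss θ₂ x)| ≤ 1 * ((ss θ₁ x ^ 2 + ss θ₂ x ^ 2) / 2) := by
    rw [abs_mul]
    apply mul_le_mul (abs_le.2 ⟨h2, h1⟩) _ (abs_nonneg _) zero_le_one
    rw [abs_mul, ← sq_abs (ss θ₁ x), ← sq_abs (ss θ₂ x)]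
    nlinarith [sq_nonneg (|ss θ₁ x| - |ss θ₂ x|)]
  have h4 := (abs_le.1 h3).1
  linarith

lemma ψprod (t θ₁ θ₂ φ₁ φ₂ : ℝ) (x : ℝ × ℝ) :
    ψ t θ₁ x * ψ t θ₂ x * conj (ψ t φ₁ x * ψ t φ₂ x) =
      lf (uu θ₁) x * lf (uu θ₂) x * lf (uu φ₁) x * lf (uu φ₂) x *
        ga (ca t θ₁ θ₂ φ₁ φ₂) (cb t θ₁ θ₂ φ₁ φ₂) (cd t θ₁ θ₂ φ₁ φ₂) x := by
  have e1 : ∀ θ, (ss θ x : ℂ) = lf (uu θ) x := by
    intro θ
    unfold ss lf uu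
    push_cast
    ring
  have e2 : ∀ θ, conj (ψ t θ x) = (ss θ x : ℂ) * cexp (-(Real.pi : ℂ) * (ss θ x : ℂ) ^ 2 * wz (-t)) := by
    intro θ
    unfold ψ
    rw [map_mul, Complex.conj_ofReal, ← Complex.exp_conj, map_mul, map_mul, map_neg, map_pow,
      Complex.conj_ofReal, Complex.conj_ofReal, wz_conj]
  rw [map_mul, e2, e2, ← e1, ← e1, ← e1, ← e1]
  unfold ψ ga
  rw [show -(Real.pi : ℂ) * qf (ca t θ₁ θ₂ φ₁ φ₂) (cb t θ₁ θ₂ φ₁ φ₂) (cd t θ₁ θ₂ φ₁ φ₂) x =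
    -(Real.pi : ℂ) * (ss θ₁ x : ℂ) ^ 2 * wz t + -(Real.pi : ℂ) * (ss θ₂ x : ℂ) ^ 2 * wz t +
    -(Real.pi : ℂ) * (ss φ₁ x : ℂ) ^ 2 * wz (-t) + -(Real.pi : ℂ) * (ss φ₂ x : ℂ) ^ 2 * wz (-t) by
      unfold qf ca cb cd ss
      push_cast
      ring]
  rw [Complex.exp_add, Complex.exp_add, Complex.exp_add]
  ring

lemma qf_re (t θ₁ θ₂ φ₁ φ₂ : ℝ) (x : ℝ × ℝ) :
    (qf (ca t θ₁ θ₂ φ₁ φ₂) (cb t θ₁ θ₂ φ₁ φ₂) (cd t θ₁ θ₂ φ₁ φ₂) x).re =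
      (1 / LL t) * (ss θ₁ x ^ 2 + ss θ₂ x ^ 2 + (ss φ₁ x ^ 2 + ss φ₂ x ^ 2)) := by
  have h : qf (ca t θ₁ θ₂ φ₁ φ₂) (cb t θ₁ θ₂ φ₁ φ₂) (cd t θ₁ θ₂ φ₁ φ₂) x =
      ((ss θ₁ x ^ 2 + ss θ₂ x ^ 2 : ℝ) : ℂ) * wz t + ((ss φ₁ x ^ 2 + ss φ₂ x ^ 2 : ℝ) : ℂ) * wz (-t) := by
    unfold qf ca cb cd ss
    push_cast
    ring
  rw [h, Complex.add_re, Complex.re_ofReal_mul, Complex.re_ofReal_mul, wz_re, wz_re, LL_neg]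
  ring

lemma pos_of (t θ₁ θ₂ φ₁ φ₂ : ℝ) (h : Real.sin (θ₂ - θ₁) ≠ 0 ∨ Real.sin (φ₂ - φ₁) ≠ 0) :
    Pos (ca t θ₁ θ₂ φ₁ φ₂) (cb t θ₁ θ₂ φ₁ φ₂) (cd t θ₁ θ₂ φ₁ φ₂) := by
  have hL := LL_pos t
  have h0 : 0 < Real.sin (θ₂ - θ₁) ^ 2 + Real.sin (φ₂ - φ₁) ^ 2 := by
    rcases h with h | h <;> positivity
  refine ⟨1 / LL t * ((Real.sin (θ₂ - θ₁) ^ 2 + Real.sin (φ₂ - φ₁) ^ 2) / 2), by positivity,
    fun y => ?_⟩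
  rw [qf_re, mul_assoc]
  apply mul_le_mul_of_nonneg_left _ (by positivity)
  have h1 := ss_lower θ₁ θ₂ y
  have h2 := ss_lower φ₁ φ₂ y
  linarith

lemma sin_ne {x : ℝ} (hx : |x| ≤ Real.pi / 2) (h0 : x ≠ 0) : Real.sin x ≠ 0 := by
  intro h
  have h1 := abs_sin_ge hx
  rw [h, abs_zero] at h1
  have h2 : 0 < |x| := abs_pos.2 h0
  have h3 := Real.pi_pos
  have : 0 < 2 / Real.pi * |x| := by positivity
  linarith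

/-- the majorant of the kernel -/
noncomputable def kk (α : ℝ) (z : (ℝ × ℝ) × (ℝ × ℝ)) : ℝ≥0∞ :=
  ‖z.1.1 + z.1.2 - z.2.1 - z.2.2‖ₑ ^ (-α) * (‖(z.1.2 - z.1.1) + (z.2.2 - z.2.1)‖ₑ ^ (-α) *
    ‖(z.1.2 - z.1.1) - (z.2.2 - z.2.1)‖ₑ ^ (-α))

lemma enorm_rpow_ne_zero {α x : ℝ} (hα : 0 < α) : ‖x‖ₑ ^ (-α) ≠ 0 := by
  rw [ENNReal.rpow_neg, ENNReal.inv_ne_zero]
  exact ENNReal.rpow_ne_top_of_nonneg hα.le enorm_ne_top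

lemma enorm_zero_rpow {α : ℝ} (hα : 0 < α) : ‖(0 : ℝ)‖ₑ ^ (-α) = ∞ := by
  rw [enorm_zero, ENNReal.zero_rpow_of_neg (by linarith)]

/-- the kernel bound -/
lemma kbound {α : ℝ} (t : ℝ) (hα : 1 / 3 ≤ α) (hα1 : α ≤ 1) (a : ℝ) {z : (ℝ × ℝ) × (ℝ × ℝ)}
    (h1 : z.1.1 ∈ Icc a (a + Real.pi / 4)) (h2 : z.1.2 ∈ Icc a (a + Real.pi / 4))
    (h3 : z.2.1 ∈ Icc a (a + Real.pi / 4)) (h4 : z.2.2 ∈ Icc a (a + Real.pi / 4)) :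
    ‖∫ x, ψ t z.1.1 x * ψ t z.1.2 x * conj (ψ t z.2.1 x * ψ t z.2.2 x)‖ₑ ≤
      ENNReal.ofReal (7 * LL t ^ (3 - α)) * kk α z := by
  obtain ⟨⟨θ₁, θ₂⟩, φ₁, φ₂⟩ := z
  simp only at h1 h2 h3 h4 ⊢
  have hpi := Real.pi_pos
  have hα0 : 0 < α := by linarith
  have hL := LL_pos t
  have hc : ENNReal.ofReal (7 * LL t ^ (3 - α)) ≠ 0 := by
    rw [Ne, ENNReal.ofReal_eq_zero, not_le]
    positivity
  unfold kk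
  simp only
  by_cases hA : θ₁ + θ₂ - φ₁ - φ₂ = 0
  · rw [hA, enorm_zero_rpow hα0, ENNReal.top_mul, ENNReal.mul_top hc]
    · exact le_top
    · exact mul_ne_zero (enorm_rpow_ne_zero hα0) (enorm_rpow_ne_zero hα0)
  by_cases hp : (θ₂ - θ₁) + (φ₂ - φ₁) = 0
  · rw [hp, enorm_zero_rpow hα0, ENNReal.top_mul (enorm_rpow_ne_zero hα0),
      ENNReal.mul_top (enorm_rpow_ne_zero hα0), ENNReal.mul_top hc]
    exact le_top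
  by_cases hm : (θ₂ - θ₁) - (φ₂ - φ₁) = 0
  · rw [hm, enorm_zero_rpow hα0, ENNReal.mul_top (enorm_rpow_ne_zero hα0),
      ENNReal.mul_top (enorm_rpow_ne_zero hα0), ENNReal.mul_top hc]
    exact le_top
  have b1 : |θ₂ - θ₁| ≤ Real.pi / 4 := by
    rw [abs_le]; constructor <;> linarith [h1.1, h1.2, h2.1, h2.2]
  have b2 : |φ₂ - φ₁| ≤ Real.pi / 4 := by
    rw [abs_le]; constructor <;> linarith [h3.1, h3.2, h4.1, h4.2]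
  have b3 : |θ₁ + θ₂ - φ₁ - φ₂| ≤ Real.pi / 2 := by
    rw [abs_le]; constructor <;> linarith [h1.1, h1.2, h2.1, h2.2, h3.1, h3.2, h4.1, h4.2]
  have hP : Pos (ca t θ₁ θ₂ φ₁ φ₂) (cb t θ₁ θ₂ φ₁ φ₂) (cd t θ₁ θ₂ φ₁ φ₂) := by
    apply pos_of
    by_cases h : θ₂ - θ₁ = 0
    · right
      apply sin_ne (b2.trans (by linarith))
      intro h'
      apply hp
      rw [h, h', add_zero]
    · left
      exact sin_ne (b1.trans (by linarith)) h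
  obtain ⟨hD, hK⟩ := kb_real (t := t) hα hα1 b1 b2 b3 hA hp hm _ _ _ rfl rfl rfl
  have hW := wick4_norm hP hD (uu θ₁) (uu θ₂) (uu φ₁) (uu φ₂)
  simp_rw [ψprod]
  rw [← ofReal_norm, hW]
  have hAp : 0 < |θ₁ + θ₂ - φ₁ - φ₂| := abs_pos.2 hA
  have hpp : 0 < |(θ₂ - θ₁) + (φ₂ - φ₁)| := abs_pos.2 hp
  have hmp : 0 < |(θ₂ - θ₁) - (φ₂ - φ₁)| := abs_pos.2 hm
  have e1 : ∀ x : ℝ, 0 < |x| → ‖x‖ₑ ^ (-α) = ENNReal.ofReal (|x| ^ (-α)) := by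
    intro x hx
    rw [Real.enorm_eq_ofReal_abs, ENNReal.ofReal_rpow_of_pos hx]
  rw [e1 _ hAp, e1 _ hpp, e1 _ hmp, ← ENNReal.ofReal_mul (by positivity),
    ← ENNReal.ofReal_mul (by positivity), ← ENNReal.ofReal_mul (by positivity)]
  apply ENNReal.ofReal_le_ofReal
  have h9 : (9 : ℝ) < Real.pi ^ 2 := by
    have := Real.pi_gt_three
    nlinarith
  rw [div_le_iff₀ (by positivity)]
  refine hK.trans ?_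
  rw [Real.mul_rpow hL.le (by positivity), Real.mul_rpow hAp.le (by positivity),
    Real.mul_rpow hpp.le hmp.le]
  have e2 : LL t ^ (3 - α) = LL t ^ 3 * LL t ^ (-α) := by
    rw [← Real.rpow_natCast, ← Real.rpow_add hL]
    norm_num
    ring_nf
  rw [e2]
  have hX : 0 ≤ LL t ^ 3 * LL t ^ (-α) * (|θ₁ + θ₂ - φ₁ - φ₂| ^ (-α) *
    (|θ₂ - θ₁ + (φ₂ - φ₁)| ^ (-α) * |θ₂ - θ₁ - (φ₂ - φ₁)| ^ (-α))) := by positivity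
  calc _ = 270 * (LL t ^ 3 * LL t ^ (-α) * (|θ₁ + θ₂ - φ₁ - φ₂| ^ (-α) *
    (|θ₂ - θ₁ + (φ₂ - φ₁)| ^ (-α) * |θ₂ - θ₁ - (φ₂ - φ₁)| ^ (-α)))) := by ring
    _ ≤ (28 * Real.pi ^ 2) * (LL t ^ 3 * LL t ^ (-α) * (|θ₁ + θ₂ - φ₁ - φ₂| ^ (-α) *
    (|θ₂ - θ₁ + (φ₂ - φ₁)| ^ (-α) * |θ₂ - θ₁ - (φ₂ - φ₁)| ^ (-α)))) := by
        apply mul_le_mul_of_nonneg_right _ hX
        have := Real.pi_gt_d2
        nlinarith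
    _ = _ := by ring

end Pool.Agent.R244.PQ
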