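import Mathlib
import Pool.Agent.R244.PQ.Kern
set_option autoImplicit false

/-! # The Schur type bound for the kernel -/

namespace Pool.Agent.R244.PQ

open MeasureTheory Set Complex
open scoped ENNReal ComplexConjugate

lemma meas_pw (α : ℝ) : Measurable (fun u : ℝ => ‖u‖ₑ ^ (-α)) :=
  (ENNReal.continuous_rpow_const.measurable).comp measurable_enorm

lemma enorm_le_of_abs {u v : ℝ} (h : |u| ≤ |v|) : ‖u‖ₑ ≤ ‖v‖ₑ := by
  rw [Real.enorm_eq_ofReal_abs, Real.enorm_eq_ofReal_abs]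
  exact ENNReal.ofReal_le_ofReal h

lemma pw_anti {α u v : ℝ} (hα : 0 ≤ α) (h : |u| ≤ |v|) : ‖v‖ₑ ^ (-α) ≤ ‖u‖ₑ ^ (-α) := by
  rw [ENNReal.rpow_neg, ENNReal.rpow_neg]
  apply ENNReal.inv_le_inv.2
  exact ENNReal.rpow_le_rpow (enorm_le_of_abs h) hα

lemma pwmul {α u v w : ℝ} (hα : 0 ≤ α) (h : u + v = 2 * w) :
    ‖u‖ₑ ^ (-α) * ‖v‖ₑ ^ (-α) ≤ ‖w‖ₑ ^ (-α) * (‖u‖ₑ ^ (-α) + ‖v‖ₑ ^ (-α)) := by
  have h1 : |w| ≤ |u| ∨ |w| ≤ |v| := by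
    by_contra hcon
    push Not at hcon
    have := abs_add_le u v
    rw [h, abs_mul, abs_two] at this
    linarith [hcon.1, hcon.2]
  rcases h1 with h1 | h1
  · have := pw_anti hα h1
    calc ‖u‖ₑ ^ (-α) * ‖v‖ₑ ^ (-α) ≤ ‖w‖ₑ ^ (-α) * ‖v‖ₑ ^ (-α) := by gcongr
      _ ≤ _ := by gcongr; exact le_add_self
  · have := pw_anti hα h1
    calc ‖u‖ₑ ^ (-α) * ‖v‖ₑ ^ (-α) = ‖v‖ₑ ^ (-α) * ‖u‖ₑ ^ (-α) := mul_comm _ _
      _ ≤ ‖w‖ₑ ^ (-α) * ‖u‖ₑ ^ (-α) := by gcongr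
      _ ≤ _ := by gcongr; exact le_self_add

lemma M0_lt {α : ℝ} (hα1 : α < 1) :
    ∫⁻ u in Icc (-1 : ℝ) 1, ‖u‖ₑ ^ (-α) < ∞ := by
  have h1 : ∫⁻ u in Icc (0 : ℝ) 1, ‖u‖ₑ ^ (-α) < ∞ := by
    have hint : IntegrableOn (fun x : ℝ => x ^ (-α)) (Ioc 0 1) := by
      have := intervalIntegral.intervalIntegrable_rpow' (a := 0) (b := 1) (r := -α)
        (by linarith)
      rwa [intervalIntegrable_iff_integrableOn_Ioc_of_le zero_le_one] at this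
    rw [setLIntegral_congr Ioc_ae_eq_Icc.symm]
    refine lt_of_le_of_lt (le_of_eq ?_) hint.2
    apply setLIntegral_congr_fun measurableSet_Ioc
    intro x hx
    simp only
    rw [Real.enorm_eq_ofReal_abs, Real.enorm_eq_ofReal_abs, abs_of_pos hx.1,
      abs_of_nonneg (Real.rpow_nonneg hx.1.le _), ENNReal.ofReal_rpow_of_pos hx.1]
  have h2 : ∫⁻ u in Icc (-1 : ℝ) 0, ‖u‖ₑ ^ (-α) < ∞ := by
    have h3 : ∫⁻ u in Icc (-1 : ℝ) 0, ‖u‖ₑ ^ (-α) = ∫⁻ u in Icc (0 : ℝ) 1, ‖u‖ₑ ^ (-α) := by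
      have := (Measure.measurePreserving_neg (volume : Measure ℝ)).setLIntegral_comp_preimage
        (measurableSet_Icc (a := (0 : ℝ)) (b := 1)) (meas_pw α)
      rw [← this]
      have e1 : (Neg.neg ⁻¹' Icc (0 : ℝ) 1) = Icc (-1) 0 := by
        ext x
        simp only [mem_preimage, mem_Icc]
        constructor <;> rintro ⟨h4, h5⟩ <;> constructor <;> linarith
      rw [e1]
      simp only [enorm_neg]
    rw [h3]
    exact h1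
  have h3 : Icc (-1 : ℝ) 1 ⊆ Icc (-1) 0 ∪ Icc 0 1 := by
    intro x hx
    rcases le_total x 0 with h | h
    · exact Or.inl ⟨hx.1, h⟩
    · exact Or.inr ⟨h, hx.2⟩
  exact (lintegral_mono_set h3).trans_lt ((lintegral_union_le _ _ _).trans_lt
    (ENNReal.add_lt_top.2 ⟨h2, h1⟩))

lemma M_exists {α : ℝ} (hα : 0 ≤ α) (hα1 : α < 1) : ∃ M : ℝ≥0∞, M ≠ ∞ ∧ ∀ a c : ℝ,
    ∫⁻ φ in Icc a (a + Real.pi / 4), ‖φ - c‖ₑ ^ (-α) ≤ M := by
  refine ⟨(∫⁻ u in Icc (-1 : ℝ) 1, ‖u‖ₑ ^ (-α)) + ENNReal.ofReal (Real.pi / 4),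
    (ENNReal.add_lt_top.2 ⟨M0_lt hα1, ENNReal.ofReal_lt_top⟩).ne, fun a c => ?_⟩
  have h1 : ∀ u : ℝ, ‖u‖ₑ ^ (-α) ≤ (Icc (-1 : ℝ) 1).indicator (fun u => ‖u‖ₑ ^ (-α)) u + 1 := by
    intro u
    by_cases hu : u ∈ Icc (-1 : ℝ) 1
    · rw [indicator_of_mem hu]
      exact le_self_add
    · rw [indicator_of_notMem hu, zero_add]
      have h2 : |(1 : ℝ)| ≤ |u| := by
        rw [abs_one]
        by_contra hcon
        push Not at hcon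
        exact hu ⟨(abs_lt.1 hcon).1.le, (abs_lt.1 hcon).2.le⟩
      have := pw_anti hα h2
      simpa using this
  calc ∫⁻ φ in Icc a (a + Real.pi / 4), ‖φ - c‖ₑ ^ (-α)
      ≤ ∫⁻ φ in Icc a (a + Real.pi / 4),
        ((Icc (-1 : ℝ) 1).indicator (fun u => ‖u‖ₑ ^ (-α)) (φ - c) + 1) :=
        lintegral_mono fun φ => h1 _
    _ ≤ (∫⁻ φ : ℝ, (Icc (-1 : ℝ) 1).indicator (fun u => ‖u‖ₑ ^ (-α)) (φ - c)) +
        ∫⁻ φ in Icc a (a + Real.pi / 4), 1 := by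
        rw [lintegral_add_right _ measurable_const]
        gcongr
        exact Measure.restrict_le_self
    _ = _ := by
        rw [lintegral_sub_right_eq_self (fun u => (Icc (-1 : ℝ) 1).indicator
          (fun u => ‖u‖ₑ ^ (-α)) u), lintegral_indicator measurableSet_Icc]
        congr 1
        simp

section
variable {α : ℝ} {M : ℝ≥0∞} {μ : Measure ℝ} [SFinite μ]

lemma meas_lin (α c₁ c₂ c₃ c₄ : ℝ) :
    Measurable (fun z : (ℝ × ℝ) × (ℝ × ℝ) =>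
      ‖c₁ * z.1.1 + c₂ * z.1.2 + c₃ * z.2.1 + c₄ * z.2.2‖ₑ ^ (-α)) := by
  apply (meas_pw α).comp
  fun_prop

lemma meas_kk (α : ℝ) : Measurable (kk α) := by
  unfold kk
  have h1 : Measurable (fun z : (ℝ × ℝ) × (ℝ × ℝ) => ‖z.1.1 + z.1.2 - z.2.1 - z.2.2‖ₑ ^ (-α)) :=
    (meas_pw α).comp (by fun_prop)
  have h2 : Measurable (fun z : (ℝ × ℝ) × (ℝ × ℝ) => ‖(z.1.2 - z.1.1) + (z.2.2 - z.2.1)‖ₑ ^ (-α)) :=
    (meas_pw α).comp (by fun_prop)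
  have h3 : Measurable (fun z : (ℝ × ℝ) × (ℝ × ℝ) => ‖(z.1.2 - z.1.1) - (z.2.2 - z.2.1)‖ₑ ^ (-α)) :=
    (meas_pw α).comp (by fun_prop)
  exact h1.mul (h2.mul h3)

lemma kk_swap (α : ℝ) (z : (ℝ × ℝ) × (ℝ × ℝ)) : kk α z.swap = kk α z := by
  obtain ⟨⟨a, b⟩, c, d⟩ := z
  unfold kk
  simp only [Prod.swap_prod_mk]
  rw [show c + d - a - b = -(a + b - c - d) by ring,
    show (d - c) + (b - a) = (b - a) + (d - c) by ring,
    show (d - c) - (b - a) = -((b - a) - (d - c)) by ring, enorm_neg, enorm_neg]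

/-- pointwise bound for the majorant -/
lemma kk_le (hα : 0 ≤ α) (z : (ℝ × ℝ) × (ℝ × ℝ)) : kk α z ≤
    ‖z.1.2 - z.1.1‖ₑ ^ (-α) * (
      ‖z.1.2 - z.2.1‖ₑ ^ (-α) * (‖z.1.1 + z.1.2 - z.2.1 - z.2.2‖ₑ ^ (-α) +
        ‖(z.1.2 - z.1.1) + (z.2.2 - z.2.1)‖ₑ ^ (-α)) +
      ‖z.1.2 - z.2.2‖ₑ ^ (-α) * (‖z.1.1 + z.1.2 - z.2.1 - z.2.2‖ₑ ^ (-α) +
        ‖(z.1.2 - z.1.1) - (z.2.2 - z.2.1)‖ₑ ^ (-α))) := by
  obtain ⟨⟨a, b⟩, c, d⟩ := z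
  unfold kk
  simp only
  have h1 := pwmul (α := α) (u := (b - a) + (d - c)) (v := (b - a) - (d - c)) (w := b - a) hα
    (by ring)
  have h2 := pwmul (α := α) (u := a + b - c - d) (v := (b - a) + (d - c)) (w := b - c) hα (by ring)
  have h3 := pwmul (α := α) (u := a + b - c - d) (v := (b - a) - (d - c)) (w := b - d) hα (by ring)
  calc ‖a + b - c - d‖ₑ ^ (-α) * (‖(b - a) + (d - c)‖ₑ ^ (-α) * ‖(b - a) - (d - c)‖ₑ ^ (-α))
      ≤ ‖a + b - c - d‖ₑ ^ (-α) * (‖b - a‖ₑ ^ (-α) * (‖(b - a) + (d - c)‖ₑ ^ (-α) +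
        ‖(b - a) - (d - c)‖ₑ ^ (-α))) := by gcongr
    _ = ‖b - a‖ₑ ^ (-α) * (‖a + b - c - d‖ₑ ^ (-α) * ‖(b - a) + (d - c)‖ₑ ^ (-α) +
        ‖a + b - c - d‖ₑ ^ (-α) * ‖(b - a) - (d - c)‖ₑ ^ (-α)) := by ring
    _ ≤ _ := by gcongr

lemma kk_int (hα : 0 ≤ α) (hM : ∀ c : ℝ, ∫⁻ φ, ‖φ - c‖ₑ ^ (-α) ∂μ ≤ M) (p : ℝ × ℝ) :
    ∫⁻ p', kk α (p, p') ∂(μ.prod μ) ≤ ‖p.2 - p.1‖ₑ ^ (-α) * (4 * M ^ 2) := by
  obtain ⟨a, b⟩ := p
  have hM' : ∀ c : ℝ, ∫⁻ φ, ‖c - φ‖ₑ ^ (-α) ∂μ ≤ M := by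
    intro c
    refine le_trans (le_of_eq ?_) (hM c)
    refine lintegral_congr fun φ => ?_
    rw [← enorm_neg]
    congr 2
    ring
  have q1 : ∀ b : ℝ, Measurable (fun c : ℝ => ‖b - c‖ₑ ^ (-α)) :=
    fun b => (meas_pw α).comp (by fun_prop)
  have m1 : Measurable (fun p' : ℝ × ℝ => ‖b - p'.1‖ₑ ^ (-α)) := (meas_pw α).comp (by fun_prop)
  have m2 : Measurable (fun p' : ℝ × ℝ => ‖b - p'.2‖ₑ ^ (-α)) := (meas_pw α).comp (by fun_prop)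
  have m3 : Measurable (fun p' : ℝ × ℝ => ‖a + b - p'.1 - p'.2‖ₑ ^ (-α)) :=
    (meas_pw α).comp (by fun_prop)
  have m4 : Measurable (fun p' : ℝ × ℝ => ‖(b - a) + (p'.2 - p'.1)‖ₑ ^ (-α)) :=
    (meas_pw α).comp (by fun_prop)
  have m5 : Measurable (fun p' : ℝ × ℝ => ‖(b - a) - (p'.2 - p'.1)‖ₑ ^ (-α)) :=
    (meas_pw α).comp (by fun_prop)
  have n1 : Measurable (fun p' : ℝ × ℝ => ‖b - p'.1‖ₑ ^ (-α) * (‖a + b - p'.1 - p'.2‖ₑ ^ (-α) +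
        ‖(b - a) + (p'.2 - p'.1)‖ₑ ^ (-α))) := m1.mul (m3.add m4)
  have n2 : Measurable (fun p' : ℝ × ℝ => ‖b - p'.2‖ₑ ^ (-α) * (‖a + b - p'.1 - p'.2‖ₑ ^ (-α) +
        ‖(b - a) - (p'.2 - p'.1)‖ₑ ^ (-α))) := m2.mul (m3.add m5)
  have n3 : Measurable (fun p' : ℝ × ℝ => ‖b - p'.1‖ₑ ^ (-α) * (‖a + b - p'.1 - p'.2‖ₑ ^ (-α) +
        ‖(b - a) + (p'.2 - p'.1)‖ₑ ^ (-α)) + ‖b - p'.2‖ₑ ^ (-α) *
        (‖a + b - p'.1 - p'.2‖ₑ ^ (-α) + ‖(b - a) - (p'.2 - p'.1)‖ₑ ^ (-α))) := n1.add n2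
  have i1 : ∫⁻ p' : ℝ × ℝ, ‖b - p'.1‖ₑ ^ (-α) * (‖a + b - p'.1 - p'.2‖ₑ ^ (-α) +
        ‖(b - a) + (p'.2 - p'.1)‖ₑ ^ (-α)) ∂(μ.prod μ) ≤ 2 * M ^ 2 := by
    rw [lintegral_prod _ n1.aemeasurable]
    simp only
    calc ∫⁻ c, ∫⁻ d, ‖b - c‖ₑ ^ (-α) * (‖a + b - c - d‖ₑ ^ (-α) +
        ‖(b - a) + (d - c)‖ₑ ^ (-α)) ∂μ ∂μ ≤ ∫⁻ c, ‖b - c‖ₑ ^ (-α) * (M + M) ∂μ := by
          refine lintegral_mono fun c => ?_
          simp only
          have k1 : Measurable (fun d : ℝ => ‖a + b - c - d‖ₑ ^ (-α)) :=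
            (meas_pw α).comp (by fun_prop)
          have k2 : Measurable (fun d : ℝ => ‖(b - a) + (d - c)‖ₑ ^ (-α)) :=
            (meas_pw α).comp (by fun_prop)
          rw [lintegral_const_mul _ (show Measurable (fun x => _ + _) from k1.add k2),
            lintegral_add_left k1]
          gcongr
          · exact hM' _
          · have := hM (c - (b - a))
            refine le_trans (le_of_eq ?_) this
            refine lintegral_congr fun d => ?_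
            congr 2
            ring
      _ = (∫⁻ c, ‖b - c‖ₑ ^ (-α) ∂μ) * (M + M) := by
          rw [lintegral_mul_const _ (q1 b)]
      _ ≤ M * (M + M) := by gcongr; exact hM' _
      _ = 2 * M ^ 2 := by ring
  have i2 : ∫⁻ p' : ℝ × ℝ, ‖b - p'.2‖ₑ ^ (-α) * (‖a + b - p'.1 - p'.2‖ₑ ^ (-α) +
        ‖(b - a) - (p'.2 - p'.1)‖ₑ ^ (-α)) ∂(μ.prod μ) ≤ 2 * M ^ 2 := by
    rw [lintegral_prod_symm _ n2.aemeasurable]
    simp only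
    calc ∫⁻ d, ∫⁻ c, ‖b - d‖ₑ ^ (-α) * (‖a + b - c - d‖ₑ ^ (-α) +
        ‖(b - a) - (d - c)‖ₑ ^ (-α)) ∂μ ∂μ ≤ ∫⁻ d, ‖b - d‖ₑ ^ (-α) * (M + M) ∂μ := by
          refine lintegral_mono fun d => ?_
          simp only
          have k1 : Measurable (fun c : ℝ => ‖a + b - c - d‖ₑ ^ (-α)) :=
            (meas_pw α).comp (by fun_prop)
          have k2 : Measurable (fun c : ℝ => ‖(b - a) - (d - c)‖ₑ ^ (-α)) :=
            (meas_pw α).comp (by fun_prop)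
          rw [lintegral_const_mul _ (show Measurable (fun x => _ + _) from k1.add k2),
            lintegral_add_left k1]
          gcongr
          · have := hM' (a + b - d)
            refine le_trans (le_of_eq ?_) this
            refine lintegral_congr fun c => ?_
            congr 2
            ring
          · have := hM (d - (b - a))
            refine le_trans (le_of_eq ?_) this
            refine lintegral_congr fun c => ?_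
            congr 2
            ring
      _ = (∫⁻ d, ‖b - d‖ₑ ^ (-α) ∂μ) * (M + M) := by
          rw [lintegral_mul_const _ (q1 b)]
      _ ≤ M * (M + M) := by gcongr; exact hM' _
      _ = 2 * M ^ 2 := by ring
  calc ∫⁻ p', kk α ((a, b), p') ∂(μ.prod μ)
      ≤ ∫⁻ p' : ℝ × ℝ, ‖b - a‖ₑ ^ (-α) * (
        ‖b - p'.1‖ₑ ^ (-α) * (‖a + b - p'.1 - p'.2‖ₑ ^ (-α) +
          ‖(b - a) + (p'.2 - p'.1)‖ₑ ^ (-α)) +
        ‖b - p'.2‖ₑ ^ (-α) * (‖a + b - p'.1 - p'.2‖ₑ ^ (-α) +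
          ‖(b - a) - (p'.2 - p'.1)‖ₑ ^ (-α))) ∂(μ.prod μ) :=
        lintegral_mono fun p' => kk_le hα ((a, b), p')
    _ = ‖b - a‖ₑ ^ (-α) * ((∫⁻ p' : ℝ × ℝ, ‖b - p'.1‖ₑ ^ (-α) * (‖a + b - p'.1 - p'.2‖ₑ ^ (-α) +
          ‖(b - a) + (p'.2 - p'.1)‖ₑ ^ (-α)) ∂(μ.prod μ)) +
        ∫⁻ p' : ℝ × ℝ, ‖b - p'.2‖ₑ ^ (-α) * (‖a + b - p'.1 - p'.2‖ₑ ^ (-α) +
          ‖(b - a) - (p'.2 - p'.1)‖ₑ ^ (-α)) ∂(μ.prod μ)) := by
        rw [lintegral_const_mul _ n3, lintegral_add_left n1]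
    _ ≤ ‖b - a‖ₑ ^ (-α) * (2 * M ^ 2 + 2 * M ^ 2) := by gcongr
    _ = _ := by ring

lemma mul_le_sq_add (a b : ℝ≥0∞) : a * b ≤ a ^ 2 + b ^ 2 := by
  rcases le_total a b with h | h
  · calc a * b ≤ b * b := by gcongr
      _ = b ^ 2 := (sq b).symm
      _ ≤ _ := le_add_self
  · calc a * b ≤ a * a := by gcongr
      _ = a ^ 2 := (sq a).symm
      _ ≤ _ := le_self_add

/-- the Schur test -/
lemma schur (hα : 0 ≤ α) (hM : ∀ c : ℝ, ∫⁻ φ, ‖φ - c‖ₑ ^ (-α) ∂μ ≤ M) (g : ℝ → ℝ≥0∞)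
    (hg : Measurable g) :
    ∫⁻ z, (g z.1.1 * g z.1.2) * (g z.2.1 * g z.2.2) * kk α z ∂((μ.prod μ).prod (μ.prod μ)) ≤
      16 * M ^ 3 * ∫⁻ θ, g θ ^ 4 ∂μ := by
  have hM' : ∀ c : ℝ, ∫⁻ φ, ‖c - φ‖ₑ ^ (-α) ∂μ ≤ M := by
    intro c
    refine le_trans (le_of_eq ?_) (hM c)
    refine lintegral_congr fun φ => ?_
    rw [← enorm_neg]
    congr 2
    ring
  have q1 : ∀ b : ℝ, Measurable (fun c : ℝ => ‖b - c‖ₑ ^ (-α)) :=
    fun b => (meas_pw α).comp (by fun_prop)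
  have q2 : ∀ b : ℝ, Measurable (fun c : ℝ => ‖c - b‖ₑ ^ (-α)) :=
    fun b => (meas_pw α).comp (by fun_prop)
  have q3 : ∀ p : ℝ × ℝ, Measurable (fun p' : ℝ × ℝ => kk α (p, p')) :=
    fun p => (meas_kk α).comp (measurable_const.prodMk measurable_id)
  have mg1 : Measurable (fun p : ℝ × ℝ => g p.1) := hg.comp measurable_fst
  have mg2 : Measurable (fun p : ℝ × ℝ => g p.2) := hg.comp measurable_snd
  have mG : Measurable (fun p : ℝ × ℝ => g p.1 * g p.2) := mg1.mul mg2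
  have mK := meas_kk α
  have mG1 : Measurable (fun z : (ℝ × ℝ) × (ℝ × ℝ) => (g z.1.1 * g z.1.2) ^ 2 * kk α z) :=
    ((mG.comp measurable_fst).pow_const 2).mul mK
  have h1 : ∫⁻ z : (ℝ × ℝ) × (ℝ × ℝ), (g z.1.1 * g z.1.2) ^ 2 * kk α z
      ∂((μ.prod μ).prod (μ.prod μ)) ≤ 8 * M ^ 3 * ∫⁻ θ, g θ ^ 4 ∂μ := by
    rw [lintegral_prod _ mG1.aemeasurable]
    simp only
    have md : Measurable (fun p : ℝ × ℝ => ‖p.2 - p.1‖ₑ ^ (-α)) := (meas_pw α).comp (by fun_prop)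
    have md1 : Measurable (fun p : ℝ × ℝ => g p.1 ^ 4 * ‖p.2 - p.1‖ₑ ^ (-α)) :=
      (mg1.pow_const 4).mul md
    have md2 : Measurable (fun p : ℝ × ℝ => g p.2 ^ 4 * ‖p.2 - p.1‖ₑ ^ (-α)) :=
      (mg2.pow_const 4).mul md
    have md3 : Measurable (fun p : ℝ × ℝ => g p.1 ^ 4 * ‖p.2 - p.1‖ₑ ^ (-α) +
      g p.2 ^ 4 * ‖p.2 - p.1‖ₑ ^ (-α)) := md1.add md2
    calc ∫⁻ p : ℝ × ℝ, ∫⁻ p' : ℝ × ℝ, (g p.1 * g p.2) ^ 2 * kk α (p, p') ∂(μ.prod μ) ∂(μ.prod μ)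
        ≤ ∫⁻ p : ℝ × ℝ, (g p.1 * g p.2) ^ 2 * (‖p.2 - p.1‖ₑ ^ (-α) * (4 * M ^ 2)) ∂(μ.prod μ) := by
          refine lintegral_mono fun p => ?_
          simp only
          rw [lintegral_const_mul _ (q3 p)]
          gcongr
          exact kk_int hα hM p
      _ ≤ ∫⁻ p : ℝ × ℝ, (g p.1 ^ 4 + g p.2 ^ 4) * (‖p.2 - p.1‖ₑ ^ (-α) * (4 * M ^ 2))
          ∂(μ.prod μ) := by
          refine lintegral_mono fun p => ?_
          simp only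
          gcongr
          rw [mul_pow]
          refine (mul_le_sq_add _ _).trans (le_of_eq ?_)
          ring
      _ = ((∫⁻ p : ℝ × ℝ, g p.1 ^ 4 * ‖p.2 - p.1‖ₑ ^ (-α) ∂(μ.prod μ)) +
          ∫⁻ p : ℝ × ℝ, g p.2 ^ 4 * ‖p.2 - p.1‖ₑ ^ (-α) ∂(μ.prod μ)) * (4 * M ^ 2) := by
          rw [← lintegral_add_left md1, ← lintegral_mul_const _ md3]
          refine lintegral_congr fun p => ?_
          ring
      _ ≤ (M * (∫⁻ θ, g θ ^ 4 ∂μ) + M * (∫⁻ θ, g θ ^ 4 ∂μ)) * (4 * M ^ 2) := by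
          gcongr
          · rw [lintegral_prod _ md1.aemeasurable]
            simp only
            rw [← lintegral_const_mul _ (hg.pow_const 4)]
            refine lintegral_mono fun a => ?_
            simp only
            rw [lintegral_const_mul _ (q2 a), mul_comm]
            gcongr
            exact hM a
          · rw [lintegral_prod_symm _ md2.aemeasurable]
            simp only
            rw [← lintegral_const_mul _ (hg.pow_const 4)]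
            refine lintegral_mono fun b => ?_
            simp only
            rw [lintegral_const_mul _ (q1 b), mul_comm]
            gcongr
            exact hM' b
      _ = _ := by ring
  have h2 : ∫⁻ z : (ℝ × ℝ) × (ℝ × ℝ), (g z.2.1 * g z.2.2) ^ 2 * kk α z
      ∂((μ.prod μ).prod (μ.prod μ)) ≤ 8 * M ^ 3 * ∫⁻ θ, g θ ^ 4 ∂μ := by
    refine le_trans (le_of_eq ?_) h1
    rw [← lintegral_prod_swap]
    refine lintegral_congr fun z => ?_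
    rw [kk_swap]
    rfl
  calc ∫⁻ z, (g z.1.1 * g z.1.2) * (g z.2.1 * g z.2.2) * kk α z ∂((μ.prod μ).prod (μ.prod μ))
      ≤ ∫⁻ z : (ℝ × ℝ) × (ℝ × ℝ), ((g z.1.1 * g z.1.2) ^ 2 * kk α z +
        (g z.2.1 * g z.2.2) ^ 2 * kk α z) ∂((μ.prod μ).prod (μ.prod μ)) := by
        refine lintegral_mono fun z => ?_
        simp only
        rw [← add_mul]
        gcongr
        exact mul_le_sq_add _ _
    _ = _ := lintegral_add_left mG1 _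
    _ ≤ 8 * M ^ 3 * (∫⁻ θ, g θ ^ 4 ∂μ) + 8 * M ^ 3 * ∫⁻ θ, g θ ^ 4 ∂μ := add_le_add h1 h2
    _ = _ := by ring

end

end Pool.Agent.R244.PQ
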