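import Mathlib
import Pool.Agent.R244.PQ.Sch
set_option autoImplicit false

/-! # The fixed time estimate for superpositions of ridge functions -/

namespace Pool.Agent.R244.PQ

open MeasureTheory Set Complex Filter
open scoped ENNReal ComplexConjugate Topology

/-- the truncated products -/
noncomputable def Φe (t ε : ℝ) (g : ℝ → ℂ) (p x : ℝ × ℝ) : ℂ :=
  {p : ℝ × ℝ | ε ≤ |p.2 - p.1|}.indicator (fun p => (g p.1 * ψ t p.1 x) * (g p.2 * ψ t p.2 x)) p

lemma measS (ε : ℝ) : MeasurableSet {p : ℝ × ℝ | ε ≤ |p.2 - p.1|} :=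
  measurableSet_le measurable_const (by fun_prop)

lemma Φe_meas (t ε : ℝ) {g : ℝ → ℂ} (hg : Measurable g) :
    Measurable (Function.uncurry (Φe t ε g)) := by
  have h1 : Measurable (fun w : (ℝ × ℝ) × (ℝ × ℝ) =>
      (g w.1.1 * ψ t w.1.1 w.2) * (g w.1.2 * ψ t w.1.2 w.2)) := by
    have e1 : Measurable (fun w : (ℝ × ℝ) × (ℝ × ℝ) => ψ t w.1.1 w.2) :=
      (ψ_cont t).measurable.comp ((measurable_fst.comp measurable_fst).prodMk measurable_snd)
    have e2 : Measurable (fun w : (ℝ × ℝ) × (ℝ × ℝ) => ψ t w.1.2 w.2) :=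
      (ψ_cont t).measurable.comp ((measurable_snd.comp measurable_fst).prodMk measurable_snd)
    exact ((hg.comp (measurable_fst.comp measurable_fst)).mul e1).mul
      ((hg.comp (measurable_snd.comp measurable_fst)).mul e2)
  have h2 : Function.uncurry (Φe t ε g) =
      (Prod.fst ⁻¹' {p : ℝ × ℝ | ε ≤ |p.2 - p.1|}).indicator (fun w : (ℝ × ℝ) × (ℝ × ℝ) =>
      (g w.1.1 * ψ t w.1.1 w.2) * (g w.1.2 * ψ t w.1.2 w.2)) := by
    ext w
    obtain ⟨p, x⟩ := w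
    simp only [Function.uncurry, Φe, indicator, mem_preimage]
  rw [h2]
  exact h1.indicator (measurable_fst (measS ε))

lemma Φe_bound (t : ℝ) {ε B : ℝ} (hε : 0 < ε) {g : ℝ → ℂ} (hB : ∀ θ, ‖g θ‖ ≤ B) {a : ℝ}
    {p : ℝ × ℝ} (h1 : p.1 ∈ Icc a (a + Real.pi / 4)) (h2 : p.2 ∈ Icc a (a + Real.pi / 4))
    (x : ℝ × ℝ) : ‖Φe t ε g p x‖ ≤ B ^ 2 * LL t ^ 2 *
      (Real.exp (-(ε ^ 2 / (Real.pi * LL t)) * x.1 ^ 2) *
        Real.exp (-(ε ^ 2 / (Real.pi * LL t)) * x.2 ^ 2)) := by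
  have hB0 : 0 ≤ B := (norm_nonneg _).trans (hB 0)
  have hL := LL_pos t
  have hpi := Real.pi_pos
  unfold Φe
  by_cases hp : p ∈ {p : ℝ × ℝ | ε ≤ |p.2 - p.1|}
  · rw [indicator_of_mem hp]
    have hp' : ε ≤ |p.2 - p.1| := hp
    have b1 : |p.2 - p.1| ≤ Real.pi / 2 := by
      rw [abs_le]; constructor <;> linarith [h1.1, h1.2, h2.1, h2.2]
    have h3 := abs_sin_ge b1
    have h4 : 2 / Real.pi * ε ≤ |Real.sin (p.2 - p.1)| :=
      (mul_le_mul_of_nonneg_left hp' (by positivity)).trans h3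
    have h5 : (2 / Real.pi * ε) ^ 2 ≤ Real.sin (p.2 - p.1) ^ 2 := by
      rw [← sq_abs (Real.sin (p.2 - p.1))]
      exact pow_le_pow_left₀ (by positivity) h4 2
    have h6 := ss_lower p.1 p.2 x
    rw [norm_mul, norm_mul, norm_mul]
    have e1 := ψ_norm_le t p.1 x
    have e2 := ψ_norm_le t p.2 x
    calc ‖g p.1‖ * ‖ψ t p.1 x‖ * (‖g p.2‖ * ‖ψ t p.2 x‖)
        ≤ B * (LL t * Real.exp (-(Real.pi / (2 * LL t)) * ss p.1 x ^ 2)) *
          (B * (LL t * Real.exp (-(Real.pi / (2 * LL t)) * ss p.2 x ^ 2))) := by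
          gcongr
          · exact hB _
          · exact hB _
      _ = B ^ 2 * LL t ^ 2 * Real.exp (-(Real.pi / (2 * LL t)) * (ss p.1 x ^ 2 + ss p.2 x ^ 2)) := by
          rw [mul_add, Real.exp_add]
          ring
      _ ≤ B ^ 2 * LL t ^ 2 * Real.exp (-(ε ^ 2 / (Real.pi * LL t)) * (x.1 ^ 2 + x.2 ^ 2)) := by
          apply mul_le_mul_of_nonneg_left _ (by positivity)
          apply Real.exp_le_exp.2
          rw [neg_mul, neg_mul, neg_le_neg_iff]
          calc ε ^ 2 / (Real.pi * LL t) * (x.1 ^ 2 + x.2 ^ 2)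
              = Real.pi / (2 * LL t) * ((2 / Real.pi * ε) ^ 2 / 2 * (x.1 ^ 2 + x.2 ^ 2)) := by
                field_simp
            _ ≤ Real.pi / (2 * LL t) * (Real.sin (p.2 - p.1) ^ 2 / 2 * (x.1 ^ 2 + x.2 ^ 2)) := by
                gcongr
            _ ≤ _ := mul_le_mul_of_nonneg_left h6 (by positivity)
      _ = _ := by
          rw [← Real.exp_add, ← mul_add]
  · rw [indicator_of_notMem hp, norm_zero]
    positivity

lemma gauss_fin {c : ℝ} (hc : 0 < c) (D : ℝ) :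
    ∫⁻ x : ℝ × ℝ, ENNReal.ofReal (D * (Real.exp (-c * x.1 ^ 2) * Real.exp (-c * x.2 ^ 2))) < ∞ := by
  have h1 := (integrable_exp_neg_mul_sq hc).mul_prod (integrable_exp_neg_mul_sq hc)
  exact (h1.const_mul D).lintegral_lt_top

/-- the truncated estimate -/
lemma trunc {α : ℝ} {M : ℝ≥0∞} (hα : 1 / 3 ≤ α) (hα1 : α ≤ 1) (t : ℝ) {ε B a : ℝ} (hε : 0 < ε)
    {g : ℝ → ℂ} (hg : Measurable g) (hB : ∀ θ, ‖g θ‖ ≤ B)
    (hM : ∀ c : ℝ, ∫⁻ φ in Icc a (a + Real.pi / 4), ‖φ - c‖ₑ ^ (-α) ≤ M) :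
    ∫⁻ x, ‖∫ p, Φe t ε g p x ∂((volume.restrict (Icc a (a + Real.pi / 4))).prod
      (volume.restrict (Icc a (a + Real.pi / 4))))‖ₑ ^ 2 ≤
      ENNReal.ofReal (7 * LL t ^ (3 - α)) * (16 * M ^ 3 *
        ∫⁻ θ in Icc a (a + Real.pi / 4), ‖g θ‖ₑ ^ 4) := by
  set μ := volume.restrict (Icc a (a + Real.pi / 4)) with hμ
  have hB0 : 0 ≤ B := (norm_nonneg _).trans (hB 0)
  have hL := LL_pos t
  have hpi := Real.pi_pos
  have : IsFiniteMeasure μ := by
    rw [hμ]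
    infer_instance
  have haeJ : ∀ᵐ p : ℝ × ℝ ∂(μ.prod μ), p.1 ∈ Icc a (a + Real.pi / 4) ∧
      p.2 ∈ Icc a (a + Real.pi / 4) := by
    have h1 : μ.prod μ = (volume.prod volume).restrict
        (Icc a (a + Real.pi / 4) ×ˢ Icc a (a + Real.pi / 4)) := by
      rw [hμ, Measure.prod_restrict]
    rw [h1]
    filter_upwards [ae_restrict_mem (measurableSet_Icc.prod measurableSet_Icc)] with p hp
    exact hp
  have hfin : ∫⁻ x, (∫⁻ p, ‖Φe t ε g p x‖ₑ ∂(μ.prod μ)) ^ 2 < ∞ := by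
    set c := ε ^ 2 / (Real.pi * LL t) with hc
    have hc0 : 0 < c := by positivity
    set D := B ^ 2 * LL t ^ 2 with hD
    have hm : (μ.prod μ) univ < ∞ := measure_lt_top _ _
    have h1 : ∀ x, (∫⁻ p, ‖Φe t ε g p x‖ₑ ∂(μ.prod μ)) ^ 2 ≤
        ((μ.prod μ) univ) ^ 2 * ENNReal.ofReal (D ^ 2 * (Real.exp (-(2 * c) * x.1 ^ 2) *
          Real.exp (-(2 * c) * x.2 ^ 2))) := by
      intro x
      have h2 : ∫⁻ p, ‖Φe t ε g p x‖ₑ ∂(μ.prod μ) ≤
          ∫⁻ p, ENNReal.ofReal (D * (Real.exp (-c * x.1 ^ 2) * Real.exp (-c * x.2 ^ 2)))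
            ∂(μ.prod μ) := by
        apply lintegral_mono_ae
        filter_upwards [haeJ] with p hp
        rw [← ofReal_norm]
        exact ENNReal.ofReal_le_ofReal (Φe_bound t hε hB hp.1 hp.2 x)
      rw [lintegral_const] at h2
      calc (∫⁻ p, ‖Φe t ε g p x‖ₑ ∂(μ.prod μ)) ^ 2
          ≤ (ENNReal.ofReal (D * (Real.exp (-c * x.1 ^ 2) * Real.exp (-c * x.2 ^ 2))) *
            (μ.prod μ) univ) ^ 2 := by gcongr
        _ = ((μ.prod μ) univ) ^ 2 * ENNReal.ofReal ((D * (Real.exp (-c * x.1 ^ 2) *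
            Real.exp (-c * x.2 ^ 2))) ^ 2) := by
            rw [mul_pow, ← ENNReal.ofReal_pow (by positivity), mul_comm]
        _ = _ := by
            congr 2
            rw [mul_pow D, mul_pow (Real.exp _), ← Real.exp_nat_mul, ← Real.exp_nat_mul]
            congr 3
            · push_cast; ring
            · push_cast; ring
    refine (lintegral_mono h1).trans_lt ?_
    rw [lintegral_const_mul _ (by fun_prop)]
    exact ENNReal.mul_lt_top (ENNReal.pow_lt_top hm) (gauss_fin (by positivity) _)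
  have hk : ∀ᵐ z : (ℝ × ℝ) × (ℝ × ℝ) ∂((μ.prod μ).prod (μ.prod μ)),
      ‖∫ x, Φe t ε g z.1 x * conj (Φe t ε g z.2 x)‖ₑ ≤
        ENNReal.ofReal (7 * LL t ^ (3 - α)) *
          ((‖g z.1.1‖ₑ * ‖g z.1.2‖ₑ) * (‖g z.2.1‖ₑ * ‖g z.2.2‖ₑ) * kk α z) := by
    have hae : ∀ᵐ z : (ℝ × ℝ) × (ℝ × ℝ) ∂((μ.prod μ).prod (μ.prod μ)),
        (z.1.1 ∈ Icc a (a + Real.pi / 4) ∧ z.1.2 ∈ Icc a (a + Real.pi / 4)) ∧
        (z.2.1 ∈ Icc a (a + Real.pi / 4) ∧ z.2.2 ∈ Icc a (a + Real.pi / 4)) := by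
      have h1 := (Measure.quasiMeasurePreserving_fst (μ := μ.prod μ) (ν := μ.prod μ)).ae haeJ
      have h2 := (Measure.quasiMeasurePreserving_snd (μ := μ.prod μ) (ν := μ.prod μ)).ae haeJ
      filter_upwards [h1, h2] with z h3 h4 using ⟨h3, h4⟩
    filter_upwards [hae] with z hz
    obtain ⟨⟨h1, h2⟩, h3, h4⟩ := hz
    by_cases hp : z.1 ∈ {p : ℝ × ℝ | ε ≤ |p.2 - p.1|}
    · by_cases hq : z.2 ∈ {p : ℝ × ℝ | ε ≤ |p.2 - p.1|}
      · have e1 : ∀ x, Φe t ε g z.1 x * conj (Φe t ε g z.2 x) =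
            (g z.1.1 * g z.1.2 * conj (g z.2.1 * g z.2.2)) *
              (ψ t z.1.1 x * ψ t z.1.2 x * conj (ψ t z.2.1 x * ψ t z.2.2 x)) := by
          intro x
          unfold Φe
          rw [indicator_of_mem hp, indicator_of_mem hq]
          simp only [map_mul]
          ring
        simp_rw [e1]
        rw [integral_const_mul, enorm_mul]
        have hK := kbound t hα hα1 a (z := z) h1 h2 h3 h4
        have e2 : ‖g z.1.1 * g z.1.2 * conj (g z.2.1 * g z.2.2)‖ₑ =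
            (‖g z.1.1‖ₑ * ‖g z.1.2‖ₑ) * (‖g z.2.1‖ₑ * ‖g z.2.2‖ₑ) := by
          rw [enorm_mul, enorm_mul, RCLike.enorm_conj, enorm_mul]
        rw [e2]
        calc _ ≤ (‖g z.1.1‖ₑ * ‖g z.1.2‖ₑ) * (‖g z.2.1‖ₑ * ‖g z.2.2‖ₑ) *
              (ENNReal.ofReal (7 * LL t ^ (3 - α)) * kk α z) := by gcongr
          _ = _ := by ring
      · have e1 : ∀ x, Φe t ε g z.1 x * conj (Φe t ε g z.2 x) = 0 := by
          intro x
          unfold Φe
          rw [indicator_of_notMem hq, map_zero, mul_zero]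
        simp_rw [e1]
        simp
    · have e1 : ∀ x, Φe t ε g z.1 x * conj (Φe t ε g z.2 x) = 0 := by
        intro x
        unfold Φe
        rw [indicator_of_notMem hp, zero_mul]
      simp_rw [e1]
      simp
  have hT := ttstar (μ.prod μ) volume (Φe t ε g) (Φe_meas t ε hg) hfin _ hk
  refine hT.trans ?_
  have mg : Measurable (fun θ => ‖g θ‖ₑ) := hg.enorm
  rw [lintegral_const_mul]
  · gcongr
    exact schur (by linarith) hM _ mg
  · have m1 : Measurable (fun p : ℝ × ℝ => ‖g p.1‖ₑ * ‖g p.2‖ₑ) :=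
      (mg.comp measurable_fst).mul (mg.comp measurable_snd)
    exact ((m1.comp measurable_fst).mul (m1.comp measurable_snd)).mul (meas_kk α)

/-- the fixed time estimate -/
lemma fixed {α : ℝ} {M : ℝ≥0∞} (hα : 1 / 3 ≤ α) (hα1 : α ≤ 1) (t : ℝ) {B a : ℝ}
    {g : ℝ → ℂ} (hg : Measurable g) (hB : ∀ θ, ‖g θ‖ ≤ B)
    (hM : ∀ c : ℝ, ∫⁻ φ in Icc a (a + Real.pi / 4), ‖φ - c‖ₑ ^ (-α) ≤ M) :
    ∫⁻ x, ‖∫ θ in Icc a (a + Real.pi / 4), g θ * ψ t θ x‖ₑ ^ 4 ≤
      ENNReal.ofReal (7 * LL t ^ (3 - α)) * (16 * M ^ 3 *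
        ∫⁻ θ in Icc a (a + Real.pi / 4), ‖g θ‖ₑ ^ 4) := by
  set μ := volume.restrict (Icc a (a + Real.pi / 4)) with hμ
  have hB0 : 0 ≤ B := (norm_nonneg _).trans (hB 0)
  have hL := LL_pos t
  have : IsFiniteMeasure μ := by
    rw [hμ]
    infer_instance
  have hψb : ∀ θ x, ‖ψ t θ x‖ ≤ LL t := by
    intro θ x
    refine (ψ_norm_le t θ x).trans ?_
    have : Real.exp (-(Real.pi / (2 * LL t)) * ss θ x ^ 2) ≤ 1 := by
      rw [Real.exp_le_one_iff]
      have : 0 ≤ Real.pi / (2 * LL t) * ss θ x ^ 2 := by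
        have := Real.pi_pos
        positivity
      linarith
    nlinarith
  have hlim : ∀ x : ℝ × ℝ, Tendsto (fun n : ℕ => ∫ p, Φe t (1 / ((n : ℝ) + 1)) g p x ∂(μ.prod μ))
      atTop (𝓝 ((∫ θ, g θ * ψ t θ x ∂μ) ^ 2)) := by
    intro x
    have e1 : (∫ θ, g θ * ψ t θ x ∂μ) ^ 2 =
        ∫ p : ℝ × ℝ, (g p.1 * ψ t p.1 x) * (g p.2 * ψ t p.2 x) ∂(μ.prod μ) := by
      rw [integral_prod_mul (fun θ => g θ * ψ t θ x) (fun θ => g θ * ψ t θ x), sq]
    rw [e1]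
    apply tendsto_integral_of_dominated_convergence (fun _ => (B * LL t) * (B * LL t))
    · intro n
      exact ((Φe_meas t _ hg).comp (measurable_id.prodMk measurable_const)).aestronglyMeasurable
    · exact integrable_const _
    · intro n
      refine Eventually.of_forall fun p => ?_
      unfold Φe
      refine (norm_indicator_le_norm_self _ _).trans ?_
      rw [norm_mul, norm_mul, norm_mul]
      gcongr
      · exact hB _
      · exact hψb _ _
      · exact hB _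
      · exact hψb _ _
    · have hdiag : ∀ᵐ p : ℝ × ℝ ∂(μ.prod μ), p.2 ≠ p.1 := by
        have h1 : μ.prod μ {p : ℝ × ℝ | p.2 = p.1} = 0 := by
          rw [Measure.measure_prod_null (measurableSet_eq_fun measurable_snd measurable_fst)]
          refine Eventually.of_forall fun y => ?_
          have : (Prod.mk y ⁻¹' {p : ℝ × ℝ | p.2 = p.1}) = {y} := by
            ext z
            simp
          change μ (Prod.mk y ⁻¹' {p : ℝ × ℝ | p.2 = p.1}) = 0
          rw [this, hμ]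
          simp
        rw [ae_iff]
        simpa using h1
      filter_upwards [hdiag] with p hp
      have hp0 : 0 < |p.2 - p.1| := abs_pos.2 (sub_ne_zero.2 hp)
      have h2 : Tendsto (fun n : ℕ => 1 / ((n : ℝ) + 1)) atTop (𝓝 0) :=
        tendsto_one_div_add_atTop_nhds_zero_nat
      have h3 := h2.eventually (gt_mem_nhds hp0)
      apply tendsto_const_nhds.congr'
      filter_upwards [h3] with n hn
      unfold Φe
      rw [indicator_of_mem]
      exact hn.le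
  have hms : ∀ n : ℕ, Measurable (fun x => ‖∫ p, Φe t (1 / ((n : ℝ) + 1)) g p x ∂(μ.prod μ)‖ₑ ^ 2) := by
    intro n
    have h1 : StronglyMeasurable (fun w : (ℝ × ℝ) × (ℝ × ℝ) =>
        Φe t (1 / ((n : ℝ) + 1)) g w.2 w.1) :=
      ((Φe_meas t _ hg).comp measurable_swap).stronglyMeasurable
    exact (h1.integral_prod_right (ν := μ.prod μ)).measurable.enorm.pow_const 2
  calc ∫⁻ x, ‖∫ θ, g θ * ψ t θ x ∂μ‖ₑ ^ 4
      = ∫⁻ x, liminf (fun n : ℕ => ‖∫ p, Φe t (1 / ((n : ℝ) + 1)) g p x ∂(μ.prod μ)‖ₑ ^ 2)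
        atTop := by
        refine lintegral_congr fun x => ?_
        have h1 : Tendsto (fun n : ℕ => ‖∫ p, Φe t (1 / ((n : ℝ) + 1)) g p x ∂(μ.prod μ)‖ₑ ^ 2)
            atTop (𝓝 (‖(∫ θ, g θ * ψ t θ x ∂μ) ^ 2‖ₑ ^ 2)) :=
          ((ENNReal.continuous_pow 2).tendsto _).comp (((hlim x).enorm))
        rw [h1.liminf_eq, enorm_pow]
        ring
    _ ≤ liminf (fun n : ℕ => ∫⁻ x, ‖∫ p, Φe t (1 / ((n : ℝ) + 1)) g p x ∂(μ.prod μ)‖ₑ ^ 2) atTop :=
        lintegral_liminf_le hms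
    _ ≤ ENNReal.ofReal (7 * LL t ^ (3 - α)) * (16 * M ^ 3 * ∫⁻ θ, ‖g θ‖ₑ ^ 4 ∂μ) := by
        apply liminf_le_of_le
        · isBoundedDefault
        · intro b hb
          obtain ⟨n, hn⟩ := hb.exists
          exact hn.trans (trunc hα hα1 t (by positivity) hg hB hM)

end Pool.Agent.R244.PQ
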