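import Mathlib
import Pool.Agent.H153R4.Pl
set_option autoImplicit false

/-! # The Fourier transform on `ℝ × ℝ` and half plane projections on `L⁴` -/

namespace Pool.Agent.R244.PQ

open MeasureTheory Set Complex Filter FourierTransform
open scoped ENNReal ComplexConjugate Topology RealInnerProductSpace

/-- `e^{2 π i s}` -/
noncomputable def e (s : ℝ) : ℂ := cexp (2 * Real.pi * s * I)

/-- the scalar product -/
def dot (x ξ : ℝ × ℝ) : ℝ := x.1 * ξ.1 + x.2 * ξ.2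

/-- the (inverse) Fourier transform -/
noncomputable def Ft (f : ℝ × ℝ → ℂ) (x : ℝ × ℝ) : ℂ := ∫ ξ, f ξ * e (dot x ξ)

lemma e_norm (s : ℝ) : ‖e s‖ = 1 := by
  unfold e
  rw [show 2 * (Real.pi : ℂ) * s * I = ((2 * Real.pi * s : ℝ) : ℂ) * I by push_cast; ring,
    Complex.norm_exp_ofReal_mul_I]

lemma e_add (s t : ℝ) : e (s + t) = e s * e t := by
  unfold e
  rw [← Complex.exp_add]
  congr 1
  push_cast
  ring

lemma e_neg (s : ℝ) : e (-s) = conj (e s) := by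
  unfold e
  rw [← Complex.exp_conj, map_mul, map_mul, map_mul, Complex.conj_I, Complex.conj_ofReal,
    Complex.conj_ofReal, Complex.conj_ofNat]
  congr 1
  push_cast
  ring

lemma e_cont : Continuous e := by
  unfold e
  fun_prop

lemma dot_cont : Continuous (fun w : (ℝ × ℝ) × (ℝ × ℝ) => dot w.1 w.2) := by
  unfold dot
  fun_prop

/-- the identification of `EuclideanSpace ℝ (Fin 2)` with `ℝ × ℝ` -/
def tp (v : EuclideanSpace ℝ (Fin 2)) : ℝ × ℝ := (v 0, v 1)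

lemma tp_mp : MeasurePreserving tp := by
  have h1 : MeasurePreserving (WithLp.ofLp (p := 2) (V := Fin 2 → ℝ)) :=
    PiLp.volume_preserving_ofLp (Fin 2)
  have h2 := volume_preserving_finTwoArrow ℝ
  exact h2.comp h1

lemma tp_me : MeasurableEmbedding tp := by
  have h1 : MeasurableEmbedding (WithLp.ofLp (p := 2) (V := Fin 2 → ℝ)) :=
    (MeasurableEquiv.toLp 2 (Fin 2 → ℝ)).symm.measurableEmbedding
  exact (MeasurableEquiv.finTwoArrow (α := ℝ)).measurableEmbedding.comp h1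

lemma planch2 (f : ℝ × ℝ → ℂ) (h1 : Integrable f) (h2 : MemLp f 2) :
    ∫⁻ x, ‖Ft f x‖ₑ ^ 2 = ∫⁻ ξ, ‖f ξ‖ₑ ^ 2 := by
  have g1 : Integrable (fun v => f (tp v)) := (tp_mp.integrable_comp_emb tp_me).mpr h1
  have g2 : MemLp (fun v => f (tp v)) 2 := h2.comp_measurePreserving tp_mp
  have h3 := Pool.Agent.H153R4.plancherel (fun v => f (tp v)) g1 g2
  have e1 : ∫⁻ v, ‖f (tp v)‖ₑ ^ 2 = ∫⁻ ξ, ‖f ξ‖ₑ ^ 2 :=
    tp_mp.lintegral_comp_emb tp_me (fun ξ => ‖f ξ‖ₑ ^ 2)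
  have e2 : ∀ w : EuclideanSpace ℝ (Fin 2), 𝓕 (fun v => f (tp v)) w = Ft f (-tp w) := by
    intro w
    rw [Real.fourier_eq' _ w]
    unfold Ft
    rw [← tp_mp.integral_comp tp_me (fun ξ => f ξ * e (dot (-tp w) ξ))]
    congr 1
    ext v
    rw [smul_eq_mul, mul_comm]
    congr 1
    unfold e dot tp
    congr 1
    rw [PiLp.inner_apply]
    simp
    ring
  have e3 : ∫⁻ w : EuclideanSpace ℝ (Fin 2), ‖Ft f (-tp w)‖ₑ ^ 2 = ∫⁻ x, ‖Ft f (-x)‖ₑ ^ 2 :=
    tp_mp.lintegral_comp_emb tp_me (fun x => ‖Ft f (-x)‖ₑ ^ 2)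
  have e4 : ∫⁻ x, ‖Ft f (-x)‖ₑ ^ 2 = ∫⁻ x, ‖Ft f x‖ₑ ^ 2 :=
    (Measure.measurePreserving_neg (volume : Measure (ℝ × ℝ))).lintegral_comp_emb
      (MeasurableEquiv.neg (ℝ × ℝ)).measurableEmbedding (fun x => ‖Ft f x‖ₑ ^ 2)
  simp only [e2] at h3
  rw [e3, e4, e1] at h3
  exact h3

lemma Ft_bound {f : ℝ × ℝ → ℂ} (x : ℝ × ℝ) : ‖Ft f x‖ ≤ ∫ ξ, ‖f ξ‖ := by
  unfold Ft
  refine (norm_integral_le_integral_norm _).trans (le_of_eq ?_)
  congr 1
  ext ξ
  rw [norm_mul, e_norm, mul_one]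

lemma Ft_int {f : ℝ × ℝ → ℂ} (h1 : Integrable f) (x : ℝ × ℝ) :
    Integrable (fun ξ => f ξ * e (dot x ξ)) := by
  refine h1.mono (h1.1.mul ?_) (Eventually.of_forall fun ξ => ?_)
  · apply Continuous.aestronglyMeasurable
    have := dot_cont
    have := e_cont
    fun_prop
  · rw [norm_mul, e_norm, mul_one]

lemma Ft_cont {f : ℝ × ℝ → ℂ} (h1 : Integrable f) : Continuous (Ft f) := by
  unfold Ft
  apply continuous_of_dominated (bound := fun ξ => ‖f ξ‖)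
  · exact fun x => (Ft_int h1 x).1
  · intro x
    refine Eventually.of_forall fun ξ => ?_
    rw [norm_mul, e_norm, mul_one]
  · exact h1.norm
  · refine Eventually.of_forall fun ξ => ?_
    have := dot_cont
    have := e_cont
    fun_prop

lemma Ft_memLp {f : ℝ × ℝ → ℂ} (h1 : Integrable f) (h2 : MemLp f 2) : MemLp (Ft f) 2 := by
  refine ⟨(Ft_cont h1).aestronglyMeasurable, ?_⟩
  have h3 := planch2 f h1 h2
  have h4 := h2.2
  rw [eLpNorm_lt_top_iff_lintegral_rpow_enorm_lt_top (by norm_num) (by norm_num)] at h4 ⊢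
  simp only [ENNReal.toReal_ofNat, ENNReal.rpow_ofNat] at h4 ⊢
  rw [h3]
  exact h4

end Pool.Agent.R244.PQ
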