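import Mathlib
import Pool.Agent.R244.PQ.Ft
set_option autoImplicit false

/-! # Fourier decay of functions of bounded variation -/

namespace Pool.Agent.R244.PQ

open MeasureTheory Set Complex Filter
open scoped ENNReal ComplexConjugate Topology

lemma tv {m : ℝ → ℂ} (hm : Measurable m) {V : ℝ≥0∞} (hV : eVariationOn m (Ioi 0) ≤ V) {h : ℝ}
    (hh : 0 < h) : ∫⁻ u in Ioi (0 : ℝ), ‖m (u + h) - m u‖ₑ ≤ ENNReal.ofReal h * V := by
  set g : ℝ → ℝ≥0∞ := fun u => ‖m (u + h) - m u‖ₑ with hg
  have hgm : Measurable g := ((hm.comp (measurable_id.add_const h)).sub hm).enorm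
  have h1 : Ioi (0 : ℝ) ⊆ ⋃ k : ℕ, Ioc ((k : ℝ) * h) (((k : ℝ) + 1) * h) := by
    intro u hu
    have hu0 : 0 < u := hu
    obtain ⟨k, hk⟩ := exists_nat_ge (u / h)
    -- least such k
    have hex : ∃ k : ℕ, u ≤ ((k : ℝ) + 1) * h :=
      ⟨k, by rw [div_le_iff₀ hh] at hk; nlinarith⟩
    classical
    set k0 := Nat.find hex with hk0
    have h2 := Nat.find_spec hex
    rw [mem_iUnion]
    refine ⟨k0, ?_, h2⟩
    rcases Nat.eq_zero_or_pos k0 with h3 | h3
    · rw [h3]; simpa using hu0
    · have h4 := Nat.find_min hex (m := k0 - 1) (by omega)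
      push Not at h4
      rw [Nat.cast_sub (by omega)] at h4
      push_cast at h4
      linarith
  calc ∫⁻ u in Ioi (0 : ℝ), g u ≤ ∫⁻ u in ⋃ k : ℕ, Ioc ((k : ℝ) * h) (((k : ℝ) + 1) * h), g u :=
        lintegral_mono_set h1
    _ ≤ ∑' k : ℕ, ∫⁻ u in Ioc ((k : ℝ) * h) (((k : ℝ) + 1) * h), g u := lintegral_iUnion_le _ _
    _ = ∑' k : ℕ, ∫⁻ u in Ioc (0 : ℝ) h, g (u + k * h) := by
        congr 1
        ext k
        have := (measurePreserving_add_right volume ((k : ℝ) * h)).setLIntegral_comp_preimage
          (measurableSet_Ioc (a := (k : ℝ) * h) (b := ((k : ℝ) + 1) * h)) hgm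
        rw [← this]
        congr 2
        ext u
        simp only [mem_preimage, mem_Ioc]
        constructor <;> rintro ⟨h4, h5⟩ <;> constructor <;> linarith
    _ = ∫⁻ u in Ioc (0 : ℝ) h, ∑' k : ℕ, g (u + k * h) := by
        rw [lintegral_tsum]
        intro k
        exact (hgm.comp (measurable_id.add_const _)).aemeasurable
    _ ≤ ∫⁻ u in Ioc (0 : ℝ) h, V := by
        apply setLIntegral_mono measurable_const
        intro u hu
        rw [ENNReal.tsum_eq_iSup_nat]
        refine iSup_le fun N => ?_
        refine le_trans ?_ hV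
        have hmono : Monotone (fun k : ℕ => u + (k : ℝ) * h) := by
          intro i j hij
          have : (i : ℝ) ≤ j := by exact_mod_cast hij
          simp only
          nlinarith
        have hpos : ∀ k : ℕ, u + (k : ℝ) * h ∈ Ioi (0 : ℝ) := by
          intro k
          have : 0 < u := hu.1
          simp only [mem_Ioi]
          positivity
        have h3 := eVariationOn.sum_le (f := m) (n := N) hmono hpos
        refine le_trans (le_of_eq ?_) h3
        apply Finset.sum_congr rfl
        intro i _
        rw [hg, edist_eq_enorm_sub]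
        simp only
        congr 3
        push_cast
        ring
    _ = ENNReal.ofReal h * V := by
        rw [setLIntegral_const, Real.volume_Ioc, sub_zero, mul_comm]

lemma bv_bound {m : ℝ → ℂ} {U V : ℝ} (hV0 : 0 ≤ V) (hU : ∀ u, U < u → m u = 0)
    (hV : eVariationOn m (Ioi 0) ≤ ENNReal.ofReal V) {u : ℝ} (hu : 0 < u) : ‖m u‖ ≤ V := by
  have h1 := eVariationOn.edist_le m (s := Ioi 0) (x := u) (y := max u (U + 1)) hu
    (lt_of_lt_of_le hu (le_max_left _ _))
  rw [hU (max u (U + 1)) (lt_of_lt_of_le (by linarith) (le_max_right _ _)), edist_zero_right] at h1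
  have h2 := h1.trans hV
  rw [← ofReal_norm] at h2
  exact (ENNReal.ofReal_le_ofReal_iff hV0).1 h2

/-- the transform of `m(u) e^{πu}` -/
noncomputable def nh (m : ℝ → ℂ) (y : ℝ) : ℂ := ∫ u, m u * cexp (((Real.pi : ℂ) - 2 * Real.pi * y * I) * u)

lemma nh_norm_exp (y u : ℝ) :
    ‖cexp (((Real.pi : ℂ) - 2 * Real.pi * y * I) * u)‖ = Real.exp (Real.pi * u) := by
  rw [Complex.norm_exp]
  congr 1
  simp

lemma nh_int {m : ℝ → ℂ} (hm : Measurable m) {U V : ℝ} (h0 : ∀ u, u ≤ 0 → m u = 0)
    (hU : ∀ u, U < u → m u = 0) (hb : ∀ u, ‖m u‖ ≤ V) (y : ℝ) :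
    Integrable (fun u : ℝ => m u * cexp (((Real.pi : ℂ) - 2 * Real.pi * y * I) * u)) := by
  have hV0 : 0 ≤ V := (norm_nonneg _).trans (hb 0)
  have h1 : Integrable (indicator (Icc (0 : ℝ) U) (fun _ => V * Real.exp (Real.pi * U))) := by
    rw [integrable_indicator_iff measurableSet_Icc]
    exact integrableOn_const measure_Icc_lt_top.ne
  refine h1.mono' ?_ (Eventually.of_forall fun u => ?_)
  · apply Measurable.aestronglyMeasurable
    exact hm.mul (by fun_prop)
  · rw [norm_mul, nh_norm_exp]
    by_cases hu : u ∈ Icc (0 : ℝ) U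
    · rw [indicator_of_mem hu]
      gcongr
      · exact hb u
      · exact hu.2
    · rw [indicator_of_notMem hu]
      have : m u = 0 := by
        by_cases h2 : u ≤ 0
        · exact h0 u h2
        · apply hU
          by_contra h3
          exact hu ⟨(not_le.1 h2).le, not_lt.1 h3⟩
      rw [this, norm_zero, zero_mul]

/-- Fourier decay -/
lemma nh_bound {m : ℝ → ℂ} (hm : Measurable m) {U V : ℝ} (hU0 : 0 ≤ U) (hV0 : 0 ≤ V)
    (h0 : ∀ u, u ≤ 0 → m u = 0) (hU : ∀ u, U < u → m u = 0)
    (hV : eVariationOn m (Ioi 0) ≤ ENNReal.ofReal V) (y : ℝ) :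
    ‖nh m y‖ ≤ (U + 1) * Real.exp (Real.pi * U) * V * (1 + |y|)⁻¹ := by
  have hb : ∀ u, ‖m u‖ ≤ V := by
    intro u
    by_cases hu : 0 < u
    · exact bv_bound hV0 hU hV hu
    · rw [h0 u (not_lt.1 hu), norm_zero]; exact hV0
  -- the trivial bound
  have b1 : ‖nh m y‖ ≤ U * Real.exp (Real.pi * U) * V := by
    unfold nh
    refine (norm_integral_le_integral_norm _).trans ?_
    have h1 : ∀ u : ℝ, ‖m u * cexp (((Real.pi : ℂ) - 2 * Real.pi * y * I) * u)‖ ≤
        indicator (Ioc (0 : ℝ) U) (fun _ => V * Real.exp (Real.pi * U)) u := by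
      intro u
      rw [norm_mul, nh_norm_exp]
      by_cases hu : u ∈ Ioc (0 : ℝ) U
      · rw [indicator_of_mem hu]
        gcongr
        · exact hb u
        · exact hu.2
      · rw [indicator_of_notMem hu]
        have : m u = 0 := by
          by_cases h2 : u ≤ 0
          · exact h0 u h2
          · apply hU
            by_contra h3
            exact hu ⟨not_le.1 h2, not_lt.1 h3⟩
        rw [this, norm_zero, zero_mul]
    calc ∫ u : ℝ, ‖m u * cexp (((Real.pi : ℂ) - 2 * Real.pi * y * I) * u)‖
        ≤ ∫ u, indicator (Ioc (0 : ℝ) U) (fun _ => V * Real.exp (Real.pi * U)) u := by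
          apply integral_mono (nh_int hm h0 hU hb y).norm _ h1
          rw [integrable_indicator_iff measurableSet_Ioc]
          exact integrableOn_const measure_Ioc_lt_top.ne
      _ = _ := by
          rw [integral_indicator measurableSet_Ioc, setIntegral_const]
          simp [Measure.real, hU0]
          ring
  by_cases hy0 : y = 0
  · rw [hy0] at b1 ⊢
    have : 0 ≤ Real.exp (Real.pi * U) * V := by positivity
    simp only [abs_zero, add_zero, inv_one, mul_one]
    nlinarith
  have hy : 0 < |y| := abs_pos.2 hy0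
  have hpi := Real.pi_pos
  -- the shift
  set h := 1 / (2 * |y|) with hh
  have hhp : 0 < h := by positivity
  set G : ℝ → ℂ := fun u => cexp (((Real.pi : ℂ) - 2 * Real.pi * y * I) * u) with hG
  have hGn : ∀ u, ‖G u‖ = Real.exp (Real.pi * u) := nh_norm_exp y
  have hGs : ∀ u, G (u + h) = -(Real.exp (Real.pi * h) : ℂ) * G u := by
    intro u
    have e1 : ((Real.pi : ℂ) - 2 * Real.pi * y * I) * ((u + h : ℝ) : ℂ) =
        ((Real.pi : ℂ) - 2 * Real.pi * y * I) * u + ((Real.pi * h : ℝ) : ℂ) +
        (-(2 * Real.pi * y * h * I)) := by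
      push_cast
      ring
    have e2 : cexp (-(2 * Real.pi * y * h * I)) = -1 := by
      rcases lt_or_gt_of_ne hy0 with hneg | hpos
      · have : -(2 * (Real.pi : ℂ) * y * h * I) = Real.pi * I := by
          rw [hh, abs_of_neg hneg]
          have : (y : ℂ) ≠ 0 := by exact_mod_cast hy0
          push_cast
          field_simp
        rw [this, Complex.exp_pi_mul_I]
      · have : -(2 * (Real.pi : ℂ) * y * h * I) = -(Real.pi * I) := by
          rw [hh, abs_of_pos hpos]
          have : (y : ℂ) ≠ 0 := by exact_mod_cast hy0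
          push_cast
          field_simp
        rw [this, Complex.exp_neg, Complex.exp_pi_mul_I]
        norm_num
    simp only [hG]
    rw [e1, Complex.exp_add, Complex.exp_add, e2, Complex.ofReal_exp]
    ring
  have hint := nh_int hm h0 hU hb y
  have hint' : Integrable (fun u => m (u + h) * G u) := by
    have h2 := hint.comp_add_right h
    have h3 : (fun u => m (u + h) * G u) = fun u =>
        (-(Real.exp (Real.pi * h) : ℂ))⁻¹ * (m (u + h) * G (u + h)) := by
      ext u
      rw [hGs u]
      have : (-(Real.exp (Real.pi * h) : ℂ)) ≠ 0 := by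
        rw [neg_ne_zero]
        exact_mod_cast (Real.exp_pos _).ne'
      field_simp
    rw [h3]
    exact h2.const_mul _
  have key : (1 + (Real.exp (Real.pi * h) : ℂ)) * nh m y =
      -(Real.exp (Real.pi * h) : ℂ) * ∫ u, (m (u + h) - m u) * G u := by
    have e1 : nh m y = -(Real.exp (Real.pi * h) : ℂ) * ∫ u, m (u + h) * G u := by
      rw [← integral_const_mul]
      unfold nh
      rw [← integral_add_right_eq_self (fun u : ℝ =>
        m u * cexp (((Real.pi : ℂ) - 2 * Real.pi * y * I) * u)) h]
      congr 1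
      ext u
      have := hGs u
      simp only [hG] at this
      rw [this]
      ring
    have e2 : ∫ u, (m (u + h) - m u) * G u = (∫ u, m (u + h) * G u) - nh m y := by
      unfold nh
      rw [← integral_sub hint' hint]
      congr 1
      ext u
      ring
    rw [e2]
    linear_combination e1
  have hq : ‖nh m y‖ ≤ ‖∫ u, (m (u + h) - m u) * G u‖ := by
    have h1 := congrArg norm key
    rw [norm_mul, norm_mul, norm_neg] at h1
    have h2 : ‖(1 + (Real.exp (Real.pi * h) : ℂ))‖ = 1 + Real.exp (Real.pi * h) := by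
      rw [show (1 + (Real.exp (Real.pi * h) : ℂ)) = ((1 + Real.exp (Real.pi * h) : ℝ) : ℂ) by
        push_cast; rfl, Complex.norm_real, Real.norm_of_nonneg (by positivity)]
    have h3 : ‖(Real.exp (Real.pi * h) : ℂ)‖ = Real.exp (Real.pi * h) := by
      rw [Complex.norm_real, Real.norm_of_nonneg (by positivity)]
    rw [h2, h3] at h1
    have h4 : 0 < Real.exp (Real.pi * h) := Real.exp_pos _
    by_contra hcon
    push Not at hcon
    have h5 : 0 ≤ ‖∫ u, (m (u + h) - m u) * G u‖ := norm_nonneg _
    have h6 : 0 ≤ ‖nh m y‖ := norm_nonneg _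
    nlinarith
  have b2 : ‖∫ u, (m (u + h) - m u) * G u‖ ≤ Real.exp (Real.pi * U) * V * |y|⁻¹ := by
    have h1 : ‖∫ u, (m (u + h) - m u) * G u‖ₑ ≤
        ENNReal.ofReal (Real.exp (Real.pi * U)) * (ENNReal.ofReal h * ENNReal.ofReal V +
          ENNReal.ofReal h * ENNReal.ofReal V) := by
      refine (enorm_integral_le_lintegral_enorm _).trans ?_
      have h2 : ∀ u : ℝ, ‖(m (u + h) - m u) * G u‖ₑ ≤ ENNReal.ofReal (Real.exp (Real.pi * U)) *
          ((Ioi (0 : ℝ)).indicator (fun u => ‖m (u + h) - m u‖ₑ) u +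
            (Ioc (-h) 0).indicator (fun _ => ENNReal.ofReal V) u) := by
        intro u
        by_cases hu1 : u ≤ -h
        · rw [h0 u (by linarith), h0 (u + h) (by linarith)]
          simp
        push Not at hu1
        by_cases hu2 : u ≤ 0
        · rw [indicator_of_notMem (by simpa using hu2),
            indicator_of_mem (show u ∈ Ioc (-h) 0 from ⟨hu1, hu2⟩), zero_add,
            h0 u hu2, sub_zero, enorm_mul, mul_comm]
          gcongr
          · rw [← ofReal_norm, hGn]
            apply ENNReal.ofReal_le_ofReal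
            apply Real.exp_le_exp.2
            nlinarith
          · rw [← ofReal_norm]
            exact ENNReal.ofReal_le_ofReal (hb _)
        push Not at hu2
        rw [indicator_of_mem (show u ∈ Ioi (0 : ℝ) from hu2)]
        by_cases hu3 : U < u
        · rw [hU u hu3, hU (u + h) (by linarith)]
          simp
        push Not at hu3
        rw [enorm_mul, mul_comm]
        gcongr
        · rw [← ofReal_norm, hGn]
          apply ENNReal.ofReal_le_ofReal
          apply Real.exp_le_exp.2
          nlinarith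
        · exact le_self_add
      refine (lintegral_mono h2).trans ?_
      have hmd : Measurable (fun u => ‖m (u + h) - m u‖ₑ) :=
        ((hm.comp (measurable_id.add_const h)).sub hm).enorm
      rw [lintegral_const_mul' _ _ ENNReal.ofReal_ne_top, lintegral_add_left
        (hmd.indicator measurableSet_Ioi), lintegral_indicator measurableSet_Ioi,
        lintegral_indicator measurableSet_Ioc, setLIntegral_const, Real.volume_Ioc, zero_sub,
        neg_neg, mul_comm (ENNReal.ofReal V)]
      gcongr
      exact tv hm hV hhp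
    rw [← ofReal_norm, ← ENNReal.ofReal_mul hhp.le, ← ENNReal.ofReal_add (by positivity)
      (by positivity), ← ENNReal.ofReal_mul (by positivity)] at h1
    have h3 := (ENNReal.ofReal_le_ofReal_iff (by positivity)).1 h1
    refine h3.trans (le_of_eq ?_)
    rw [hh]
    field_simp
    ring
  have b3 := hq.trans b2
  have hE : 0 ≤ Real.exp (Real.pi * U) * V := by positivity
  rw [← div_eq_mul_inv, le_div_iff₀ (by positivity)]
  rw [← div_eq_mul_inv, le_div_iff₀ hy] at b3
  nlinarith

end Pool.Agent.R244.PQ
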