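import Mathlib
import Pool.Agent.R244.PQ.Kern
import Pool.Agent.R244.PQ.BV
set_option autoImplicit false

/-! # The one dimensional Gaussian kernel and Fourier inversion -/

namespace Pool.Agent.R244.PQ

open MeasureTheory Set Complex Filter FourierTransform
open scoped ENNReal ComplexConjugate Topology

/-- the constant in front of the ridge functions -/
noncomputable def κ (τ : ℝ) : ℂ := I * wz τ * (wz τ) ^ (1 / 2 : ℂ)

lemma LL_c (τ : ℝ) : ((LL τ : ℝ) : ℂ) = (1 - 2 * τ * I) * (1 + 2 * τ * I) := by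
  unfold LL
  push_cast
  linear_combination (4 * (τ : ℂ) ^ 2) * Complex.I_sq

lemma z_ne (τ : ℝ) : (1 - 2 * (τ : ℂ) * I) ≠ 0 := by
  intro h
  have := congrArg Complex.re h
  simp at this

lemma z_ne' (τ : ℝ) : (1 + 2 * (τ : ℂ) * I) ≠ 0 := by
  intro h
  have := congrArg Complex.re h
  simp at this

lemma wz_eq (τ : ℝ) : wz τ = 1 / (1 - 2 * τ * I) := by
  unfold wz
  rw [LL_c]
  have h1 := z_ne τ
  have h2 := z_ne' τ
  field_simp

lemma wz_norm (τ : ℝ) : ‖wz τ‖ = (LL τ) ^ (-(1 / 2 : ℝ)) := by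
  have h1 : ‖wz τ‖ ^ 2 = (LL τ)⁻¹ := by
    rw [← Complex.normSq_eq_norm_sq, Complex.normSq_apply]
    unfold wz
    rw [Complex.div_ofReal_re, Complex.div_ofReal_im]
    have hL := LL_pos τ
    simp
    unfold LL at hL ⊢
    field_simp
    ring
  have h2 : ((LL τ) ^ (-(1 / 2 : ℝ))) ^ 2 = (LL τ)⁻¹ := by
    rw [← Real.rpow_natCast, ← Real.rpow_mul (LL_pos τ).le]
    norm_num
    rw [Real.rpow_neg_one]
  have h3 : 0 ≤ (LL τ) ^ (-(1 / 2 : ℝ)) := Real.rpow_nonneg (LL_pos τ).le _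
  have h4 := norm_nonneg (wz τ)
  nlinarith [sq_nonneg (‖wz τ‖ - (LL τ) ^ (-(1 / 2 : ℝ))),
    sq_nonneg (‖wz τ‖ + (LL τ) ^ (-(1 / 2 : ℝ))), abs_eq_abs.1 ((sq_eq_sq_iff_abs_eq_abs _ _).1 (h1.trans h2.symm))]

lemma κ_norm (τ : ℝ) : ‖κ τ‖ = (LL τ) ^ (-(3 / 4 : ℝ)) := by
  unfold κ
  have : (1 / 2 : ℂ) = ((1 / 2 : ℝ) : ℂ) := by norm_num
  rw [norm_mul, norm_mul, Complex.norm_I, one_mul, this, Complex.norm_cpow_real, wz_norm,
    ← Real.rpow_mul (LL_pos τ).le, ← Real.rpow_add (LL_pos τ)]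
  norm_num

/-- the function `e(rs) e^{-π(1-2iτ) r²}` -/
noncomputable def hh (s τ r : ℝ) : ℂ :=
  cexp (-(Real.pi * (1 - 2 * τ * I)) * (r : ℂ) ^ 2 + (2 * Real.pi * s * I) * r)

lemma hh_norm (s τ r : ℝ) : ‖hh s τ r‖ = Real.exp (-Real.pi * r ^ 2) := by
  unfold hh
  rw [Complex.norm_exp]
  congr 1
  rw [← Complex.ofReal_pow, Complex.add_re, Complex.re_mul_ofReal, Complex.re_mul_ofReal]
  simp

lemma hh_cont (s τ : ℝ) : Continuous (hh s τ) := by
  unfold hh
  fun_prop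

lemma hh_int (s τ : ℝ) : Integrable (hh s τ) := by
  have h1 := integrable_exp_neg_mul_sq Real.pi_pos
  refine h1.mono' (hh_cont s τ).aestronglyMeasurable (Eventually.of_forall fun r => ?_)
  rw [hh_norm]

lemma rhh_int (s τ : ℝ) : Integrable (fun r : ℝ => (r : ℂ) * hh s τ r) := by
  have h1 := int1 Real.pi_pos 1
  refine h1.norm.mono' ?_ (Eventually.of_forall fun r => ?_)
  · have := hh_cont s τ
    apply Continuous.aestronglyMeasurable
    fun_prop
  · rw [norm_mul, hh_norm, Complex.norm_real, norm_mul, pow_one,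
      Real.norm_of_nonneg (Real.exp_pos _).le]

lemma gauss1 (s τ : ℝ) : ∫ r : ℝ, (r : ℂ) * hh s τ r =
    κ τ * s * cexp (-(Real.pi : ℂ) * (s : ℂ) ^ 2 * wz τ) := by
  have hz := z_ne τ
  have hpi : (Real.pi : ℂ) ≠ 0 := by exact_mod_cast Real.pi_pos.ne'
  have h0 : ∫ r, hh s τ r = (wz τ) ^ (1 / 2 : ℂ) * cexp (-(Real.pi : ℂ) * (s : ℂ) ^ 2 * wz τ) := by
    have hb : (-((Real.pi : ℂ) * (1 - 2 * τ * I))).re < 0 := by
      simp
      exact Real.pi_pos
    have h1 := integral_cexp_quadratic hb (2 * Real.pi * s * I) 0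
    have e1 : (Real.pi : ℂ) / - -((Real.pi : ℂ) * (1 - 2 * τ * I)) = wz τ := by
      rw [neg_neg, wz_eq]
      field_simp
    rw [e1] at h1
    have e2 : (0 : ℂ) - (2 * Real.pi * s * I) ^ 2 / (4 * -((Real.pi : ℂ) * (1 - 2 * τ * I))) =
        -(Real.pi : ℂ) * (s : ℂ) ^ 2 * wz τ := by
      have e0 : (2 * Real.pi * s * I : ℂ) ^ 2 = -(4 * Real.pi ^ 2 * s ^ 2) := by
        rw [mul_pow, Complex.I_sq]
        ring
      rw [wz_eq, e0]
      field_simp
      ring
    rw [e2] at h1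
    rw [← h1]
    congr 1
    ext r
    unfold hh
    rw [add_zero]
  have hd : ∀ r : ℝ, HasDerivAt (hh s τ)
      ((-(2 * Real.pi * (1 - 2 * τ * I)) * r + 2 * Real.pi * s * I) * hh s τ r) r := by
    intro r
    have g0 : HasDerivAt (fun r : ℝ => (r : ℂ)) 1 r := Complex.ofRealCLM.hasDerivAt
    have g1 : HasDerivAt (fun r : ℝ => -((Real.pi : ℂ) * (1 - 2 * τ * I)) * (r : ℂ) ^ 2 +
        (2 * Real.pi * s * I) * r) (-(2 * Real.pi * (1 - 2 * τ * I)) * r + 2 * Real.pi * s * I) r := by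
      refine (((g0.pow 2).const_mul _).add (g0.const_mul _)).congr_deriv ?_
      simp
      ring
    refine g1.cexp.congr_deriv ?_
    unfold hh
    ring
  have hi' : Integrable (fun r : ℝ =>
      (-(2 * Real.pi * (1 - 2 * τ * I)) * r + 2 * Real.pi * s * I) * hh s τ r) := by
    have := ((rhh_int s τ).const_mul (-(2 * Real.pi * (1 - 2 * τ * I)))).add
      ((hh_int s τ).const_mul (2 * Real.pi * s * I))
    refine this.congr (Eventually.of_forall fun r => ?_)
    simp only [Pi.add_apply]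
    ring
  have h2 := integral_eq_zero_of_hasDerivAt_of_integrable hd hi' (hh_int s τ)
  have h3 : ∫ r : ℝ, (-(2 * Real.pi * (1 - 2 * τ * I)) * r + 2 * Real.pi * s * I) * hh s τ r =
      -(2 * Real.pi * (1 - 2 * τ * I)) * (∫ r : ℝ, (r : ℂ) * hh s τ r) +
        2 * Real.pi * s * I * ∫ r, hh s τ r := by
    rw [← integral_const_mul, ← integral_const_mul, ← integral_add ((rhh_int s τ).const_mul _)
      ((hh_int s τ).const_mul _)]
    congr 1
    ext r
    ring
  rw [h3, h0] at h2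
  have h4 : (∫ r : ℝ, (r : ℂ) * hh s τ r) = s * I / (1 - 2 * τ * I) *
      ((wz τ) ^ (1 / 2 : ℂ) * cexp (-(Real.pi : ℂ) * (s : ℂ) ^ 2 * wz τ)) := by
    have hne : (2 * Real.pi * (1 - 2 * τ * I) : ℂ) ≠ 0 := by
      refine mul_ne_zero (mul_ne_zero two_ne_zero hpi) hz
    apply mul_left_cancel₀ hne
    have : (2 * Real.pi * (1 - 2 * τ * I) : ℂ) * (s * I / (1 - 2 * τ * I) *
      ((wz τ) ^ (1 / 2 : ℂ) * cexp (-(Real.pi : ℂ) * (s : ℂ) ^ 2 * wz τ))) =
      2 * Real.pi * s * I * ((wz τ) ^ (1 / 2 : ℂ) * cexp (-(Real.pi : ℂ) * (s : ℂ) ^ 2 * wz τ)) := by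
      field_simp
    rw [this]
    linear_combination -h2
  rw [h4]
  unfold κ
  rw [wz_eq τ]
  ring

/-- `B_s(u) = e^{-πu}(e(s√u) - e(-s√u))` -/
noncomputable def Bs (s u : ℝ) : ℂ :=
  Real.exp (-Real.pi * u) * (e (s * Real.sqrt u) - e (-(s * Real.sqrt u)))

lemma Bs_cont (s : ℝ) : Continuous (Bs s) := by
  unfold Bs
  have := e_cont
  fun_prop

lemma Bs_neg {s u : ℝ} (hu : u ≤ 0) : Bs s u = 0 := by
  unfold Bs
  rw [Real.sqrt_eq_zero_of_nonpos hu]
  simp

lemma Bs_norm (s u : ℝ) : ‖Bs s u‖ ≤ 2 * Real.exp (-Real.pi * u) := by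
  unfold Bs
  rw [norm_mul, Complex.norm_real, Real.norm_of_nonneg (Real.exp_pos _).le, mul_comm]
  gcongr
  refine (norm_sub_le _ _).trans ?_
  rw [e_norm, e_norm]
  norm_num

lemma exp_int : IntegrableOn (fun u : ℝ => Real.exp (-Real.pi * u)) (Ioi 0) :=
  exp_neg_integrableOn_Ioi 0 Real.pi_pos

lemma Bs_int (s : ℝ) : Integrable (Bs s) := by
  have h1 : Integrable ((Ioi (0 : ℝ)).indicator (fun u => 2 * Real.exp (-Real.pi * u))) := by
    rw [integrable_indicator_iff measurableSet_Ioi]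
    exact exp_int.const_mul 2
  refine h1.mono' (Bs_cont s).aestronglyMeasurable (Eventually.of_forall fun u => ?_)
  by_cases hu : 0 < u
  · rw [indicator_of_mem (show u ∈ Ioi (0 : ℝ) from hu)]
    exact Bs_norm s u
  · rw [Bs_neg (not_lt.1 hu), norm_zero]
    exact indicator_nonneg (fun u _ => by positivity) u

/-- the transform of `B_s` -/
noncomputable def β (s τ : ℝ) : ℂ := 2 * (κ τ * s * cexp (-(Real.pi : ℂ) * (s : ℂ) ^ 2 * wz τ))

lemma Bs_ft (s τ : ℝ) : ∫ u, Bs s u * e (τ * u) = β s τ := by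
  have h1 : ∫ u, Bs s u * e (τ * u) = ∫ u in Ioi (0 : ℝ), Bs s u * e (τ * u) := by
    rw [← integral_indicator measurableSet_Ioi]
    congr 1
    ext u
    by_cases hu : 0 < u
    · rw [indicator_of_mem (show u ∈ Ioi (0 : ℝ) from hu)]
    · rw [indicator_of_notMem (show u ∉ Ioi (0 : ℝ) from hu), Bs_neg (not_lt.1 hu), zero_mul]
  rw [h1, ← integral_comp_rpow_Ioi (fun u => Bs s u * e (τ * u)) (p := 2) (by norm_num)]
  have h2 : ∀ r ∈ Ioi (0 : ℝ), (|2| * r ^ ((2 : ℝ) - 1)) • (Bs s (r ^ (2 : ℝ)) * e (τ * r ^ (2 : ℝ))) =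
      2 * ((r : ℂ) * hh s τ r + (fun r : ℝ => (r : ℂ) * hh s τ r) (-r)) := by
    intro r hr
    have hr0 : 0 < r := hr
    have e1 : r ^ (2 : ℝ) = r ^ 2 := by
      rw [← Real.rpow_natCast]; norm_num
    have e2 : r ^ ((2 : ℝ) - 1) = r := by norm_num
    rw [e1, e2, abs_two]
    unfold Bs hh
    rw [Real.sqrt_sq hr0.le, Complex.real_smul]
    have e3 : ∀ σ : ℝ, cexp (-(Real.pi * (1 - 2 * τ * I)) * (r : ℂ) ^ 2 + (2 * Real.pi * s * I) * (σ * r)) =
        (Real.exp (-Real.pi * r ^ 2) : ℂ) * e (σ * (s * r)) * e (τ * r ^ 2) := by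
      intro σ
      unfold e
      rw [Complex.ofReal_exp, ← Complex.exp_add, ← Complex.exp_add]
      congr 1
      push_cast
      ring
    have e4 := e3 1
    have e5 := e3 (-1)
    simp only [Complex.ofReal_one, one_mul, Complex.ofReal_neg, neg_mul] at e4 e5
    simp only [Complex.ofReal_neg]
    have e6 : cexp (-(Real.pi * (1 - 2 * τ * I)) * (-(r : ℂ)) ^ 2 + 2 * Real.pi * s * I * -(r : ℂ)) =
        (Real.exp (-(Real.pi * r ^ 2)) : ℂ) * e (-(s * r)) * e (τ * r ^ 2) := by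
      rw [← e5]
      congr 1
      ring
    have e7 : cexp (-(Real.pi * (1 - 2 * τ * I)) * (r : ℂ) ^ 2 + 2 * Real.pi * s * I * (r : ℂ)) =
        (Real.exp (-(Real.pi * r ^ 2)) : ℂ) * e (s * r) * e (τ * r ^ 2) := by
      rw [← e4]
      congr 1
      ring
    rw [e6, e7]
    push_cast
    ring_nf
  rw [setIntegral_congr_fun measurableSet_Ioi h2, integral_const_mul, integral_add
    (rhh_int s τ).integrableOn (by
      have := (rhh_int s τ).comp_neg
      exact this.integrableOn), integral_comp_neg_Ioi 0 (fun r : ℝ => (r : ℂ) * hh s τ r), neg_zero,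
    add_comm, intervalIntegral.integral_Iic_add_Ioi (rhh_int s τ).integrableOn
      (rhh_int s τ).integrableOn, gauss1]
  rfl

lemma β_norm (s τ : ℝ) : ‖β s τ‖ ≤ 2 * |s| * (1 + ‖τ‖ ^ 2) ^ (-(3 / 2 : ℝ) / 2) := by
  unfold β
  have hL := LL_pos τ
  rw [norm_mul, norm_mul, norm_mul, κ_norm, Complex.norm_real, Real.norm_eq_abs, Complex.norm_exp]
  have h1 : Real.exp (-(Real.pi : ℂ) * (s : ℂ) ^ 2 * wz τ).re ≤ 1 := by
    rw [Real.exp_le_one_iff, show -(Real.pi : ℂ) * (s : ℂ) ^ 2 * wz τ =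
      ((-(Real.pi * s ^ 2) : ℝ) : ℂ) * wz τ by push_cast; ring, Complex.re_ofReal_mul, wz_re]
    have : 0 ≤ Real.pi * s ^ 2 * (1 / LL τ) := by
      have := Real.pi_pos
      positivity
    linarith
  have h2 : (LL τ) ^ (-(3 / 4 : ℝ)) ≤ (1 + ‖τ‖ ^ 2) ^ (-(3 / 2 : ℝ) / 2) := by
    rw [show (-(3 / 2 : ℝ) / 2) = -(3 / 4 : ℝ) by norm_num]
    apply Real.rpow_le_rpow_of_nonpos (by positivity) _ (by norm_num)
    unfold LL
    rw [Real.norm_eq_abs, sq_abs]
    nlinarith [sq_nonneg τ]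
  have h3 : ‖(2 : ℂ)‖ = 2 := by norm_num
  rw [h3]
  calc 2 * ((LL τ) ^ (-(3 / 4 : ℝ)) * |s| * Real.exp (-(Real.pi : ℂ) * (s : ℂ) ^ 2 * wz τ).re)
      ≤ 2 * ((1 + ‖τ‖ ^ 2) ^ (-(3 / 2 : ℝ) / 2) * |s| * 1) := by gcongr
    _ = _ := by ring

lemma wz_cont : Continuous wz := by
  unfold wz
  apply Continuous.div (by fun_prop)
  · unfold LL; fun_prop
  · intro t
    exact_mod_cast (LL_pos t).ne'

lemma κ_meas : Measurable κ := by
  unfold κ
  have := wz_cont.measurable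
  fun_prop

lemma β_meas : Measurable (fun w : ℝ × ℝ => β w.1 w.2) := by
  unfold β
  have h1 := κ_meas
  have h2 := wz_cont.measurable
  fun_prop

lemma dec_int : Integrable (fun τ : ℝ => (1 + ‖τ‖ ^ 2) ^ (-(3 / 2 : ℝ) / 2)) :=
  integrable_rpow_neg_one_add_norm_sq (by simp; norm_num)

lemma β_int (s : ℝ) : Integrable (β s) := by
  refine (dec_int.const_mul (2 * |s|)).mono' ?_ (Eventually.of_forall fun τ => β_norm s τ)
  exact (β_meas.comp (measurable_const.prodMk measurable_id)).aestronglyMeasurable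

lemma Bs_inv (s u : ℝ) : Bs s u = ∫ τ, β s τ * e (-(τ * u)) := by
  have h1 : 𝓕 (Bs s) = fun w => β s (-w) := by
    ext w
    rw [Real.fourier_real_eq_integral_exp_smul, ← Bs_ft]
    congr 1
    ext v
    rw [smul_eq_mul, mul_comm]
    congr 1
    unfold e
    congr 1
    push_cast
    ring
  have h2 : Integrable (𝓕 (Bs s)) := by
    rw [h1]
    exact (β_int s).comp_neg
  have h3 := (Bs_cont s).fourierInv_fourier_eq (Bs_int s) h2
  have h4 := congrFun h3 u
  rw [← h4, Real.fourierInv_eq', h1, ← integral_neg_eq_self]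
  congr 1
  ext v
  simp only [neg_neg]
  rw [smul_eq_mul, mul_comm]
  congr 1
  unfold e
  congr 1
  simp
  ring

/-- Parseval -/
lemma pars {n : ℝ → ℂ} (hn : Integrable n) (s t : ℝ) :
    ∫ u, n u * Bs s u * e (t * u) = ∫ τ, β s τ * ∫ u, n u * e (-((τ - t) * u)) := by
  have h1 : ∀ u, n u * Bs s u * e (t * u) = ∫ τ, β s τ * (n u * e (-((τ - t) * u))) := by
    intro u
    rw [Bs_inv s u, mul_comm (n u), mul_assoc, ← integral_mul_const]
    congr 1
    ext τ
    rw [show -((τ - t) * u) = -(τ * u) + t * u by ring, e_add]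
    ring
  simp_rw [h1]
  rw [integral_integral_swap (f := fun u τ => β s τ * (n u * e (-((τ - t) * u))))]
  · congr 1
    ext τ
    rw [integral_const_mul]
  · have h2 : Integrable (fun z : ℝ × ℝ => n z.1 * β s z.2) (volume.prod volume) :=
      hn.mul_prod (β_int s)
    refine h2.mono ?_ (Eventually.of_forall fun z => ?_)
    · have h3 : AEStronglyMeasurable (fun z : ℝ × ℝ => e (-((z.2 - t) * z.1)))
          (volume.prod volume) := by
        apply Continuous.aestronglyMeasurable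
        have := e_cont
        fun_prop
      refine (h2.1.mul h3).congr (Eventually.of_forall fun z => ?_)
      simp only [Function.uncurry, Pi.mul_apply]
      ring
    · simp only [Function.uncurry, norm_mul, e_norm, mul_one]
      rw [mul_comm]

end Pool.Agent.R244.PQ
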