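import Mathlib
import Pool.Agent.R244.PQ.Ft
set_option autoImplicit false

/-! # Half plane projections on `L⁴` -/

namespace Pool.Agent.R244.PQ

open MeasureTheory Set Complex Filter
open scoped ENNReal ComplexConjugate Topology

lemma Ft_add {f g : ℝ × ℝ → ℂ} (h1 : Integrable f) (h2 : Integrable g) (c : ℂ) (x : ℝ × ℝ) :
    Ft (fun ξ => f ξ + c * g ξ) x = Ft f x + c * Ft g x := by
  unfold Ft
  rw [← integral_const_mul, ← integral_add (Ft_int h1 x) ((Ft_int h2 x).const_mul c)]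
  congr 1
  ext ξ
  ring

/-- real form of Plancherel -/
lemma planchR {f : ℝ × ℝ → ℂ} (h1 : Integrable f) (h2 : MemLp f 2) :
    ∫ x, ‖Ft f x‖ ^ 2 = ∫ ξ, ‖f ξ‖ ^ 2 := by
  have e1 := (Ft_memLp h1 h2).integrable_norm_pow (by norm_num)
  have e2 := h2.integrable_norm_pow (by norm_num)
  have h3 := planch2 f h1 h2
  have h4 := ofReal_integral_eq_lintegral_ofReal e1 (Eventually.of_forall fun x => by positivity)
  have h5 := ofReal_integral_eq_lintegral_ofReal e2 (Eventually.of_forall fun x => by positivity)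
  have h6 : ∀ z : ℂ, ENNReal.ofReal (‖z‖ ^ 2) = ‖z‖ₑ ^ 2 := by
    intro z
    rw [ENNReal.ofReal_pow (norm_nonneg _), ofReal_norm]
  simp_rw [h6] at h4 h5
  rw [h3, ← h5] at h4
  exact (ENNReal.ofReal_eq_ofReal_iff (integral_nonneg fun x => by positivity)
    (integral_nonneg fun x => by positivity)).1 h4

/-- orthogonality of functions with disjoint spectra -/
lemma orth {f g : ℝ × ℝ → ℂ} (f1 : Integrable f) (f2 : MemLp f 2) (g1 : Integrable g)
    (g2 : MemLp g 2) (hfg : ∀ ξ, f ξ = 0 ∨ g ξ = 0) :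
    ∫ x, Ft f x * conj (Ft g x) = 0 := by
  have F2 := Ft_memLp f1 f2
  have G2 := Ft_memLp g1 g2
  have hi : Integrable (fun x => Ft f x * conj (Ft g x)) := by
    have := F2.integrable_mul (q := 2) (g := fun x => conj (Ft g x)) ?_
    · exact this
    · refine G2.of_le ?_ (Eventually.of_forall fun x => ?_)
      · exact (Complex.continuous_conj.comp (Ft_cont g1)).aestronglyMeasurable
      · simp
  have iF := F2.integrable_norm_pow (by norm_num)
  have iG := G2.integrable_norm_pow (by norm_num)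
  have jF := f2.integrable_norm_pow (by norm_num)
  have jG := g2.integrable_norm_pow (by norm_num)
  have key : ∀ c : ℂ, (conj c * ∫ x, Ft f x * conj (Ft g x)).re = 0 := by
    intro c
    have h1 : Integrable (fun ξ => f ξ + c * g ξ) := f1.add (g1.const_mul c)
    have h2 : MemLp (fun ξ => f ξ + c * g ξ) 2 := f2.add (g2.const_mul c)
    have h3 := planchR h1 h2
    simp_rw [Ft_add f1 g1 c] at h3
    have e1 : ∀ x, ‖Ft f x + c * Ft g x‖ ^ 2 = ‖Ft f x‖ ^ 2 + (‖c‖ ^ 2 * ‖Ft g x‖ ^ 2 +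
        2 * (conj c * (Ft f x * conj (Ft g x))).re) := by
      intro x
      rw [← Complex.normSq_eq_norm_sq, Complex.normSq_add, Complex.normSq_eq_norm_sq,
        Complex.normSq_eq_norm_sq, norm_mul, map_mul]
      rw [show Ft f x * (conj c * conj (Ft g x)) = conj c * (Ft f x * conj (Ft g x)) by ring]
      ring
    have e2 : ∀ ξ, ‖f ξ + c * g ξ‖ ^ 2 = ‖f ξ‖ ^ 2 + ‖c‖ ^ 2 * ‖g ξ‖ ^ 2 := by
      intro ξ
      rcases hfg ξ with h | h
      · rw [h, zero_add, norm_mul, norm_zero]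
        ring
      · rw [h, mul_zero, add_zero, norm_zero]
        ring
    simp_rw [e1, e2] at h3
    have hre : Integrable (fun x => 2 * (conj c * (Ft f x * conj (Ft g x))).re) :=
      ((hi.const_mul (conj c)).re).const_mul 2
    have hG3 : Integrable (fun x => ‖c‖ ^ 2 * ‖Ft g x‖ ^ 2 +
        2 * (conj c * (Ft f x * conj (Ft g x))).re) := (iG.const_mul _).add hre
    rw [integral_add iF hG3, integral_add (iG.const_mul _) hre,
      integral_add jF (jG.const_mul _), integral_const_mul, integral_const_mul,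
      integral_const_mul, planchR f1 f2, planchR g1 g2] at h3
    have e3 : ∫ x, (conj c * (Ft f x * conj (Ft g x))).re =
        (conj c * ∫ x, Ft f x * conj (Ft g x)).re := by
      rw [← integral_const_mul]
      exact integral_re (hi.const_mul (conj c))
    rw [e3] at h3
    linarith
  have k1 := key 1
  have k2 := key I
  apply Complex.ext
  · simpa using k1
  · simpa using k2

/-- the half plane `ξ · u > 0` -/
def Half (u : ℝ × ℝ) (f : ℝ × ℝ → ℂ) : Prop := ∀ ξ, f ξ ≠ 0 → 0 < dot u ξ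

lemma dot_add (x ξ η : ℝ × ℝ) : dot x (ξ + η) = dot x ξ + dot x η := by
  unfold dot
  simp
  ring

lemma dot_neg (x ξ : ℝ × ℝ) : dot x (-ξ) = -dot x ξ := by
  unfold dot
  simp
  ring

lemma dot_comm (x ξ : ℝ × ℝ) : dot x ξ = dot ξ x := by
  unfold dot
  ring

/-- the square -/
lemma Ft_sq {u : ℝ × ℝ} {f : ℝ × ℝ → ℂ} (h1 : Integrable f) (h2 : MemLp f 2) (hu : Half u f)
    {ζ : ℝ × ℝ} (hζ : 0 ≤ dot u ζ) : ∫ x, Ft f x ^ 2 * e (dot x ζ) = 0 := by
  have hmp : MeasurePreserving (fun ξ : ℝ × ℝ => -ζ - ξ) :=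
    Measure.measurePreserving_sub_left volume (-ζ)
  have hme : MeasurableEmbedding (fun ξ : ℝ × ℝ => -ζ - ξ) :=
    (MeasurableEquiv.subLeft (-ζ)).measurableEmbedding
  set g : ℝ × ℝ → ℂ := fun ξ => conj (f (-ζ - ξ)) with hg
  have g1' : Integrable (fun ξ => f (-ζ - ξ)) := (hmp.integrable_comp_emb hme).mpr h1
  have g2' : MemLp (fun ξ => f (-ζ - ξ)) 2 := h2.comp_measurePreserving hmp
  have g1 : Integrable g := by
    refine ⟨(Complex.continuous_conj.comp_aestronglyMeasurable g1'.1), ?_⟩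
    have := g1'.2
    rw [hasFiniteIntegral_iff_enorm] at this ⊢
    simpa [hg, RCLike.enorm_conj] using this
  have g2 : MemLp g 2 := by
    refine g2'.of_le (Complex.continuous_conj.comp_aestronglyMeasurable g1'.1)
      (Eventually.of_forall fun x => ?_)
    simp [hg]
  have hgF : ∀ x, conj (Ft g x) = Ft f x * e (dot x ζ) := by
    intro x
    unfold Ft
    rw [← integral_conj, ← integral_mul_const, ← hmp.integral_comp hme
      (fun ξ => f ξ * e (dot x ξ) * e (dot x ζ))]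
    congr 1
    ext ξ
    rw [map_mul, hg, Complex.conj_conj, mul_assoc]
    congr 1
    rw [← e_neg, ← e_add]
    congr 1
    rw [show -ζ - ξ = -ζ + -ξ by abel, dot_add, dot_neg, dot_neg]
    ring
  have h3 := orth h1 h2 g1 g2 (fun ξ => by
    by_contra hcon
    push Not at hcon
    have a1 := hu ξ hcon.1
    have a2 : f (-ζ - ξ) ≠ 0 := by
      intro h0
      apply hcon.2
      simp [hg, h0]
    have a3 := hu _ a2
    rw [show -ζ - ξ = -ζ + -ξ by abel, dot_add, dot_neg, dot_neg] at a3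
    linarith)
  rw [← h3]
  congr 1
  ext x
  rw [hgF]
  ring

lemma Ft_step {u : ℝ × ℝ} {f : ℝ × ℝ → ℂ} (h1 : Integrable f) (hu : Half u f)
    {G : ℝ × ℝ → ℂ} (hG : Integrable G) (h0 : ∀ ζ, 0 ≤ dot u ζ → ∫ x, G x * e (dot x ζ) = 0)
    {ζ : ℝ × ℝ} (hζ : 0 ≤ dot u ζ) : ∫ x, (Ft f x * G x) * e (dot x ζ) = 0 := by
  have e1 : ∀ x, (Ft f x * G x) * e (dot x ζ) = ∫ ξ, f ξ * (G x * e (dot x (ξ + ζ))) := by
    intro x
    unfold Ft
    rw [mul_assoc, ← integral_mul_const]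
    congr 1
    ext ξ
    rw [dot_add, e_add]
    ring
  simp_rw [e1]
  have hint : Integrable (Function.uncurry fun (x ξ : ℝ × ℝ) => f ξ * (G x * e (dot x (ξ + ζ))))
      (volume.prod volume) := by
    have h2 : Integrable (fun z : (ℝ × ℝ) × (ℝ × ℝ) => G z.1 * f z.2) (volume.prod volume) :=
      hG.mul_prod h1
    refine h2.mono ?_ (Eventually.of_forall fun z => ?_)
    · have a1 : AEStronglyMeasurable (fun z : (ℝ × ℝ) × (ℝ × ℝ) => e (dot z.1 (z.2 + ζ)))
          (volume.prod volume) := by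
        apply Continuous.aestronglyMeasurable
        have := dot_cont
        have := e_cont
        fun_prop
      have := h2.1.mul a1
      refine this.congr (Eventually.of_forall fun z => ?_)
      simp only [Function.uncurry, Pi.mul_apply]
      ring
    · simp only [Function.uncurry, norm_mul, e_norm, mul_one]
      rw [mul_comm]
  rw [integral_integral_swap hint]
  apply integral_eq_zero_of_ae
  refine Eventually.of_forall fun ξ => ?_
  simp only [Pi.zero_apply]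
  rw [integral_const_mul]
  by_cases hξ : f ξ = 0
  · rw [hξ, zero_mul]
  · rw [h0 (ξ + ζ) (by rw [dot_add]; linarith [hu ξ hξ]), mul_zero]

/-- the fourth power has mean zero -/
lemma Ft_four {u : ℝ × ℝ} {f : ℝ × ℝ → ℂ} (h1 : Integrable f) (h2 : MemLp f 2) (hu : Half u f) :
    Integrable (fun x => Ft f x ^ 4) ∧ ∫ x, Ft f x ^ 4 = 0 := by
  have F2 := Ft_memLp h1 h2
  have hc := Ft_cont h1
  have i2 : Integrable (fun x => Ft f x ^ 2) := by
    have := F2.integrable_mul (q := 2) (g := Ft f) F2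
    refine this.congr (Eventually.of_forall fun x => ?_)
    simp only [Pi.mul_apply]
    ring
  have hstep : ∀ {G : ℝ × ℝ → ℂ}, Integrable G → Integrable (fun x => Ft f x * G x) := by
    intro G hG
    exact hG.bdd_mul (c := ∫ ξ, ‖f ξ‖) hc.aestronglyMeasurable
      (Eventually.of_forall fun x => Ft_bound x)
  have i3 := hstep i2
  have i4 := hstep i3
  have z2 : ∀ ζ, 0 ≤ dot u ζ → ∫ x, Ft f x ^ 2 * e (dot x ζ) = 0 := fun ζ hζ => Ft_sq h1 h2 hu hζ
  have z3 : ∀ ζ, 0 ≤ dot u ζ → ∫ x, (Ft f x * Ft f x ^ 2) * e (dot x ζ) = 0 :=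
    fun ζ hζ => Ft_step h1 hu i2 z2 hζ
  have z4 : ∀ ζ, 0 ≤ dot u ζ → ∫ x, (Ft f x * (Ft f x * Ft f x ^ 2)) * e (dot x ζ) = 0 :=
    fun ζ hζ => Ft_step h1 hu i3 z3 hζ
  have e1 : (fun x => Ft f x * (Ft f x * Ft f x ^ 2)) = fun x => Ft f x ^ 4 := by
    ext x
    ring
  refine ⟨by rw [← e1]; exact i4, ?_⟩
  have := z4 0 (by simp [dot])
  rw [← this]
  congr 1
  ext x
  have : e (dot x 0) = 1 := by simp [dot, e]
  rw [this]
  ring

lemma four_pt (P : ℂ) : ‖P‖ ^ 4 ≤ 4 * (P ^ 4).re + 70 * P.im ^ 4 := by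
  have h1 : ‖P‖ ^ 4 = (P.re ^ 2 + P.im ^ 2) ^ 2 := by
    have : ‖P‖ ^ 2 = P.re ^ 2 + P.im ^ 2 := by
      rw [← Complex.normSq_eq_norm_sq, Complex.normSq_apply]
      ring
    rw [← this]
    ring
  have h2 : (P ^ 4).re = P.re ^ 4 - 6 * P.re ^ 2 * P.im ^ 2 + P.im ^ 4 := by
    have : P ^ 4 = P ^ 2 * P ^ 2 := by ring
    rw [this, Complex.mul_re]
    have h3 : (P ^ 2).re = P.re ^ 2 - P.im ^ 2 := by rw [sq, Complex.mul_re]; ring
    have h4 : (P ^ 2).im = 2 * P.re * P.im := by rw [sq, Complex.mul_im]; ring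
    rw [h3, h4]
    ring
  rw [h1, h2]
  nlinarith [sq_nonneg (P.re ^ 2 - 6 * P.im ^ 2), sq_nonneg (P.re ^ 2 - P.im ^ 2),
    sq_nonneg (P.re ^ 2 - 5 * P.im ^ 2), sq_nonneg (P.re ^ 2), sq_nonneg (P.im ^ 2)]

lemma im_bound {u : ℝ × ℝ} {f : ℝ × ℝ → ℂ} (h1 : Integrable f) (h2 : MemLp f 2) (hu : Half u f) :
    Integrable (fun x => ‖Ft f x‖ ^ 4) ∧ Integrable (fun x => (Ft f x).im ^ 4) ∧
    ∫ x, ‖Ft f x‖ ^ 4 ≤ 70 * ∫ x, (Ft f x).im ^ 4 := by
  obtain ⟨i4, z4⟩ := Ft_four h1 h2 hu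
  have hc := Ft_cont h1
  have j4 : Integrable (fun x => ‖Ft f x‖ ^ 4) := by
    refine i4.norm.congr (Eventually.of_forall fun x => ?_)
    simp
  have k4 : Integrable (fun x => (Ft f x).im ^ 4) := by
    refine j4.mono (by fun_prop) (Eventually.of_forall fun x => ?_)
    rw [norm_pow, norm_pow, norm_norm, Real.norm_eq_abs]
    exact pow_le_pow_left₀ (abs_nonneg _) (Complex.abs_im_le_norm _) 4
  refine ⟨j4, k4, ?_⟩
  have hre : Integrable (fun x => 4 * (Ft f x ^ 4).re) := (i4.re).const_mul 4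
  have hre0 : ∫ x, (Ft f x ^ 4).re = 0 := by
    have := integral_re i4
    simp only [RCLike.re_to_complex] at this
    rw [this, z4]
    simp
  calc ∫ x, ‖Ft f x‖ ^ 4 ≤ ∫ x, (4 * (Ft f x ^ 4).re + 70 * (Ft f x).im ^ 4) :=
        integral_mono j4 (hre.add (k4.const_mul 70)) fun x => four_pt _
    _ = _ := by
        rw [integral_add hre (k4.const_mul 70), integral_const_mul, hre0, integral_const_mul]
        ring

/-- the half plane projection on `L⁴` -/
lemma riesz {u : ℝ × ℝ} {f : ℝ × ℝ → ℂ} (h1 : Integrable f) (h2 : MemLp f 2) (hu : Half u f) :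
    ∫⁻ x, ‖Ft f x‖ₑ ^ 4 ≤ 70 * ∫⁻ x, ‖Ft f x - Ft f (-x)‖ₑ ^ 4 := by
  -- real and imaginary part
  set fr : ℝ × ℝ → ℂ := fun ξ => ((f ξ).re : ℂ) with hfr
  set fi : ℝ × ℝ → ℂ := fun ξ => ((f ξ).im : ℂ) with hfi
  have mr : AEStronglyMeasurable fr volume :=
    (Complex.continuous_ofReal.comp Complex.continuous_re).comp_aestronglyMeasurable h1.1
  have mi : AEStronglyMeasurable fi volume :=
    (Complex.continuous_ofReal.comp Complex.continuous_im).comp_aestronglyMeasurable h1.1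
  have br : ∀ ξ, ‖fr ξ‖ ≤ ‖f ξ‖ := by
    intro ξ
    rw [hfr, Complex.norm_real]
    exact Complex.abs_re_le_norm _
  have bi : ∀ ξ, ‖fi ξ‖ ≤ ‖f ξ‖ := by
    intro ξ
    rw [hfi, Complex.norm_real]
    exact Complex.abs_im_le_norm _
  have r1 : Integrable fr := h1.mono mr (Eventually.of_forall br)
  have i1 : Integrable fi := h1.mono mi (Eventually.of_forall bi)
  have r2 : MemLp fr 2 := h2.of_le mr (Eventually.of_forall br)
  have i2 : MemLp fi 2 := h2.of_le mi (Eventually.of_forall bi)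
  have ru : Half u fr := by
    intro ξ hξ
    apply hu
    intro h0
    apply hξ
    simp [hfr, h0]
  have iu : Half u fi := by
    intro ξ hξ
    apply hu
    intro h0
    apply hξ
    simp [hfi, h0]
  have hf : ∀ x, Ft f x = Ft fr x + I * Ft fi x := by
    intro x
    rw [← Ft_add r1 i1 I x]
    congr 1
    ext ξ
    rw [hfr, hfi]
    simp only
    rw [mul_comm I, Complex.re_add_im]
  have hconj : ∀ g : ℝ × ℝ → ℝ, ∀ x, Ft (fun ξ => (g ξ : ℂ)) (-x) =
      conj (Ft (fun ξ => (g ξ : ℂ)) x) := by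
    intro g x
    unfold Ft
    rw [← integral_conj]
    congr 1
    ext ξ
    rw [map_mul, Complex.conj_ofReal, ← e_neg]
    congr 2
    rw [dot_comm, dot_neg, dot_comm]
  have hW : ∀ x, Ft f x - Ft f (-x) = -2 * (Ft fi x).im + (2 * (Ft fr x).im : ℝ) * I := by
    intro x
    rw [hf x, hf (-x), hfr, hfi, hconj (fun ξ => (f ξ).re), hconj (fun ξ => (f ξ).im)]
    have a1 : ∀ z : ℂ, z - conj z = 2 * (z.im : ℂ) * I := by
      intro z
      apply Complex.ext <;> simp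
      ring
    have b1 := a1 (Ft (fun ξ => ((f ξ).re : ℂ)) x)
    have b2 := a1 (Ft (fun ξ => ((f ξ).im : ℂ)) x)
    have : Ft (fun ξ => ((f ξ).re : ℂ)) x + I * Ft (fun ξ => ((f ξ).im : ℂ)) x -
        (conj (Ft (fun ξ => ((f ξ).re : ℂ)) x) + I * conj (Ft (fun ξ => ((f ξ).im : ℂ)) x)) =
        (Ft (fun ξ => ((f ξ).re : ℂ)) x - conj (Ft (fun ξ => ((f ξ).re : ℂ)) x)) +
        I * (Ft (fun ξ => ((f ξ).im : ℂ)) x - conj (Ft (fun ξ => ((f ξ).im : ℂ)) x)) := by ring
    rw [this, b1, b2]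
    push_cast
    linear_combination (2 * ((Ft (fun ξ => ((f ξ).im : ℂ)) x).im : ℂ)) * Complex.I_sq
  obtain ⟨jr, kr, hr⟩ := im_bound r1 r2 ru
  obtain ⟨ji, ki, hi⟩ := im_bound i1 i2 iu
  have hW4 : ∀ x, 16 * ((Ft fr x).im ^ 4 + (Ft fi x).im ^ 4) ≤ ‖Ft f x - Ft f (-x)‖ ^ 4 := by
    intro x
    have h3 : ‖Ft f x - Ft f (-x)‖ ^ 2 = 4 * (Ft fi x).im ^ 2 + 4 * (Ft fr x).im ^ 2 := by
      rw [hW, ← Complex.normSq_eq_norm_sq, Complex.normSq_apply]
      simp
      ring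
    have h4 : ‖Ft f x - Ft f (-x)‖ ^ 4 = (4 * (Ft fi x).im ^ 2 + 4 * (Ft fr x).im ^ 2) ^ 2 := by
      rw [← h3]
      ring
    rw [h4]
    nlinarith [mul_nonneg (sq_nonneg (Ft fi x).im) (sq_nonneg (Ft fr x).im)]
  have hP4 : ∀ x, ‖Ft f x‖ ^ 4 ≤ 8 * (‖Ft fr x‖ ^ 4 + ‖Ft fi x‖ ^ 4) := by
    intro x
    have h3 : ‖Ft f x‖ ≤ ‖Ft fr x‖ + ‖Ft fi x‖ := by
      rw [hf x]
      refine (norm_add_le _ _).trans ?_
      rw [norm_mul, Complex.norm_I, one_mul]
    have h4 : (‖Ft fr x‖ + ‖Ft fi x‖) ^ 4 ≤ 8 * (‖Ft fr x‖ ^ 4 + ‖Ft fi x‖ ^ 4) := by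
      have a1 := add_pow_le (norm_nonneg (Ft fr x)) (norm_nonneg (Ft fi x)) 4
      norm_num at a1
      linarith
    exact (pow_le_pow_left₀ (norm_nonneg _) h3 4).trans h4
  have hof : ∀ z : ℂ, ‖z‖ₑ ^ 4 = ENNReal.ofReal (‖z‖ ^ 4) := by
    intro z
    rw [ENNReal.ofReal_pow (norm_nonneg _), ofReal_norm]
  simp_rw [hof]
  have J8 : Integrable (fun x => 8 * (‖Ft fr x‖ ^ 4 + ‖Ft fi x‖ ^ 4)) := (jr.add ji).const_mul 8
  have K16 : Integrable (fun x => 16 * ((Ft fr x).im ^ 4 + (Ft fi x).im ^ 4)) :=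
    (kr.add ki).const_mul 16
  calc ∫⁻ x, ENNReal.ofReal (‖Ft f x‖ ^ 4)
      ≤ ∫⁻ x, ENNReal.ofReal (8 * (‖Ft fr x‖ ^ 4 + ‖Ft fi x‖ ^ 4)) :=
        lintegral_mono fun x => ENNReal.ofReal_le_ofReal (hP4 x)
    _ = ENNReal.ofReal (∫ x, 8 * (‖Ft fr x‖ ^ 4 + ‖Ft fi x‖ ^ 4)) := by
        rw [ofReal_integral_eq_lintegral_ofReal J8 (Eventually.of_forall fun x => by positivity)]
    _ ≤ ENNReal.ofReal (70 * ∫ x, 16 * ((Ft fr x).im ^ 4 + (Ft fi x).im ^ 4)) := by
        apply ENNReal.ofReal_le_ofReal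
        rw [integral_const_mul, integral_const_mul, integral_add jr ji, integral_add kr ki]
        have p1 : 0 ≤ ∫ x, (Ft fr x).im ^ 4 := integral_nonneg fun x => by positivity
        have p2 : 0 ≤ ∫ x, (Ft fi x).im ^ 4 := integral_nonneg fun x => by positivity
        linarith
    _ = 70 * ∫⁻ x, ENNReal.ofReal (16 * ((Ft fr x).im ^ 4 + (Ft fi x).im ^ 4)) := by
        rw [ENNReal.ofReal_mul (by norm_num), ofReal_integral_eq_lintegral_ofReal
          K16 (Eventually.of_forall fun x => by positivity)]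
        simp
    _ ≤ _ := by
        gcongr with x
        exact hW4 x

end Pool.Agent.R244.PQ
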