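import Mathlib
import Pool.Agent.R244.PQ.G1
import Pool.Agent.R244.PQ.Rz
set_option autoImplicit false

/-! # Representation of the odd part by ridge functions -/

namespace Pool.Agent.R244.PQ

open MeasureTheory Set Complex Filter
open scoped ENNReal ComplexConjugate Topology

/-- the profile along the ray of direction `θ` in the variable `u = r²` -/
noncomputable def mth (f : ℝ × ℝ → ℂ) (θ u : ℝ) : ℂ :=
  if 0 < u then f (Real.sqrt u * Real.cos θ, Real.sqrt u * Real.sin θ) else 0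

lemma mth_meas {f : ℝ × ℝ → ℂ} (hf : Measurable f) : Measurable (fun w : ℝ × ℝ => mth f w.1 w.2) := by
  unfold mth
  refine Measurable.ite (measurableSet_lt measurable_const measurable_snd) (hf.comp ?_)
    measurable_const
  fun_prop

lemma nh_meas {f : ℝ × ℝ → ℂ} (hf : Measurable f) :
    Measurable (fun w : ℝ × ℝ => nh (mth f w.1) w.2) := by
  unfold nh
  have h1 : Measurable (fun w : (ℝ × ℝ) × ℝ => mth f w.1.1 w.2 *
      cexp (((Real.pi : ℂ) - 2 * Real.pi * w.1.2 * I) * w.2)) := by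
    refine Measurable.mul ?_ (by fun_prop)
    exact (mth_meas hf).comp ((measurable_fst.comp measurable_fst).prodMk measurable_snd)
  exact (h1.stronglyMeasurable.integral_prod_right (ν := volume)).measurable

lemma mth_zero {f : ℝ × ℝ → ℂ} {θ u : ℝ} (hu : u ≤ 0) : mth f θ u = 0 := by
  unfold mth
  rw [if_neg (not_lt.2 hu)]

lemma dot_polar (u θ : ℝ) (hu : 0 ≤ u) :
    dot (Real.sqrt u * Real.cos θ, Real.sqrt u * Real.sin θ)
      (Real.sqrt u * Real.cos θ, Real.sqrt u * Real.sin θ) = u := by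
  unfold dot
  simp only
  have h1 := Real.sq_sqrt hu
  have h2 := Real.cos_sq_add_sin_sq θ
  calc _ = Real.sqrt u ^ 2 * (Real.cos θ ^ 2 + Real.sin θ ^ 2) := by ring
    _ = u := by rw [h1, h2, mul_one]

lemma mth_supp {f : ℝ × ℝ → ℂ} {U : ℝ} (hU : ∀ ξ, U < dot ξ ξ → f ξ = 0) {θ u : ℝ} (hu : U < u) :
    mth f θ u = 0 := by
  unfold mth
  split_ifs with h
  · apply hU
    rw [dot_polar u θ h.le]
    exact hu
  · rfl

lemma mth_bd {f : ℝ × ℝ → ℂ} {B : ℝ} (hB : ∀ ξ, ‖f ξ‖ ≤ B) (θ u : ℝ) : ‖mth f θ u‖ ≤ B := by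
  unfold mth
  split_ifs
  · exact hB _
  · rw [norm_zero]; exact (norm_nonneg _).trans (hB 0)

lemma nh_triv {m : ℝ → ℂ} (hm : Measurable m) {U B : ℝ} (hU0 : 0 ≤ U)
    (h0 : ∀ u, u ≤ 0 → m u = 0) (hU : ∀ u, U < u → m u = 0) (hb : ∀ u, ‖m u‖ ≤ B) (y : ℝ) :
    ‖nh m y‖ ≤ B * Real.exp (Real.pi * U) * U := by
  have hV0 : 0 ≤ B := (norm_nonneg _).trans (hb 0)
  unfold nh
  refine (norm_integral_le_integral_norm _).trans ?_
  have h1 : ∀ u : ℝ, ‖m u * cexp (((Real.pi : ℂ) - 2 * Real.pi * y * I) * u)‖ ≤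
      indicator (Ioc (0 : ℝ) U) (fun _ => B * Real.exp (Real.pi * U)) u := by
    intro u
    rw [norm_mul, nh_norm_exp]
    by_cases hu : u ∈ Ioc (0 : ℝ) U
    · rw [indicator_of_mem hu]
      have hpi := Real.pi_pos
      gcongr
      · exact hb u
      · exact hu.2
    · rw [indicator_of_notMem hu]
      have : m u = 0 := by
        by_cases h2 : u ≤ 0
        · exact h0 u h2
        · apply hU
          by_contra h3
          exact hu ⟨not_le.1 h2, not_lt.1 h3⟩
      rw [this, norm_zero, zero_mul]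
  calc ∫ u : ℝ, ‖m u * cexp (((Real.pi : ℂ) - 2 * Real.pi * y * I) * u)‖
      ≤ ∫ u, indicator (Ioc (0 : ℝ) U) (fun _ => B * Real.exp (Real.pi * U)) u := by
        apply integral_mono (nh_int hm h0 hU hb y).norm _ h1
        rw [integrable_indicator_iff measurableSet_Ioc]
        exact integrableOn_const measure_Ioc_lt_top.ne
    _ = _ := by
        rw [integral_indicator measurableSet_Ioc, setIntegral_const]
        simp [Measure.real, hU0]
        ring

/-- the radial integral -/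
lemma radial {f : ℝ × ℝ → ℂ} (hf : Measurable f) {U B : ℝ} (hB : ∀ ξ, ‖f ξ‖ ≤ B)
    (hU : ∀ ξ, U < dot ξ ξ → f ξ = 0) (θ t : ℝ) (x : ℝ × ℝ) :
    ∫ r in Ioi (0 : ℝ), r • ((f (r * Real.cos θ, r * Real.sin θ) *
      e (t * dot (r * Real.cos θ, r * Real.sin θ) (r * Real.cos θ, r * Real.sin θ))) *
      (e (dot x (r * Real.cos θ, r * Real.sin θ)) - e (-(dot x (r * Real.cos θ, r * Real.sin θ))))) =
    ∫ τ, κ τ * (nh (mth f θ) (τ - t) * ψ τ θ x) := by
  have hmm : Measurable (mth f θ) := (mth_meas hf).comp (measurable_const.prodMk measurable_id)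
  have hn : Integrable (fun u => mth f θ u * Real.exp (Real.pi * u)) := by
    have := nh_int hmm (U := U) (V := B) (fun u hu => mth_zero hu) (fun u hu => mth_supp hU hu)
      (mth_bd hB θ) 0
    refine this.congr (Eventually.of_forall fun u => ?_)
    simp only
    congr 1
    rw [Complex.ofReal_exp]
    congr 1
    push_cast
    ring
  have h1 := pars hn (ss θ x) t
  have h2 : ∫ u, mth f θ u * Real.exp (Real.pi * u) * Bs (ss θ x) u * e (t * u) =
      ∫ u in Ioi (0 : ℝ), mth f θ u * (e (ss θ x * Real.sqrt u) - e (-(ss θ x * Real.sqrt u))) *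
        e (t * u) := by
    rw [← integral_indicator measurableSet_Ioi]
    congr 1
    ext u
    by_cases hu : 0 < u
    · rw [indicator_of_mem (show u ∈ Ioi (0 : ℝ) from hu)]
      unfold Bs
      have : (Real.exp (Real.pi * u) : ℂ) * (Real.exp (-Real.pi * u) : ℂ) = 1 := by
        rw [← Complex.ofReal_mul, ← Real.exp_add]
        simp
      linear_combination (mth f θ u * (e (ss θ x * Real.sqrt u) - e (-(ss θ x * Real.sqrt u))) *
        e (t * u)) * this
    · rw [indicator_of_notMem (show u ∉ Ioi (0 : ℝ) from hu), mth_zero (not_lt.1 hu)]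
      ring
  rw [h2, ← integral_comp_rpow_Ioi (fun u => mth f θ u * (e (ss θ x * Real.sqrt u) -
    e (-(ss θ x * Real.sqrt u))) * e (t * u)) (p := 2) (by norm_num)] at h1
  have h3 : ∀ r ∈ Ioi (0 : ℝ), (|2| * r ^ ((2 : ℝ) - 1)) • (mth f θ (r ^ (2 : ℝ)) *
      (e (ss θ x * Real.sqrt (r ^ (2 : ℝ))) - e (-(ss θ x * Real.sqrt (r ^ (2 : ℝ))))) *
      e (t * r ^ (2 : ℝ))) = 2 * (r • ((f (r * Real.cos θ, r * Real.sin θ) *
      e (t * dot (r * Real.cos θ, r * Real.sin θ) (r * Real.cos θ, r * Real.sin θ))) *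
      (e (dot x (r * Real.cos θ, r * Real.sin θ)) -
        e (-(dot x (r * Real.cos θ, r * Real.sin θ)))))) := by
    intro r hr
    have hr0 : 0 < r := hr
    have e1 : r ^ (2 : ℝ) = r ^ 2 := by
      rw [← Real.rpow_natCast]; norm_num
    have e2 : r ^ ((2 : ℝ) - 1) = r := by norm_num
    have e3 : dot x (r * Real.cos θ, r * Real.sin θ) = ss θ x * r := by
      unfold dot ss
      simp only
      ring
    have e4 : dot (r * Real.cos θ, r * Real.sin θ) (r * Real.cos θ, r * Real.sin θ) = r ^ 2 := by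
      have := dot_polar (r ^ 2) θ (by positivity)
      rwa [Real.sqrt_sq hr0.le] at this
    have e5 : mth f θ (r ^ 2) = f (r * Real.cos θ, r * Real.sin θ) := by
      unfold mth
      rw [if_pos (by positivity), Real.sqrt_sq hr0.le]
    rw [e1, e2, e3, e4, e5, Real.sqrt_sq hr0.le, abs_two, Complex.real_smul, Complex.real_smul]
    push_cast
    ring
  rw [setIntegral_congr_fun measurableSet_Ioi h3, integral_const_mul] at h1
  have h4 : ∫ τ, β (ss θ x) τ * ∫ u, mth f θ u * Real.exp (Real.pi * u) * e (-((τ - t) * u)) =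
      2 * ∫ τ, κ τ * (nh (mth f θ) (τ - t) * ψ τ θ x) := by
    rw [← integral_const_mul]
    congr 1
    ext τ
    have e1 : ∫ u, mth f θ u * Real.exp (Real.pi * u) * e (-((τ - t) * u)) =
        nh (mth f θ) (τ - t) := by
      unfold nh
      congr 1
      ext u
      rw [mul_assoc]
      congr 1
      unfold e
      rw [Complex.ofReal_exp, ← Complex.exp_add]
      congr 1
      push_cast
      ring
    rw [e1]
    unfold β ψ
    ring
  rw [h4] at h1
  exact mul_left_cancel₀ two_ne_zero h1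

/-- the modulated density -/
noncomputable def md (f : ℝ × ℝ → ℂ) (t : ℝ) (ξ : ℝ × ℝ) : ℂ := f ξ * e (t * dot ξ ξ)

lemma sq_le_dot (ξ : ℝ × ℝ) : ξ.1 ^ 2 ≤ dot ξ ξ ∧ ξ.2 ^ 2 ≤ dot ξ ξ := by
  unfold dot
  constructor <;> nlinarith [sq_nonneg ξ.1, sq_nonneg ξ.2]

lemma f_int {f : ℝ × ℝ → ℂ} (hf : Measurable f) {U B : ℝ} (hB : ∀ ξ, ‖f ξ‖ ≤ B)
    (hU : ∀ ξ, U < dot ξ ξ → f ξ = 0) : Integrable f := by
  have hB0 : 0 ≤ B := (norm_nonneg _).trans (hB 0)
  set R := Real.sqrt U with hR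
  have h1 : Integrable ((Icc (-R) R ×ˢ Icc (-R) R : Set (ℝ × ℝ)).indicator fun _ => B) := by
    rw [integrable_indicator_iff (measurableSet_Icc.prod measurableSet_Icc)]
    have hne : (volume : Measure (ℝ × ℝ)) (Icc (-R) R ×ˢ Icc (-R) R) ≠ ∞ := by
      rw [Measure.volume_eq_prod, Measure.prod_prod]
      exact (ENNReal.mul_lt_top measure_Icc_lt_top measure_Icc_lt_top).ne
    exact integrableOn_const hne
  refine h1.mono' hf.aestronglyMeasurable (Eventually.of_forall fun ξ => ?_)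
  by_cases hξ : dot ξ ξ ≤ U
  · have hs := sq_le_dot ξ
    rw [indicator_of_mem]
    · exact hB ξ
    · refine ⟨?_, ?_⟩
      · exact abs_le.1 (Real.abs_le_sqrt (hs.1.trans hξ))
      · exact abs_le.1 (Real.abs_le_sqrt (hs.2.trans hξ))
  · rw [hU ξ (not_le.1 hξ), norm_zero]
    exact indicator_nonneg (fun _ _ => hB0) _

lemma md_meas {f : ℝ × ℝ → ℂ} (hf : Measurable f) (t : ℝ) : Measurable (md f t) := by
  unfold md
  have h1 : Continuous (fun ξ : ℝ × ℝ => e (t * dot ξ ξ)) := by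
    have := e_cont
    have := dot_cont
    fun_prop
  exact hf.mul h1.measurable

lemma md_norm (f : ℝ × ℝ → ℂ) (t : ℝ) (ξ : ℝ × ℝ) : ‖md f t ξ‖ = ‖f ξ‖ := by
  unfold md
  rw [norm_mul, e_norm, mul_one]

lemma ψ_le (t θ : ℝ) (x : ℝ × ℝ) : ‖ψ t θ x‖ ≤ |x.1| + |x.2| := by
  rw [ψ_norm]
  have h1 : Real.exp (-(Real.pi / LL t) * ss θ x ^ 2) ≤ 1 := by
    rw [Real.exp_le_one_iff]
    have : 0 ≤ Real.pi / LL t * ss θ x ^ 2 := by
      have := Real.pi_pos
      have := LL_pos t
      positivity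
    linarith
  have h2 : |ss θ x| ≤ |x.1| + |x.2| := by
    unfold ss
    refine (abs_add_le _ _).trans ?_
    rw [abs_mul, abs_mul]
    have := Real.abs_cos_le_one θ
    have := Real.abs_sin_le_one θ
    have := abs_nonneg x.1
    have := abs_nonneg x.2
    nlinarith
  calc |ss θ x| * Real.exp (-(Real.pi / LL t) * ss θ x ^ 2) ≤ |ss θ x| * 1 := by gcongr
    _ ≤ _ := by rw [mul_one]; exact h2

lemma κ_le (τ : ℝ) : ‖κ τ‖ ≤ (1 + ‖τ‖ ^ 2) ^ (-(3 / 2 : ℝ) / 2) := by
  rw [κ_norm, show (-(3 / 2 : ℝ) / 2) = -(3 / 4 : ℝ) by norm_num]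
  apply Real.rpow_le_rpow_of_nonpos (by positivity) _ (by norm_num)
  unfold LL
  rw [Real.norm_eq_abs, sq_abs]
  nlinarith [sq_nonneg τ]

/-- the representation -/
lemma rep {f : ℝ × ℝ → ℂ} (hf : Measurable f) {U B a : ℝ} (hU0 : 0 ≤ U) (hB : ∀ ξ, ‖f ξ‖ ≤ B)
    (hU : ∀ ξ, U < dot ξ ξ → f ξ = 0) (ha : -Real.pi ≤ a) (ha' : a + Real.pi / 4 ≤ Real.pi)
    (hs : ∀ θ ∈ Ioo (-Real.pi) Real.pi, θ ∉ Icc a (a + Real.pi / 4) →
      ∀ r : ℝ, 0 < r → f (r * Real.cos θ, r * Real.sin θ) = 0) (t : ℝ) (x : ℝ × ℝ) :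
    Ft (md f t) x - Ft (md f t) (-x) =
      ∫ τ, κ τ * ∫ θ in Icc a (a + Real.pi / 4), nh (mth f θ) (τ - t) * ψ τ θ x := by
  have hB0 : 0 ≤ B := (norm_nonneg _).trans (hB 0)
  have hpi := Real.pi_pos
  have hki : Integrable (md f t) :=
    (f_int hf hB hU).mono (md_meas hf t).aestronglyMeasurable
      (Eventually.of_forall fun ξ => (md_norm f t ξ).le)
  set H : ℝ × ℝ → ℂ := fun ξ => md f t ξ * (e (dot x ξ) - e (-(dot x ξ))) with hH
  have hHm : Measurable H := by
    have h1 : Continuous (fun ξ : ℝ × ℝ => e (dot x ξ) - e (-(dot x ξ))) := by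
      have := e_cont
      have := dot_cont
      fun_prop
    exact (md_meas hf t).mul h1.measurable
  have hHb : ∀ ξ, ‖H ξ‖ ≤ 2 * B := by
    intro ξ
    rw [hH]
    simp only
    rw [norm_mul, md_norm, mul_comm]
    have : ‖e (dot x ξ) - e (-(dot x ξ))‖ ≤ 2 := by
      refine (norm_sub_le _ _).trans ?_
      rw [e_norm, e_norm]; norm_num
    have := hB ξ
    gcongr
  have e0 : Ft (md f t) x - Ft (md f t) (-x) = ∫ ξ, H ξ := by
    unfold Ft
    rw [← integral_sub (Ft_int hki x) (Ft_int hki (-x))]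
    congr 1
    ext ξ
    rw [hH, show dot (-x) ξ = -(dot x ξ) by rw [dot_comm, dot_neg, dot_comm]]
    ring
  rw [e0, ← integral_comp_polarCoord_symm H]
  have htar : polarCoord.target = Ioi (0 : ℝ) ×ˢ Ioo (-Real.pi) Real.pi := rfl
  -- integrability in polar coordinates
  set Fp : ℝ × ℝ → ℂ := fun p => p.1 • H (polarCoord.symm p) with hFp
  have hsymm : ∀ p : ℝ × ℝ, polarCoord.symm p = (p.1 * Real.cos p.2, p.1 * Real.sin p.2) :=
    fun p => polarCoord_symm_apply p
  have hFpm : Measurable Fp := by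
    have h1 : Fp = fun p : ℝ × ℝ => p.1 • H (p.1 * Real.cos p.2, p.1 * Real.sin p.2) := by
      ext p
      rw [hFp]
      simp only [hsymm]
    rw [h1]
    exact measurable_fst.smul (hHm.comp (by fun_prop))
  have hFz : ∀ p : ℝ × ℝ, p ∈ Ioi (0 : ℝ) ×ˢ Ioo (-Real.pi) Real.pi → ¬ p.1 ≤ Real.sqrt U →
      Fp p = 0 := by
    intro p hp hp1
    rw [hFp]
    simp only
    have : md f t (polarCoord.symm p) = 0 := by
      unfold md
      rw [hU, zero_mul]
      rw [hsymm]
      have h1 : (0 : ℝ) < p.1 := hp.1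
      have := dot_polar (p.1 ^ 2) p.2 (by positivity)
      rw [Real.sqrt_sq h1.le] at this
      rw [this]
      push Not at hp1
      exact (Real.sqrt_lt' h1).1 hp1
    rw [hH]
    simp only
    rw [this, zero_mul, smul_zero]
  have hFint : IntegrableOn Fp (Ioi (0 : ℝ) ×ˢ Ioo (-Real.pi) Real.pi) := by
    have h1 : IntegrableOn (fun _ => Real.sqrt U * (2 * B))
        (Ioc (0 : ℝ) (Real.sqrt U) ×ˢ Ioo (-Real.pi) Real.pi : Set (ℝ × ℝ)) := by
      have hne : (volume : Measure (ℝ × ℝ))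
          (Ioc (0 : ℝ) (Real.sqrt U) ×ˢ Ioo (-Real.pi) Real.pi) ≠ ∞ := by
        rw [Measure.volume_eq_prod, Measure.prod_prod]
        exact (ENNReal.mul_lt_top measure_Ioc_lt_top measure_Ioo_lt_top).ne
      exact integrableOn_const hne
    rw [← integrable_indicator_iff (measurableSet_Ioi.prod measurableSet_Ioo)]
    rw [← integrable_indicator_iff (measurableSet_Ioc.prod measurableSet_Ioo)] at h1
    refine h1.mono' (hFpm.indicator (measurableSet_Ioi.prod measurableSet_Ioo)).aestronglyMeasurable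
      (Eventually.of_forall fun p => ?_)
    by_cases hp : p ∈ Ioi (0 : ℝ) ×ˢ Ioo (-Real.pi) Real.pi
    · rw [indicator_of_mem hp]
      by_cases hp1 : p.1 ≤ Real.sqrt U
      · rw [indicator_of_mem (show p ∈ (Ioc (0 : ℝ) (Real.sqrt U) ×ˢ Ioo (-Real.pi) Real.pi : Set (ℝ × ℝ))
          from ⟨⟨hp.1, hp1⟩, hp.2⟩)]
        rw [hFp]
        simp only
        rw [norm_smul, Real.norm_of_nonneg (le_of_lt hp.1)]
        gcongr
        exact hHb _
      · rw [hFz p hp hp1, norm_zero]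
        exact indicator_nonneg (fun _ _ => by positivity) _
    · rw [indicator_of_notMem hp, norm_zero]
      exact indicator_nonneg (fun _ _ => by positivity) _
  have e1 : ∫ p in polarCoord.target, p.1 • H (polarCoord.symm p) =
      ∫ θ in Ioo (-Real.pi) Real.pi, ∫ r in Ioi (0 : ℝ), Fp (r, θ) := by
    rw [htar]
    rw [Measure.volume_eq_prod] at hFint ⊢
    unfold IntegrableOn at hFint
    rw [← Measure.prod_restrict] at hFint ⊢
    exact integral_prod_symm _ hFint
  rw [e1]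
  have e2 : ∀ θ, ∫ r in Ioi (0 : ℝ), Fp (r, θ) = ∫ τ, κ τ * (nh (mth f θ) (τ - t) * ψ τ θ x) := by
    intro θ
    rw [← radial hf hB hU θ t x]
    congr 1
  simp_rw [e2]
  -- restrict to the arc
  have e3 : ∀ θ ∈ Ioo (-Real.pi) Real.pi, θ ∉ Icc a (a + Real.pi / 4) →
      ∫ τ, κ τ * (nh (mth f θ) (τ - t) * ψ τ θ x) = 0 := by
    intro θ h1 h2
    have h3 : mth f θ = fun _ => 0 := by
      ext u
      unfold mth
      split_ifs with hu
      · exact hs θ h1 h2 _ (Real.sqrt_pos.2 hu)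
      · rfl
    rw [h3]
    unfold nh
    simp
  have e4 : ∫ θ in Ioo (-Real.pi) Real.pi, ∫ τ, κ τ * (nh (mth f θ) (τ - t) * ψ τ θ x) =
      ∫ θ in Icc a (a + Real.pi / 4), ∫ τ, κ τ * (nh (mth f θ) (τ - t) * ψ τ θ x) := by
    rw [← integral_indicator measurableSet_Ioo, ← integral_indicator measurableSet_Icc]
    apply integral_congr_ae
    have h1 : ∀ᵐ θ : ℝ, θ ≠ -Real.pi := by simp [ae_iff]
    have h2 : ∀ᵐ θ : ℝ, θ ≠ Real.pi := by simp [ae_iff]
    filter_upwards [h1, h2] with θ h3 h4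
    by_cases hθ : θ ∈ Icc a (a + Real.pi / 4)
    · rw [indicator_of_mem hθ, indicator_of_mem]
      exact ⟨lt_of_le_of_ne (ha.trans hθ.1) (Ne.symm h3), lt_of_le_of_ne (hθ.2.trans ha') h4⟩
    · rw [indicator_of_notMem hθ]
      by_cases hθ' : θ ∈ Ioo (-Real.pi) Real.pi
      · rw [indicator_of_mem hθ', e3 θ hθ' hθ]
      · rw [indicator_of_notMem hθ']
  rw [e4]
  -- exchange
  have hsw : Integrable (Function.uncurry fun θ τ => κ τ * (nh (mth f θ) (τ - t) * ψ τ θ x))
      ((volume.restrict (Icc a (a + Real.pi / 4))).prod volume) := by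
    set C := B * Real.exp (Real.pi * U) * U * (|x.1| + |x.2|) with hC
    have h1 : Integrable (fun w : ℝ × ℝ => C * (1 + ‖w.2‖ ^ 2) ^ (-(3 / 2 : ℝ) / 2))
        ((volume.restrict (Icc a (a + Real.pi / 4))).prod volume) := by
      have h2 : Integrable (fun _ : ℝ => C) (volume.restrict (Icc a (a + Real.pi / 4))) :=
        integrable_const _
      exact h2.mul_prod dec_int
    refine h1.mono' ?_ (Eventually.of_forall fun w => ?_)
    · apply Measurable.aestronglyMeasurable
      have m1 : Measurable (fun w : ℝ × ℝ => nh (mth f w.1) (w.2 - t)) :=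
        (nh_meas hf).comp (measurable_fst.prodMk (measurable_snd.sub_const t))
      have m2 : Measurable (fun w : ℝ × ℝ => ψ w.2 w.1 x) := by
        unfold ψ ss
        have := wz_cont.measurable
        fun_prop
      exact (κ_meas.comp measurable_snd).mul (m1.mul m2)
    · simp only [Function.uncurry]
      rw [norm_mul, norm_mul]
      have b1 := κ_le w.2
      have b2 := nh_triv (m := mth f w.1) ((mth_meas hf).comp
        (measurable_const.prodMk measurable_id)) hU0 (fun u hu => mth_zero hu)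
        (fun u hu => mth_supp hU hu) (mth_bd hB w.1) (w.2 - t)
      have b3 := ψ_le w.2 w.1 x
      calc ‖κ w.2‖ * (‖nh (mth f w.1) (w.2 - t)‖ * ‖ψ w.2 w.1 x‖)
          ≤ (1 + ‖w.2‖ ^ 2) ^ (-(3 / 2 : ℝ) / 2) * ((B * Real.exp (Real.pi * U) * U) *
            (|x.1| + |x.2|)) := by
            gcongr
        _ = _ := by rw [hC]; ring
  rw [integral_integral_swap hsw]
  congr 1
  ext τ
  rw [integral_const_mul]

end Pool.Agent.R244.PQ
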