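import Mathlib
import Pool.Agent.R244.PQ.Rep
import Pool.Agent.R244.PQ.Fix
set_option autoImplicit false

/-! # The fixed time `L⁴` estimate for a sector -/

namespace Pool.Agent.R244.PQ

open MeasureTheory Set Complex Filter
open scoped ENNReal ComplexConjugate Topology

lemma jensen1 {b ω : ℝ → ℝ≥0∞} (hb : Measurable b) (hω : Measurable ω) (h0 : ∀ τ, ω τ ≠ 0)
    (h1 : ∀ τ, ω τ ≠ ∞) : (∫⁻ τ, b τ) ^ 4 ≤ (∫⁻ τ, ω τ) ^ 3 * ∫⁻ τ, (ω τ)⁻¹ ^ 3 * b τ ^ 4 := by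
  have hpq : (4 / 3 : ℝ).HolderConjugate 4 := by
    rw [Real.holderConjugate_iff]
    norm_num
  have h2 := ENNReal.lintegral_mul_le_Lp_mul_Lq volume hpq
    (f := fun τ => ω τ ^ (3 / 4 : ℝ)) (g := fun τ => (ω τ)⁻¹ ^ (3 / 4 : ℝ) * b τ)
    (hω.pow_const _).aemeasurable ((hω.inv.pow_const _).mul hb).aemeasurable
  have e1 : ∫⁻ τ, ((fun τ => ω τ ^ (3 / 4 : ℝ)) * fun τ => (ω τ)⁻¹ ^ (3 / 4 : ℝ) * b τ) τ =
      ∫⁻ τ, b τ := by
    refine lintegral_congr fun τ => ?_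
    simp only [Pi.mul_apply]
    rw [← mul_assoc, ← ENNReal.mul_rpow_of_nonneg _ _ (by norm_num), ENNReal.mul_inv_cancel (h0 τ)
      (h1 τ), ENNReal.one_rpow, one_mul]
  have e2 : ∀ τ, (ω τ ^ (3 / 4 : ℝ)) ^ (4 / 3 : ℝ) = ω τ := by
    intro τ
    rw [← ENNReal.rpow_mul]
    norm_num
  have e3 : ∀ τ, ((ω τ)⁻¹ ^ (3 / 4 : ℝ) * b τ) ^ (4 : ℝ) = (ω τ)⁻¹ ^ 3 * b τ ^ 4 := by
    intro τ
    rw [ENNReal.mul_rpow_of_nonneg _ _ (by norm_num), ← ENNReal.rpow_mul]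
    norm_num
  rw [e1] at h2
  simp only [e2, e3] at h2
  have h3 := ENNReal.rpow_le_rpow h2 (show (0 : ℝ) ≤ 4 by norm_num)
  rw [ENNReal.mul_rpow_of_nonneg _ _ (by norm_num), ← ENNReal.rpow_mul, ← ENNReal.rpow_mul] at h3
  norm_num at h3
  exact h3

lemma jensen4 {X : Type*} [MeasurableSpace X] (ν : Measure X) [SFinite ν] {b : ℝ → X → ℝ≥0∞}
    (hb : Measurable (Function.uncurry b)) {ω : ℝ → ℝ≥0∞} (hω : Measurable ω) (h0 : ∀ τ, ω τ ≠ 0)
    (h1 : ∀ τ, ω τ ≠ ∞) {D : ℝ≥0∞} (hD : ∀ τ, ∫⁻ x, b τ x ^ 4 ∂ν ≤ D * ω τ ^ 4) :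
    ∫⁻ x, (∫⁻ τ, b τ x) ^ 4 ∂ν ≤ D * (∫⁻ τ, ω τ) ^ 4 := by
  calc ∫⁻ x, (∫⁻ τ, b τ x) ^ 4 ∂ν
      ≤ ∫⁻ x, (∫⁻ τ, ω τ) ^ 3 * (∫⁻ τ, (ω τ)⁻¹ ^ 3 * b τ x ^ 4) ∂ν := by
        refine lintegral_mono fun x => ?_
        exact jensen1 (hb.comp (measurable_id.prodMk measurable_const)) hω h0 h1
    _ = (∫⁻ τ, ω τ) ^ 3 * ∫⁻ x, (∫⁻ τ, (ω τ)⁻¹ ^ 3 * b τ x ^ 4) ∂ν := by
        rw [lintegral_const_mul]
        have : Measurable (fun w : X × ℝ => (ω w.2)⁻¹ ^ 3 * b w.2 w.1 ^ 4) :=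
          ((hω.inv.comp measurable_snd).pow_const 3).mul ((hb.comp measurable_swap).pow_const 4)
        exact this.lintegral_prod_right'
    _ = (∫⁻ τ, ω τ) ^ 3 * ∫⁻ τ, ∫⁻ x, (ω τ)⁻¹ ^ 3 * b τ x ^ 4 ∂ν := by
        congr 1
        rw [lintegral_lintegral_swap]
        have : Measurable (fun w : X × ℝ => (ω w.2)⁻¹ ^ 3 * b w.2 w.1 ^ 4) :=
          ((hω.inv.comp measurable_snd).pow_const 3).mul ((hb.comp measurable_swap).pow_const 4)
        exact this.aemeasurable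
    _ ≤ (∫⁻ τ, ω τ) ^ 3 * ∫⁻ τ, D * ω τ := by
        gcongr with τ
        rw [lintegral_const_mul]
        · calc (ω τ)⁻¹ ^ 3 * ∫⁻ x, b τ x ^ 4 ∂ν ≤ (ω τ)⁻¹ ^ 3 * (D * ω τ ^ 4) := by
                gcongr
                exact hD τ
            _ = D * ω τ * ((ω τ)⁻¹ * ω τ) ^ 3 := by ring
            _ = D * ω τ := by
                rw [ENNReal.inv_mul_cancel (h0 τ) (h1 τ), one_pow, mul_one]
        · exact (hb.comp (measurable_const.prodMk measurable_id)).pow_const 4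
    _ = _ := by
        rw [lintegral_const_mul _ hω]
        ring

/-- the weight -/
noncomputable def om (γ t τ : ℝ) : ℝ := (1 + |τ - t|)⁻¹ * (1 + |τ|) ^ (-γ)

lemma om_pos (γ t τ : ℝ) : 0 < om γ t τ := by
  unfold om
  positivity

lemma om_pt {γ β t τ : ℝ} (hβ : 0 ≤ β) (hβγ : β ≤ γ) (hγ : γ ≤ 1) :
    om γ t τ ≤ 2 * (1 + |t|) ^ (-β) * ((1 + |τ - t|) ^ (-(1 + (γ - β))) +
      (1 + |τ|) ^ (-(1 + (γ - β)))) := by
  unfold om
  obtain ⟨A, hA⟩ : ∃ A, A = 1 + |τ - t| := ⟨_, rfl⟩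
  obtain ⟨B, hB⟩ : ∃ B, B = 1 + |τ| := ⟨_, rfl⟩
  obtain ⟨T, hT⟩ : ∃ T, T = 1 + |t| := ⟨_, rfl⟩
  have hA1 : 1 ≤ A := by rw [hA]; linarith [abs_nonneg (τ - t)]
  have hB1 : 1 ≤ B := by rw [hB]; linarith [abs_nonneg τ]
  have hT1 : 1 ≤ T := by rw [hT]; linarith [abs_nonneg t]
  have hTAB : T ≤ A + B := by
    rw [hA, hB, hT]
    have : |t| ≤ |τ - t| + |τ| := by
      calc |t| = |τ - (τ - t)| := by ring_nf
        _ ≤ |τ| + |τ - t| := abs_sub _ _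
        _ = _ := add_comm _ _
    linarith
  rw [← hA, ← hB, ← hT]
  have hA0 : 0 < A := by linarith
  have hB0 : 0 < B := by linarith
  have hT0 : 0 < T := by linarith
  have hT2 : (T / 2) ^ (-β) ≤ 2 * T ^ (-β) := by
    rw [Real.div_rpow hT0.le (by norm_num), Real.rpow_neg (by norm_num : (0 : ℝ) ≤ 2), div_inv_eq_mul,
      mul_comm]
    gcongr
    calc (2 : ℝ) ^ β ≤ 2 ^ (1 : ℝ) := Real.rpow_le_rpow_of_exponent_le (by norm_num) (by linarith)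
      _ = 2 := Real.rpow_one _
  have hAinv : A⁻¹ = A ^ (-1 : ℝ) := by rw [Real.rpow_neg_one]
  rw [hAinv]
  rcases le_total B A with h | h
  · have h1 : T / 2 ≤ A := by linarith
    calc A ^ (-1 : ℝ) * B ^ (-γ) = A ^ (-β) * A ^ (-(1 - β)) * B ^ (-γ) := by
          rw [← Real.rpow_add hA0]
          congr 2
          ring
      _ ≤ (T / 2) ^ (-β) * B ^ (-(1 - β)) * B ^ (-γ) := by
          have g1 := Real.rpow_le_rpow_of_nonpos (by positivity : (0 : ℝ) < T / 2) h1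
            (show -β ≤ 0 by linarith)
          have g2 := Real.rpow_le_rpow_of_nonpos hB0 h (show -(1 - β) ≤ 0 by linarith)
          gcongr
      _ = (T / 2) ^ (-β) * B ^ (-(1 + (γ - β))) := by
          rw [mul_assoc, ← Real.rpow_add hB0]
          congr 2
          ring
      _ ≤ 2 * T ^ (-β) * (A ^ (-(1 + (γ - β))) + B ^ (-(1 + (γ - β)))) := by
          gcongr
          have : 0 ≤ A ^ (-(1 + (γ - β))) := by positivity
          linarith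
  · have h1 : T / 2 ≤ B := by linarith
    calc A ^ (-1 : ℝ) * B ^ (-γ) = A ^ (-1 : ℝ) * (B ^ (-β) * B ^ (-(γ - β))) := by
          rw [← Real.rpow_add hB0]
          congr 2
          ring
      _ ≤ A ^ (-1 : ℝ) * ((T / 2) ^ (-β) * A ^ (-(γ - β))) := by
          have g1 := Real.rpow_le_rpow_of_nonpos (by positivity : (0 : ℝ) < T / 2) h1
            (show -β ≤ 0 by linarith)
          have g2 := Real.rpow_le_rpow_of_nonpos hA0 h (show -(γ - β) ≤ 0 by linarith)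
          gcongr
      _ = (T / 2) ^ (-β) * A ^ (-(1 + (γ - β))) := by
          rw [mul_left_comm, ← Real.rpow_add hA0]
          congr 2
          ring
      _ ≤ 2 * T ^ (-β) * (A ^ (-(1 + (γ - β))) + B ^ (-(1 + (γ - β)))) := by
          gcongr
          have : 0 ≤ B ^ (-(1 + (γ - β))) := by positivity
          linarith

lemma om_meas (γ t : ℝ) : Measurable (om γ t) := by
  unfold om
  fun_prop

lemma om_lint {γ β : ℝ} (hβ : 0 ≤ β) (hβγ : β < γ) (hγ : γ ≤ 1) : ∃ C : ℝ≥0∞, C ≠ ∞ ∧ ∀ t : ℝ,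
    ∫⁻ τ, ENNReal.ofReal (om γ t τ) ≤ C * ENNReal.ofReal ((1 + |t|) ^ (-β)) := by
  set κ' := γ - β with hκ
  have hint : Integrable (fun τ : ℝ => (1 + ‖τ‖) ^ (-(1 + κ'))) :=
    integrable_one_add_norm (by simp; linarith)
  set I0 := ∫⁻ τ : ℝ, ENNReal.ofReal ((1 + |τ|) ^ (-(1 + κ'))) with hI0
  have hI : I0 < ∞ := hint.lintegral_lt_top
  refine ⟨2 * (I0 + I0), (ENNReal.mul_lt_top (by norm_num) (ENNReal.add_lt_top.2 ⟨hI, hI⟩)).ne,
    fun t => ?_⟩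
  have hm : Measurable (fun τ : ℝ => ENNReal.ofReal ((1 + |τ|) ^ (-(1 + κ')))) := by fun_prop
  calc ∫⁻ τ, ENNReal.ofReal (om γ t τ)
      ≤ ∫⁻ τ, ENNReal.ofReal (2 * (1 + |t|) ^ (-β)) * (ENNReal.ofReal ((1 + |τ - t|) ^ (-(1 + κ'))) +
        ENNReal.ofReal ((1 + |τ|) ^ (-(1 + κ')))) := by
        refine lintegral_mono fun τ => ?_
        rw [← ENNReal.ofReal_add (by positivity) (by positivity), ← ENNReal.ofReal_mul (by positivity)]
        exact ENNReal.ofReal_le_ofReal (om_pt hβ hβγ.le hγ)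
    _ = ENNReal.ofReal (2 * (1 + |t|) ^ (-β)) * (I0 + I0) := by
        have hm1 : Measurable (fun τ : ℝ => ENNReal.ofReal ((1 + |τ - t|) ^ (-(1 + κ')))) := by
          fun_prop
        have hm2 : Measurable (fun τ : ℝ => ENNReal.ofReal ((1 + |τ - t|) ^ (-(1 + κ'))) +
            ENNReal.ofReal ((1 + |τ|) ^ (-(1 + κ')))) := hm1.add hm
        rw [lintegral_const_mul _ hm2, lintegral_add_right _ hm]
        congr 2
        exact lintegral_sub_right_eq_self (fun τ : ℝ => ENNReal.ofReal ((1 + |τ|) ^ (-(1 + κ')))) t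
    _ = _ := by
        rw [ENNReal.ofReal_mul (by norm_num)]
        simp
        ring

lemma LL_rpow_le {α : ℝ} (hα : 0 ≤ α) (hα1 : α ≤ 1) (τ : ℝ) :
    (LL τ) ^ (-α) ≤ 2 * (1 + |τ|) ^ (-(2 * α)) := by
  have h1 : (1 + |τ|) ^ 2 / 2 ≤ LL τ := by
    unfold LL
    have := sq_abs τ
    nlinarith [sq_nonneg (1 - |τ|), sq_nonneg τ]
  calc (LL τ) ^ (-α) ≤ ((1 + |τ|) ^ 2 / 2) ^ (-α) :=
        Real.rpow_le_rpow_of_nonpos (by positivity) h1 (by linarith)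
    _ = ((1 + |τ|) ^ 2) ^ (-α) * 2 ^ α := by
        rw [Real.div_rpow (by positivity) (by norm_num), Real.rpow_neg (by norm_num : (0 : ℝ) ≤ 2),
          div_inv_eq_mul]
    _ ≤ ((1 + |τ|) ^ 2) ^ (-α) * 2 := by
        gcongr
        calc (2 : ℝ) ^ α ≤ 2 ^ (1 : ℝ) :=
              Real.rpow_le_rpow_of_exponent_le (by norm_num) hα1
          _ = 2 := Real.rpow_one _
    _ = _ := by
        rw [← Real.rpow_natCast, ← Real.rpow_mul (by positivity), mul_comm]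
        congr 2
        push_cast
        ring

lemma mth_var {f : ℝ × ℝ → ℂ} {θ : ℝ} {V : ℝ≥0∞}
    (h : eVariationOn (fun r : ℝ => f (r * Real.cos θ, r * Real.sin θ)) (Ioi 0) ≤ V) :
    eVariationOn (mth f θ) (Ioi 0) ≤ V := by
  have h1 : eVariationOn (mth f θ) (Ioi 0) =
      eVariationOn ((fun r : ℝ => f (r * Real.cos θ, r * Real.sin θ)) ∘ Real.sqrt) (Ioi 0) := by
    apply eVariationOn.eq_of_eqOn
    intro u hu
    unfold mth
    have hu' : 0 < u := hu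
    simp only [Function.comp_apply, if_pos hu']
  rw [h1]
  refine (eVariationOn.comp_le_of_monotoneOn _ Real.sqrt ?_ ?_).trans h
  · exact fun x _ y _ hxy => Real.sqrt_le_sqrt hxy
  · intro u hu
    exact Real.sqrt_pos.2 hu

lemma l2_bdd {f : ℝ × ℝ → ℂ} (h1 : Integrable f) {B : ℝ} (hB : ∀ ξ, ‖f ξ‖ ≤ B) : MemLp f 2 := by
  rw [memLp_two_iff_integrable_sq_norm h1.1]
  refine (h1.norm.const_mul B).mono (h1.1.norm.pow 2) (Eventually.of_forall fun ξ => ?_)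
  have h0 : 0 ≤ B := (norm_nonneg _).trans (hB 0)
  rw [Real.norm_of_nonneg (by positivity), Real.norm_of_nonneg (by positivity), sq]
  gcongr
  exact hB ξ

end Pool.Agent.R244.PQ
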