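import Mathlib
import Pool.Agent.R244.PQ.Time
set_option autoImplicit false

/-! # The fixed time `L⁴` estimate for a sector -/

namespace Pool.Agent.R244.PQ

open MeasureTheory Set Complex Filter
open scoped ENNReal ComplexConjugate Topology

/-- the unit vector -/
noncomputable def uv (θ : ℝ) : ℝ × ℝ := (Real.cos θ, Real.sin θ)

/-- the pieces of the representation -/
noncomputable def bb (f : ℝ × ℝ → ℂ) (a t τ : ℝ) (x : ℝ × ℝ) : ℂ :=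
  κ τ * ∫ θ in Icc a (a + Real.pi / 4), nh (mth f θ) (τ - t) * ψ τ θ x

lemma ψ_meas : Measurable (fun w : (ℝ × (ℝ × ℝ)) × ℝ => ψ w.1.1 w.2 w.1.2) := by
  have h1 : Measurable wz := wz_cont.measurable
  have h2 : Measurable (fun w : (ℝ × (ℝ × ℝ)) × ℝ => wz w.1.1) :=
    h1.comp (measurable_fst.comp measurable_fst)
  have h3 : Measurable (fun w : (ℝ × (ℝ × ℝ)) × ℝ => ss w.2 w.1.2) := by
    unfold ss
    fun_prop
  have h4 : Measurable (fun w : (ℝ × (ℝ × ℝ)) × ℝ => ((ss w.2 w.1.2 : ℝ) : ℂ)) :=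
    Complex.measurable_ofReal.comp h3
  unfold ψ
  fun_prop

attribute [local irreducible] nh mth ψ κ LL om

lemma mth_meas1 {f : ℝ × ℝ → ℂ} (hf : Measurable f) (θ : ℝ) : Measurable (mth f θ) := by
  have hF : Measurable (fun u : ℝ => (θ, u)) := by fun_prop
  have h := (mth_meas hf).comp hF
  exact h

lemma nh_meas1 {f : ℝ × ℝ → ℂ} (hf : Measurable f) (y : ℝ) :
    Measurable (fun θ => nh (mth f θ) y) := by
  have hF : Measurable (fun θ : ℝ => (θ, y)) := by fun_prop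
  have h := (nh_meas hf).comp hF
  exact h

lemma bb_meas {f : ℝ × ℝ → ℂ} (hf : Measurable f) (a t : ℝ) :
    Measurable (fun w : ℝ × (ℝ × ℝ) => bb f a t w.1 w.2) := by
  have hF : Measurable (fun w : (ℝ × (ℝ × ℝ)) × ℝ => (w.2, w.1.1 - t)) := by fun_prop
  have m0 := (nh_meas hf).comp hF
  have m1 : Measurable (fun w : (ℝ × (ℝ × ℝ)) × ℝ => nh (mth f w.2) (w.1.1 - t)) := m0
  have h1 : Measurable (fun w : (ℝ × (ℝ × ℝ)) × ℝ => nh (mth f w.2) (w.1.1 - t) *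
      ψ w.1.1 w.2 w.1.2) := m1.mul ψ_meas
  have h2 : StronglyMeasurable (fun w : ℝ × (ℝ × ℝ) => ∫ θ in Icc a (a + Real.pi / 4),
      nh (mth f θ) (w.1 - t) * ψ w.1 θ w.2) :=
    StronglyMeasurable.integral_prod_right' (ν := volume.restrict (Icc a (a + Real.pi / 4)))
      (f := fun w : (ℝ × (ℝ × ℝ)) × ℝ => nh (mth f w.2) (w.1.1 - t) *
      ψ w.1.1 w.2 w.1.2) h1.stronglyMeasurable
  have h3 : Measurable (fun w : ℝ × (ℝ × ℝ) => κ w.1) := κ_meas.comp measurable_fst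
  exact h3.mul h2.measurable

lemma bb_enorm (f : ℝ × ℝ → ℂ) (a t τ : ℝ) (x : ℝ × ℝ) : ‖bb f a t τ x‖ₑ ^ 4 =
    ENNReal.ofReal ((LL τ) ^ (-3 : ℝ)) *
      ‖∫ θ in Icc a (a + Real.pi / 4), nh (mth f θ) (τ - t) * ψ τ θ x‖ₑ ^ 4 := by
  unfold bb
  have hL := LL_pos τ
  rw [enorm_mul, mul_pow, ← ofReal_norm (κ τ), κ_norm, ← ENNReal.ofReal_pow (by positivity),
    ← Real.rpow_natCast, ← Real.rpow_mul hL.le]
  norm_num

lemma wt_calc {α γ t τ : ℝ} (hα0 : 0 ≤ α) (hα1 : α ≤ 1) (hα2 : 2 * γ ≤ α) :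
    ENNReal.ofReal ((LL τ) ^ (-3 : ℝ)) * ENNReal.ofReal (7 * LL τ ^ (3 - α)) *
      ENNReal.ofReal (1 + |τ - t|)⁻¹ ^ 4 ≤ 14 * ENNReal.ofReal (om γ t τ) ^ 4 := by
  have hLp := LL_pos τ
  rw [← ENNReal.ofReal_mul (by positivity), ← ENNReal.ofReal_pow (by positivity),
    ← ENNReal.ofReal_mul (by positivity), ← ENNReal.ofReal_pow (om_pos _ _ _).le]
  have h14 : (14 : ℝ≥0∞) = ENNReal.ofReal 14 := by norm_num
  rw [h14, ← ENNReal.ofReal_mul (by norm_num)]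
  apply ENNReal.ofReal_le_ofReal
  have e1 : (LL τ) ^ (-3 : ℝ) * (7 * LL τ ^ (3 - α)) = 7 * (LL τ) ^ (-α) := by
    rw [mul_left_comm, ← Real.rpow_add hLp]
    congr 2
    ring
  rw [e1]
  unfold om
  rw [mul_pow]
  have e2 := LL_rpow_le (α := α) hα0 hα1 τ
  have e3 : (1 + |τ|) ^ (-(2 * α)) ≤ ((1 + |τ|) ^ (-γ)) ^ 4 := by
    rw [← Real.rpow_natCast, ← Real.rpow_mul (by positivity)]
    apply Real.rpow_le_rpow_of_exponent_le
    · linarith [abs_nonneg τ]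
    · push_cast
      linarith
  calc 7 * (LL τ) ^ (-α) * ((1 + |τ - t|)⁻¹) ^ 4
      ≤ 7 * (2 * ((1 + |τ|) ^ (-γ)) ^ 4) * ((1 + |τ - t|)⁻¹) ^ 4 := by
        gcongr
        exact e2.trans (by gcongr)
    _ = _ := by ring

lemma V_meas {V : ℝ → ℝ} (hVm : Measurable V) : Measurable (fun θ => ENNReal.ofReal (V θ) ^ 4) :=
  (ENNReal.measurable_ofReal.comp hVm).pow_const 4

lemma bb_bound {U B α γ a t : ℝ} {M : ℝ≥0∞} (hU0 : 0 ≤ U) (hα : 1 / 3 ≤ α) (hα1 : α ≤ 1)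
    (hα2 : 2 * γ ≤ α) {f : ℝ × ℝ → ℂ} {V : ℝ → ℝ} (hf : Measurable f) (hB : ∀ ξ, ‖f ξ‖ ≤ B)
    (hU : ∀ ξ, U < dot ξ ξ → f ξ = 0) (hVm : Measurable V) (hV0 : ∀ θ, 0 ≤ V θ)
    (hV : ∀ θ ∈ Icc a (a + Real.pi / 4),
        eVariationOn (fun r : ℝ => f (r * Real.cos θ, r * Real.sin θ)) (Ioi 0) ≤
          ENNReal.ofReal (V θ))
    (hM : ∀ c : ℝ, ∫⁻ φ in Icc a (a + Real.pi / 4), ‖φ - c‖ₑ ^ (-α) ≤ M) (τ : ℝ) :
    ∫⁻ x, ‖bb f a t τ x‖ₑ ^ 4 ≤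
      (14 * (16 * M ^ 3 * ENNReal.ofReal ((U + 1) * Real.exp (Real.pi * U)) ^ 4) *
        ∫⁻ θ in Icc a (a + Real.pi / 4), ENNReal.ofReal (V θ) ^ 4) *
        ENNReal.ofReal (om γ t τ) ^ 4 := by
  obtain ⟨c0, hc0⟩ : ∃ c0, c0 = (U + 1) * Real.exp (Real.pi * U) := ⟨_, rfl⟩
  have hc0p : 0 ≤ c0 := by rw [hc0]; positivity
  rw [← hc0]
  have hgm : Measurable (fun θ => nh (mth f θ) (τ - t)) := nh_meas1 hf _
  have hgb : ∀ θ, ‖nh (mth f θ) (τ - t)‖ ≤ B * Real.exp (Real.pi * U) * U := fun θ =>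
    nh_triv (mth_meas1 hf θ) hU0
      (fun u hu => mth_zero hu) (fun u hu => mth_supp hU hu) (mth_bd hB θ) (τ - t)
  have h1 := fixed hα hα1 τ hgm hgb hM
  have h2 : ∫⁻ θ in Icc a (a + Real.pi / 4), ‖nh (mth f θ) (τ - t)‖ₑ ^ 4 ≤
      ENNReal.ofReal (c0 * (1 + |τ - t|)⁻¹) ^ 4 *
        ∫⁻ θ in Icc a (a + Real.pi / 4), ENNReal.ofReal (V θ) ^ 4 := by
    rw [← lintegral_const_mul _ (V_meas hVm)]
    apply setLIntegral_mono' measurableSet_Icc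
    intro θ hθ
    have h3 := nh_bound (m := mth f θ) (mth_meas1 hf θ) hU0 (hV0 θ) (fun u hu => mth_zero hu)
      (fun u hu => mth_supp hU hu) (mth_var (hV θ hθ)) (τ - t)
    rw [← mul_pow, ← ENNReal.ofReal_mul (by positivity)]
    refine pow_le_pow_left' ?_ 4
    rw [← ofReal_norm]
    apply ENNReal.ofReal_le_ofReal
    refine h3.trans (le_of_eq ?_)
    rw [hc0]
    ring
  simp_rw [bb_enorm]
  rw [lintegral_const_mul' _ _ ENNReal.ofReal_ne_top]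
  have hLp := LL_pos τ
  obtain ⟨VV, hVV⟩ : ∃ VV, VV = ∫⁻ θ in Icc a (a + Real.pi / 4), ENNReal.ofReal (V θ) ^ 4 :=
    ⟨_, rfl⟩
  rw [← hVV] at h2 ⊢
  obtain ⟨XX, hXX⟩ : ∃ XX, XX = ∫⁻ x, ‖∫ θ in Icc a (a + Real.pi / 4),
    nh (mth f θ) (τ - t) * ψ τ θ x‖ₑ ^ 4 := ⟨_, rfl⟩
  rw [← hXX] at h1 ⊢
  calc ENNReal.ofReal ((LL τ) ^ (-3 : ℝ)) * XX
      ≤ ENNReal.ofReal ((LL τ) ^ (-3 : ℝ)) * (ENNReal.ofReal (7 * LL τ ^ (3 - α)) *
        (16 * M ^ 3 * (ENNReal.ofReal (c0 * (1 + |τ - t|)⁻¹) ^ 4 * VV))) := by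
        refine mul_le_mul_right (h1.trans (mul_le_mul_right (mul_le_mul_right h2 _) _)) _
    _ = (ENNReal.ofReal ((LL τ) ^ (-3 : ℝ)) * ENNReal.ofReal (7 * LL τ ^ (3 - α)) *
        ENNReal.ofReal (1 + |τ - t|)⁻¹ ^ 4) *
        (16 * M ^ 3 * ENNReal.ofReal c0 ^ 4 * VV) := by
        rw [ENNReal.ofReal_mul hc0p, mul_pow]
        ring
    _ ≤ (14 * ENNReal.ofReal (om γ t τ) ^ 4) *
        (16 * M ^ 3 * ENNReal.ofReal c0 ^ 4 * VV) := by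
        refine mul_le_mul_left ?_ _
        exact wt_calc (by linarith) hα1 hα2
    _ = _ := by ring

/-- the fixed time estimate for a sector -/
theorem sector {U β : ℝ} (hU0 : 0 ≤ U) (hβ : 0 < β) (hβ1 : β < 1 / 2) : ∃ C : ℝ≥0∞, C ≠ ∞ ∧
    ∀ (a t B : ℝ) (f : ℝ × ℝ → ℂ) (V : ℝ → ℝ), -Real.pi ≤ a → a + Real.pi / 4 ≤ Real.pi →
      Measurable f → (∀ ξ, ‖f ξ‖ ≤ B) → (∀ ξ, U < dot ξ ξ → f ξ = 0) →
      (∀ θ ∈ Ioo (-Real.pi) Real.pi, θ ∉ Icc a (a + Real.pi / 4) →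
        ∀ r : ℝ, 0 < r → f (r * Real.cos θ, r * Real.sin θ) = 0) →
      Half (uv (a + Real.pi / 8)) f → Measurable V → (∀ θ, 0 ≤ V θ) →
      (∀ θ ∈ Icc a (a + Real.pi / 4),
        eVariationOn (fun r : ℝ => f (r * Real.cos θ, r * Real.sin θ)) (Ioi 0) ≤
          ENNReal.ofReal (V θ)) →
      ∫⁻ x, ‖Ft (md f t) x‖ₑ ^ 4 ≤ C * ENNReal.ofReal ((1 + |t|) ^ (-β)) ^ 4 *
        ∫⁻ θ in Icc a (a + Real.pi / 4), ENNReal.ofReal (V θ) ^ 4 := by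
  -- exponents
  obtain ⟨γ, hγ1, hβγ⟩ : ∃ γ : ℝ, γ < 1 / 2 ∧ β < γ := ⟨(β + 1 / 2) / 2, by linarith, by linarith⟩
  obtain ⟨α, hα1, hα3, hα2⟩ : ∃ α : ℝ, α < 1 ∧ 1 / 3 ≤ α ∧ 2 * γ ≤ α :=
    ⟨max (2 * γ) (1 / 3), max_lt (by linarith) (by norm_num), le_max_right _ _, le_max_left _ _⟩
  obtain ⟨M, hM, hMb⟩ := M_exists (α := α) (by linarith) hα1
  obtain ⟨C1, hC1, hom⟩ := om_lint (γ := γ) hβ.le hβγ (by linarith)
  obtain ⟨c0, hc0⟩ : ∃ c0, c0 = (U + 1) * Real.exp (Real.pi * U) := ⟨_, rfl⟩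
  refine ⟨70 * (14 * (16 * M ^ 3 * ENNReal.ofReal c0 ^ 4)) * C1 ^ 4, ?_, ?_⟩
  · have h1 : M ^ 3 ≠ ∞ := ENNReal.pow_ne_top hM
    have h2 : C1 ^ 4 ≠ ∞ := ENNReal.pow_ne_top hC1
    have h3 : ENNReal.ofReal c0 ^ 4 ≠ ∞ := ENNReal.pow_ne_top ENNReal.ofReal_ne_top
    exact ENNReal.mul_ne_top (ENNReal.mul_ne_top (by norm_num) (ENNReal.mul_ne_top (by norm_num)
      (ENNReal.mul_ne_top (ENNReal.mul_ne_top (by norm_num) h1) h3))) h2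
  intro a t B f V ha ha' hf hB hU hs hhalf hVm hV0 hV
  have hki : Integrable (md f t) :=
    (f_int hf hB hU).mono (md_meas hf t).aestronglyMeasurable
      (Eventually.of_forall fun ξ => (md_norm f t ξ).le)
  have hk2 : MemLp (md f t) 2 := l2_bdd hki (B := B) (fun ξ => by rw [md_norm]; exact hB ξ)
  have hkh : Half (uv (a + Real.pi / 8)) (md f t) := by
    intro ξ hξ
    apply hhalf
    intro h0
    apply hξ
    unfold md
    rw [h0, zero_mul]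
  have hR := riesz hki hk2 hkh
  refine hR.trans ?_
  -- the representation
  have hW : ∀ x, ‖Ft (md f t) x - Ft (md f t) (-x)‖ₑ ≤ ∫⁻ τ, ‖bb f a t τ x‖ₑ := by
    intro x
    rw [rep hf hU0 hB hU ha ha' hs t x]
    exact enorm_integral_le_lintegral_enorm _
  have hbm : Measurable (Function.uncurry (fun τ x => ‖bb f a t τ x‖ₑ)) := (bb_meas hf a t).enorm
  have hbD := fun τ => bb_bound (t := t) hU0 hα3 hα1.le hα2 hf hB hU hVm hV0 hV (hMb a) τ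
  rw [← hc0] at hbD
  obtain ⟨D, hD⟩ : ∃ D, D = 14 * (16 * M ^ 3 * ENNReal.ofReal c0 ^ 4) *
    ∫⁻ θ in Icc a (a + Real.pi / 4), ENNReal.ofReal (V θ) ^ 4 := ⟨_, rfl⟩
  rw [← hD] at hbD
  have hJ4 := jensen4 volume hbm (ENNReal.measurable_ofReal.comp (om_meas γ t))
    (fun τ => by
      simp only [Function.comp_apply]
      rw [Ne, ENNReal.ofReal_eq_zero, not_le]
      exact om_pos _ _ _) (fun τ => ENNReal.ofReal_ne_top) hbD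
  calc 70 * ∫⁻ x, ‖Ft (md f t) x - Ft (md f t) (-x)‖ₑ ^ 4
      ≤ 70 * ∫⁻ x, (∫⁻ τ, ‖bb f a t τ x‖ₑ) ^ 4 := by
        refine mul_le_mul_right (lintegral_mono fun x => ?_) _
        exact pow_le_pow_left' (hW x) 4
    _ ≤ 70 * (D * (C1 * ENNReal.ofReal ((1 + |t|) ^ (-β))) ^ 4) := by
        refine mul_le_mul_right (hJ4.trans ?_) _
        refine mul_le_mul_right (pow_le_pow_left' (hom t) 4) _
    _ = _ := by rw [hD]; ring

end Pool.Agent.R244.PQ
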