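import Mathlib
import Pool.Agent.R244.PQ.Time2
set_option autoImplicit false

/-! # From a sector to the whole disc -/

namespace Pool.Agent.R244.PQ

open MeasureTheory Set Complex Filter
open scoped ENNReal ComplexConjugate Topology

/-- the angle -/
noncomputable def ag (ξ : ℝ × ℝ) : ℝ := Complex.arg ((ξ.1 : ℂ) + ξ.2 * I)

lemma ag_meas : Measurable ag := by
  unfold ag
  exact Complex.measurable_arg.comp (by fun_prop)

lemma ag_mem (ξ : ℝ × ℝ) : ag ξ ∈ Ioc (-Real.pi) Real.pi := Complex.arg_mem_Ioc _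

lemma ag_polar {r θ : ℝ} (hr : 0 < r) (hθ : θ ∈ Ioc (-Real.pi) Real.pi) :
    ag (r * Real.cos θ, r * Real.sin θ) = θ := by
  unfold ag
  have : (((r * Real.cos θ : ℝ) : ℂ) + ((r * Real.sin θ : ℝ) : ℂ) * I) =
      (r : ℂ) * (Complex.cos θ + Complex.sin θ * I) := by
    push_cast
    ring
  simp only
  rw [this]
  exact Complex.arg_mul_cos_add_sin_mul_I hr hθ

lemma ag_neg_pi {r : ℝ} (hr : 0 < r) :
    ag (r * Real.cos (-Real.pi), r * Real.sin (-Real.pi)) = Real.pi := by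
  have h := ag_polar hr (θ := Real.pi) ⟨by linarith [Real.pi_pos], le_rfl⟩
  rw [Real.cos_neg, Real.sin_neg, Real.sin_pi, neg_zero, ← Real.sin_pi]
  exact h

lemma polar_ag (ξ : ℝ × ℝ) :
    ξ = (‖((ξ.1 : ℂ) + ξ.2 * I)‖ * Real.cos (ag ξ), ‖((ξ.1 : ℂ) + ξ.2 * I)‖ * Real.sin (ag ξ)) := by
  unfold ag
  have h1 := Complex.norm_mul_cos_arg ((ξ.1 : ℂ) + ξ.2 * I)
  have h2 := Complex.norm_mul_sin_arg ((ξ.1 : ℂ) + ξ.2 * I)
  rw [h1, h2]
  simp

/-- the function along the ray -/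
noncomputable def ray (f : ℝ × ℝ → ℂ) (θ r : ℝ) : ℂ := f (r * Real.cos θ, r * Real.sin θ)

/-- the hypotheses -/
structure PV (U B : ℝ) (f : ℝ × ℝ → ℂ) (V : ℝ → ℝ) : Prop where
  fm : Measurable f
  fb : ∀ ξ, ‖f ξ‖ ≤ B
  fU : ∀ ξ, U < dot ξ ξ → f ξ = 0
  f0 : f 0 = 0
  Vm : Measurable V
  V0 : ∀ θ, 0 ≤ V θ
  var : ∀ θ ∈ Ioc (-Real.pi) Real.pi, eVariationOn (ray f θ) (Ioi 0) ≤ ENNReal.ofReal (V θ)

/-- cutting the angle -/
noncomputable def cut (S : Set ℝ) (f : ℝ × ℝ → ℂ) : ℝ × ℝ → ℂ := (ag ⁻¹' S).indicator f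

lemma cut_ray {S : Set ℝ} {f : ℝ × ℝ → ℂ} {θ r : ℝ} (hθ : θ ∈ Ioc (-Real.pi) Real.pi)
    (hr : 0 < r) (h : θ ∈ S) : ray (cut S f) θ r = ray f θ r := by
  unfold ray cut
  rw [indicator_of_mem]
  rw [mem_preimage, ag_polar hr hθ]
  exact h

lemma cut_ray' {S : Set ℝ} {f : ℝ × ℝ → ℂ} {θ r : ℝ} (hθ : θ ∈ Ioc (-Real.pi) Real.pi)
    (hr : 0 < r) (h : θ ∉ S) : ray (cut S f) θ r = 0 := by
  unfold ray cut
  rw [indicator_of_notMem]
  rw [mem_preimage, ag_polar hr hθ]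
  exact h

lemma var_zero {g : ℝ → ℂ} (h : ∀ r, 0 < r → g r = 0) : eVariationOn g (Ioi 0) = 0 := by
  have : eVariationOn g (Ioi 0) = eVariationOn (fun _ : ℝ => (0 : ℂ)) (Ioi 0) :=
    eVariationOn.eq_of_eqOn fun r hr => h r hr
  rw [this]
  exact eVariationOn.constant_on (by
    rintro a ⟨_, _, rfl⟩ b ⟨_, _, rfl⟩
    rfl)

lemma PV.cut {U B : ℝ} {f : ℝ × ℝ → ℂ} {V : ℝ → ℝ} (h : PV U B f V) {S : Set ℝ}
    (hS : MeasurableSet S) : PV U B (cut S f) (S.indicator V) where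
  fm := h.fm.indicator (ag_meas hS)
  fb := fun ξ => (norm_indicator_le_norm_self _ _).trans (h.fb ξ)
  fU := fun ξ hξ => by
    unfold Pool.Agent.R244.PQ.cut
    by_cases h1 : ξ ∈ ag ⁻¹' S
    · rw [indicator_of_mem h1, h.fU ξ hξ]
    · rw [indicator_of_notMem h1]
  f0 := by
    unfold Pool.Agent.R244.PQ.cut
    by_cases h1 : (0 : ℝ × ℝ) ∈ ag ⁻¹' S
    · rw [indicator_of_mem h1, h.f0]
    · rw [indicator_of_notMem h1]
  Vm := h.Vm.indicator hS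
  V0 := fun θ => indicator_nonneg (fun θ _ => h.V0 θ) θ
  var := fun θ hθ => by
    by_cases h1 : θ ∈ S
    · rw [indicator_of_mem h1]
      refine le_trans (le_of_eq ?_) (h.var θ hθ)
      exact eVariationOn.eq_of_eqOn fun r hr => cut_ray hθ hr h1
    · rw [indicator_of_notMem h1, var_zero fun r hr => cut_ray' hθ hr h1]
      exact zero_le

lemma cut_half {f : ℝ × ℝ → ℂ} (h0 : f 0 = 0) (a : ℝ) :
    Half (uv (a + Real.pi / 8)) (cut (Ioc a (a + Real.pi / 4)) f) := by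
  intro ξ hξ
  have hpi := Real.pi_pos
  have h1 : ag ξ ∈ Ioc a (a + Real.pi / 4) := by
    by_contra hn
    apply hξ
    unfold cut
    exact indicator_of_notMem (s := ag ⁻¹' (Ioc a (a + Real.pi / 4))) hn f
  have h2 : ξ ≠ 0 := by
    rintro rfl
    apply hξ
    unfold cut
    by_cases h3 : (0 : ℝ × ℝ) ∈ ag ⁻¹' (Ioc a (a + Real.pi / 4))
    · rw [indicator_of_mem h3, h0]
    · rw [indicator_of_notMem h3]
  obtain ⟨ρ, hρ⟩ : ∃ ρ, ρ = ‖((ξ.1 : ℂ) + ξ.2 * I)‖ := ⟨_, rfl⟩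
  have h3 := polar_ag ξ
  rw [← hρ] at h3
  have hρ0 : 0 ≤ ρ := by rw [hρ]; exact norm_nonneg _
  have hρ1 : 0 < ρ := by
    rcases hρ0.eq_or_lt with h | h
    · exfalso
      apply h2
      rw [h3, ← h]
      simp
    · exact h
  obtain ⟨φ, hφ⟩ : ∃ φ, φ = ag ξ := ⟨_, rfl⟩
  rw [← hφ] at h3 h1
  rw [h3]
  unfold uv dot
  simp only
  have h4 : Real.cos (a + Real.pi / 8) * (ρ * Real.cos φ) +
      Real.sin (a + Real.pi / 8) * (ρ * Real.sin φ) = ρ * Real.cos (a + Real.pi / 8 - φ) := by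
    rw [Real.cos_sub]
    ring
  rw [h4]
  apply mul_pos hρ1
  apply Real.cos_pos_of_mem_Ioo
  constructor
  · linarith [h1.2]
  · linarith [h1.1]

lemma enorm_add4 (a b : ℂ) : ‖a + b‖ₑ ^ 4 ≤ 8 * (‖a‖ₑ ^ 4 + ‖b‖ₑ ^ 4) := by
  have h1 : ‖a + b‖ₑ ^ 4 ≤ (‖a‖ₑ + ‖b‖ₑ) ^ 4 := pow_le_pow_left' (enorm_add_le _ _) 4
  refine h1.trans ?_
  have h2 := ENNReal.rpow_add_le_mul_rpow_add_rpow ‖a‖ₑ ‖b‖ₑ (p := 4) (by norm_num)
  have h3 : (2 : ℝ≥0∞) ^ ((4 : ℝ) - 1) = 8 := by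
    rw [show (4 : ℝ) - 1 = ((3 : ℕ) : ℝ) by norm_num, ENNReal.rpow_natCast]
    norm_num
  rw [h3] at h2
  have h4 : ∀ x : ℝ≥0∞, x ^ (4 : ℝ) = x ^ 4 := fun x => by
    rw [show (4 : ℝ) = ((4 : ℕ) : ℝ) by norm_num, ENNReal.rpow_natCast]
  rw [h4, h4, h4] at h2
  exact h2

lemma PV.int {U B : ℝ} {f : ℝ × ℝ → ℂ} {V : ℝ → ℝ} (h : PV U B f V) (t : ℝ) :
    Integrable (md f t) :=
  (f_int h.fm h.fb h.fU).mono (md_meas h.fm t).aestronglyMeasurable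
    (Eventually.of_forall fun ξ => (md_norm f t ξ).le)

lemma Ft_md_add {f g : ℝ × ℝ → ℂ} (t : ℝ) (hf : Integrable (md f t)) (hg : Integrable (md g t))
    (x : ℝ × ℝ) : Ft (md (fun ξ => f ξ + g ξ) t) x = Ft (md f t) x + Ft (md g t) x := by
  have h1 := Ft_add hf hg 1 x
  rw [one_mul] at h1
  rw [← h1]
  congr 1
  funext ξ
  unfold md
  ring

lemma cut_step {f : ℝ × ℝ → ℂ} (a b : ℝ) (hab : a ≤ b) :
    cut (Iic b) f = fun ξ => cut (Iic a) f ξ + cut (Ioc a b) f ξ := by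
  funext ξ
  unfold cut
  simp only [indicator, mem_preimage, mem_Iic, mem_Ioc]
  by_cases h1 : ag ξ ≤ a
  · have h2 : ag ξ ≤ b := h1.trans hab
    have h3 : ¬ (a < ag ξ ∧ ag ξ ≤ b) := fun h => absurd h.1 (not_lt.2 h1)
    rw [if_pos h1, if_pos h2, if_neg h3, add_zero]
  · by_cases h2 : ag ξ ≤ b
    · rw [if_neg h1, if_pos h2, if_pos ⟨not_le.1 h1, h2⟩, zero_add]
    · rw [if_neg h1, if_neg h2, if_neg (fun h => h2 h.2), zero_add]

/-- the angular `L^4` integral -/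
noncomputable def V4 (V : ℝ → ℝ) : ℝ≥0∞ := ∫⁻ θ in Ioc (-Real.pi) Real.pi, ENNReal.ofReal (V θ) ^ 4

theorem full4_aux {U β : ℝ} (hU0 : 0 ≤ U) (hβ : 0 < β) (hβ1 : β < 1 / 2) (k : ℕ) (hk : k ≤ 8) :
    ∃ C : ℝ≥0∞, C ≠ ∞ ∧ ∀ (t B : ℝ) (f : ℝ × ℝ → ℂ) (V : ℝ → ℝ), PV U B f V →
      ∫⁻ x, ‖Ft (md (cut (Iic (-Real.pi + k * (Real.pi / 4))) f) t) x‖ₑ ^ 4 ≤
        C * ENNReal.ofReal ((1 + |t|) ^ (-β)) ^ 4 * V4 V := by
  induction k with
  | zero =>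
    refine ⟨0, ENNReal.zero_ne_top, fun t B f V h => ?_⟩
    have h1 : cut (Iic (-Real.pi + (0 : ℕ) * (Real.pi / 4))) f = fun _ => 0 := by
      funext ξ
      unfold cut
      rw [indicator_of_notMem]
      intro h2
      have h3 := (ag_mem ξ).1
      rw [mem_preimage, mem_Iic] at h2
      push_cast at h2
      linarith
    rw [h1]
    have h2 : ∀ x, Ft (md (fun _ => 0) t) x = 0 := by
      intro x
      unfold Ft md
      simp
    simp_rw [h2]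
    simp
  | succ k ih =>
    obtain ⟨C1, hC1, h1⟩ := ih (by omega)
    obtain ⟨C2, hC2, h2⟩ := sector (U := U) hU0 hβ hβ1
    refine ⟨8 * (C1 + C2), ENNReal.mul_ne_top (by norm_num) (ENNReal.add_ne_top.2 ⟨hC1, hC2⟩),
      fun t B f V h => ?_⟩
    have hpi := Real.pi_pos
    obtain ⟨a, ha⟩ : ∃ a, a = -Real.pi + k * (Real.pi / 4) := ⟨_, rfl⟩
    have hk8 : (k : ℝ) + 1 ≤ 8 := by exact_mod_cast hk
    have hk0 : (0 : ℝ) ≤ k := by positivity
    have ha1 : -Real.pi ≤ a := by rw [ha]; nlinarith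
    have ha2 : a + Real.pi / 4 ≤ Real.pi := by rw [ha]; nlinarith
    have ha3 : -Real.pi + ((k + 1 : ℕ) : ℝ) * (Real.pi / 4) = a + Real.pi / 4 := by
      rw [ha]; push_cast; ring
    rw [ha3]
    rw [cut_step a (a + Real.pi / 4) (by linarith)]
    have p1 := h.cut (S := Iic a) measurableSet_Iic
    have p2 := h.cut (S := Ioc a (a + Real.pi / 4)) measurableSet_Ioc
    have e1 := h1 t B f V h
    rw [← ha] at e1
    have e2 := h2 a t B (cut (Ioc a (a + Real.pi / 4)) f) V ha1 ha2 p2.fm p2.fb p2.fU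
      (by
        intro θ hθ hn r hr
        exact cut_ray' (f := f) ⟨hθ.1, hθ.2.le⟩ hr (fun h3 => hn ⟨h3.1.le, h3.2⟩))
      (cut_half h.f0 a) h.Vm h.V0 (by
        intro θ hθ
        by_cases h3 : -Real.pi < θ
        · refine (p2.var θ ⟨h3, hθ.2.trans ha2⟩).trans (ENNReal.ofReal_le_ofReal ?_)
          exact indicator_le_self' (fun _ _ => h.V0 _) _
        · have h4 : θ = -Real.pi := le_antisymm (not_lt.1 h3) (ha1.trans hθ.1)
          have h5 : eVariationOn (ray (cut (Ioc a (a + Real.pi / 4)) f) θ) (Ioi 0) = 0 := by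
            apply var_zero
            intro r hr
            unfold ray cut
            rw [indicator_of_notMem]
            rw [mem_preimage, h4, ag_neg_pi hr]
            intro h6
            have h7 : a = -Real.pi := by
              have := hθ.1
              linarith
            rw [h7] at h6
            have := h6.2
            linarith
          exact h5.le.trans zero_le)
    have e3 : ∫⁻ θ in Icc a (a + Real.pi / 4), ENNReal.ofReal (V θ) ^ 4 ≤ V4 V := by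
      unfold V4
      rw [setLIntegral_congr Ioc_ae_eq_Icc]
      exact lintegral_mono_set (Icc_subset_Icc ha1 ha2)
    have m1 : Measurable (fun x => ‖Ft (md (cut (Iic a) f) t) x‖ₑ ^ 4) :=
      (Ft_cont (p1.int t)).measurable.enorm.pow_const 4
    calc ∫⁻ x, ‖Ft (md (fun ξ => cut (Iic a) f ξ + cut (Ioc a (a + Real.pi / 4)) f ξ) t) x‖ₑ ^ 4
        ≤ ∫⁻ x, 8 * (‖Ft (md (cut (Iic a) f) t) x‖ₑ ^ 4 +
            ‖Ft (md (cut (Ioc a (a + Real.pi / 4)) f) t) x‖ₑ ^ 4) := by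
          refine lintegral_mono fun x => ?_
          rw [Ft_md_add t (p1.int t) (p2.int t)]
          exact enorm_add4 _ _
      _ = 8 * ((∫⁻ x, ‖Ft (md (cut (Iic a) f) t) x‖ₑ ^ 4) +
            ∫⁻ x, ‖Ft (md (cut (Ioc a (a + Real.pi / 4)) f) t) x‖ₑ ^ 4) := by
          rw [lintegral_const_mul' _ _ (by norm_num), lintegral_add_left m1]
      _ ≤ 8 * (C1 * ENNReal.ofReal ((1 + |t|) ^ (-β)) ^ 4 * V4 V +
            C2 * ENNReal.ofReal ((1 + |t|) ^ (-β)) ^ 4 * V4 V) := by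
          refine mul_le_mul_right (add_le_add e1 (e2.trans ?_)) _
          exact mul_le_mul_right e3 _
      _ = _ := by ring

/-- the fixed time `L⁴` estimate -/
theorem full4 {U β : ℝ} (hU0 : 0 ≤ U) (hβ : 0 < β) (hβ1 : β < 1 / 2) :
    ∃ C : ℝ≥0∞, C ≠ ∞ ∧ ∀ (t B : ℝ) (f : ℝ × ℝ → ℂ) (V : ℝ → ℝ), PV U B f V →
      ∫⁻ x, ‖Ft (md f t) x‖ₑ ^ 4 ≤ C * ENNReal.ofReal ((1 + |t|) ^ (-β)) ^ 4 * V4 V := by
  obtain ⟨C, hC, h⟩ := full4_aux hU0 hβ hβ1 8 le_rfl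
  refine ⟨C, hC, fun t B f V hf => ?_⟩
  have h1 := h t B f V hf
  have h2 : cut (Iic (-Real.pi + (8 : ℕ) * (Real.pi / 4))) f = f := by
    funext ξ
    unfold cut
    rw [indicator_of_mem]
    rw [mem_preimage, mem_Iic]
    push_cast
    linarith [(ag_mem ξ).2]
  rwa [h2] at h1

end Pool.Agent.R244.PQ
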