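import Mathlib
import Pool.Agent.R244.PQ.Asm
import Pool.Agent.R244.PQ.Marc
set_option autoImplicit false

/-! # The fixed time `L^q` estimate, `2 < q < 4` -/

namespace Pool.Agent.R244.PQ

open MeasureTheory Set Complex Filter
open scoped ENNReal ComplexConjugate Topology

lemma polar_lint (G : ℝ × ℝ → ℝ≥0∞) (hG : Measurable G) :
    ∫⁻ ξ, G ξ = ∫⁻ θ in Ioo (-Real.pi) Real.pi, (∫⁻ r in Ioi (0 : ℝ),
      ENNReal.ofReal r * G (r * Real.cos θ, r * Real.sin θ)) := by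
  rw [← lintegral_comp_polarCoord_symm]
  have h1 : (polarCoord.target : Set (ℝ × ℝ)) = Ioi (0 : ℝ) ×ˢ Ioo (-Real.pi) Real.pi := rfl
  rw [h1, Measure.volume_eq_prod, ← Measure.prod_restrict]
  have hm : Measurable (fun p : ℝ × ℝ => ENNReal.ofReal p.1 * G (p.1 * Real.cos p.2,
      p.1 * Real.sin p.2)) := by
    refine Measurable.mul (ENNReal.measurable_ofReal.comp measurable_fst) (hG.comp ?_)
    fun_prop
  have h2 : ∀ p : ℝ × ℝ, ENNReal.ofReal p.1 • G (polarCoord.symm p) =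
      ENNReal.ofReal p.1 * G (p.1 * Real.cos p.2, p.1 * Real.sin p.2) := fun p => rfl
  simp_rw [h2]
  rw [lintegral_prod_symm _ hm.aemeasurable]

lemma PV.pt {U B : ℝ} {f : ℝ × ℝ → ℂ} {V : ℝ → ℝ} (h : PV U B f V) {θ r : ℝ}
    (hθ : θ ∈ Ioc (-Real.pi) Real.pi) (hr : 0 < r) : ‖ray f θ r‖ ≤ V θ := by
  have hz : ∀ u, max 1 U < u → ray f θ u = 0 := by
    intro u hu
    have h1 : 1 < u := lt_of_le_of_lt (le_max_left _ _) hu
    have h2 : U < u := lt_of_le_of_lt (le_max_right _ _) hu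
    unfold ray
    apply h.fU
    unfold dot
    simp only
    have h3 := Real.cos_sq_add_sin_sq θ
    have h4 : u * Real.cos θ * (u * Real.cos θ) + u * Real.sin θ * (u * Real.sin θ) = u ^ 2 := by
      calc _ = u ^ 2 * (Real.cos θ ^ 2 + Real.sin θ ^ 2) := by ring
        _ = u ^ 2 := by rw [h3, mul_one]
    rw [h4]
    nlinarith
  exact bv_bound (h.V0 θ) hz (h.var θ hθ) hr

lemma PV.zero {U B : ℝ} {f : ℝ × ℝ → ℂ} {V : ℝ → ℝ} (h : PV U B f V) {θ r : ℝ}
    (hr : 0 < r) (hU : Real.sqrt U < r) : ray f θ r = 0 := by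
  unfold ray
  apply h.fU
  unfold dot
  simp only
  have h3 := Real.cos_sq_add_sin_sq θ
  have h4 : r * Real.cos θ * (r * Real.cos θ) + r * Real.sin θ * (r * Real.sin θ) = r ^ 2 := by
    calc _ = r ^ 2 * (Real.cos θ ^ 2 + Real.sin θ ^ 2) := by ring
      _ = r ^ 2 := by rw [h3, mul_one]
  rw [h4]
  exact (Real.sqrt_lt' hr).1 hU

/-- the angular `L^n` integral -/
noncomputable def Vn (n : ℕ) (V : ℝ → ℝ) : ℝ≥0∞ :=
  ∫⁻ θ in Ioc (-Real.pi) Real.pi, ENNReal.ofReal (V θ) ^ n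

lemma PV.lp {U B : ℝ} {f : ℝ × ℝ → ℂ} {V : ℝ → ℝ} (h : PV U B f V) (hU0 : 0 ≤ U) {n : ℕ}
    (hn : n ≠ 0) : ∫⁻ ξ, ‖f ξ‖ₑ ^ n ≤ ENNReal.ofReal U * Vn n V := by
  rw [polar_lint _ (h.fm.enorm.pow_const n)]
  unfold Vn
  have m1 : Measurable (fun θ => ENNReal.ofReal (V θ) ^ n) :=
    (ENNReal.measurable_ofReal.comp h.Vm).pow_const n
  rw [← lintegral_const_mul _ m1]
  rw [← setLIntegral_congr (Ioo_ae_eq_Ioc (a := -Real.pi) (b := Real.pi))]
  apply setLIntegral_mono' measurableSet_Ioo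
  intro θ hθ
  have hθ' : θ ∈ Ioc (-Real.pi) Real.pi := ⟨hθ.1, hθ.2.le⟩
  calc ∫⁻ r in Ioi (0 : ℝ), ENNReal.ofReal r * ‖f (r * Real.cos θ, r * Real.sin θ)‖ₑ ^ n
      ≤ ∫⁻ r in Ioi (0 : ℝ), (Ioc (0 : ℝ) (Real.sqrt U)).indicator
          (fun _ => ENNReal.ofReal (Real.sqrt U) * ENNReal.ofReal (V θ) ^ n) r := by
        apply setLIntegral_mono' measurableSet_Ioi
        intro r hr
        have hr0 : 0 < r := hr
        by_cases h1 : r ≤ Real.sqrt U
        · rw [indicator_of_mem (show r ∈ Ioc (0 : ℝ) (Real.sqrt U) from ⟨hr0, h1⟩)]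
          refine mul_le_mul' (ENNReal.ofReal_le_ofReal h1) (pow_le_pow_left' ?_ n)
          rw [← ofReal_norm]
          exact ENNReal.ofReal_le_ofReal (h.pt hθ' hr0)
        · have h2 := h.zero (θ := θ) hr0 (not_le.1 h1)
          unfold ray at h2
          rw [h2]
          simp [hn]
    _ ≤ ∫⁻ r, (Ioc (0 : ℝ) (Real.sqrt U)).indicator
          (fun _ => ENNReal.ofReal (Real.sqrt U) * ENNReal.ofReal (V θ) ^ n) r :=
        setLIntegral_le_lintegral _ _
    _ = ENNReal.ofReal U * ENNReal.ofReal (V θ) ^ n := by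
        rw [lintegral_indicator measurableSet_Ioc, setLIntegral_const, Real.volume_Ioc, sub_zero,
          mul_right_comm, ← ENNReal.ofReal_mul (Real.sqrt_nonneg _), Real.mul_self_sqrt hU0]

/-- the angular `L^q` integral -/
noncomputable def Vq (q : ℝ) (V : ℝ → ℝ) : ℝ≥0∞ :=
  ∫⁻ θ in Ioc (-Real.pi) Real.pi, ENNReal.ofReal (V θ) ^ q

lemma V_ind (V : ℝ → ℝ) {S : Set ℝ} (hS : MeasurableSet S) {n : ℕ} (hn : n ≠ 0) :
    Vn n (S.indicator V) = ∫⁻ θ in S, ENNReal.ofReal (V θ) ^ n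
      ∂(volume.restrict (Ioc (-Real.pi) Real.pi)) := by
  unfold Vn
  rw [← lintegral_indicator hS]
  congr 1
  funext θ
  by_cases h : θ ∈ S
  · rw [indicator_of_mem h, indicator_of_mem h]
  · rw [indicator_of_notMem h, indicator_of_notMem h]
    simp [hn]

theorem fixq {U β q : ℝ} (hU0 : 0 ≤ U) (hβ : 0 < β) (hβ1 : β < 1 / 2) (hq2 : 2 < q) (hq4 : q < 4) :
    ∃ C : ℝ, 0 < C ∧ ∀ (t B : ℝ) (f : ℝ × ℝ → ℂ) (V : ℝ → ℝ), PV U B f V →
      ∫⁻ x, ENNReal.ofReal ‖Ft (md f t) x‖ ^ q ≤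
        ENNReal.ofReal (C * (1 + |t|) ^ (-(2 * β * (q - 2)))) * Vq q V := by
  obtain ⟨C4, hC4, h4⟩ := full4 hU0 hβ hβ1
  obtain ⟨C0, hC0, hM⟩ := marc24 q hq2 hq4
  refine ⟨C0 * (U + 1) ^ ((4 - q) / 2) * (C4.toReal + 1) ^ ((q - 2) / 2), by positivity,
    fun t B f V h => ?_⟩
  obtain ⟨T, hT⟩ : ∃ T, T = 1 + |t| := ⟨_, rfl⟩
  have hT0 : 0 < T := by rw [hT]; positivity
  have h1 := hM (volume.restrict (Ioc (-Real.pi) Real.pi)) volume
    (fun x => ‖Ft (md f t) x‖) V (Ft_cont (h.int t)).norm.measurable h.Vm (fun x => norm_nonneg _)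
    h.V0 (U + 1) ((C4.toReal + 1) * T ^ (-(4 * β))) (by positivity) (by positivity) (by
      intro τ hτ
      have hS : MeasurableSet {θ | τ < V θ} := measurableSet_lt measurable_const h.Vm
      have hS' : MeasurableSet {θ | V θ ≤ τ} := measurableSet_le h.Vm measurable_const
      have p1 := h.cut hS
      have p2 := h.cut hS'
      refine ⟨fun x => ‖Ft (md (cut {θ | τ < V θ} f) t) x‖ₑ,
        fun x => ‖Ft (md (cut {θ | V θ ≤ τ} f) t) x‖ₑ, (Ft_cont (p1.int t)).measurable.enorm,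
        (Ft_cont (p2.int t)).measurable.enorm, Eventually.of_forall fun x => ?_, ?_, ?_⟩
      · have e1 : f = fun ξ => cut {θ | τ < V θ} f ξ + cut {θ | V θ ≤ τ} f ξ := by
          funext ξ
          unfold cut
          simp only [indicator, mem_preimage, mem_ofPred_eq]
          by_cases h2 : τ < V (ag ξ)
          · rw [if_pos h2, if_neg (not_le.2 h2), add_zero]
          · rw [if_neg h2, if_pos (not_lt.1 h2), zero_add]
        have e2 : Ft (md f t) x = Ft (md (cut {θ | τ < V θ} f) t) x +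
            Ft (md (cut {θ | V θ ≤ τ} f) t) x := by
          conv_lhs => rw [e1]
          exact Ft_md_add t (p1.int t) (p2.int t) x
        rw [ofReal_norm, e2]
        exact enorm_add_le _ _
      · have e1 : MemLp (md (cut {θ | τ < V θ} f) t) 2 :=
          l2_bdd (p1.int t) (B := B) fun ξ => by rw [md_norm]; exact p1.fb ξ
        rw [planch2 _ (p1.int t) e1]
        have e2 : ∀ ξ, ‖md (cut {θ | τ < V θ} f) t ξ‖ₑ = ‖cut {θ | τ < V θ} f ξ‖ₑ := fun ξ => by
          rw [← ofReal_norm, md_norm, ofReal_norm]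
        simp_rw [e2]
        refine (p1.lp hU0 two_ne_zero).trans ?_
        rw [V_ind V hS two_ne_zero]
        gcongr
        linarith
      · refine (h4 t B _ _ p2).trans ?_
        have e1 : V4 ({θ | V θ ≤ τ}.indicator V) = Vn 4 ({θ | V θ ≤ τ}.indicator V) := rfl
        rw [e1, V_ind V hS' four_ne_zero]
        gcongr
        rw [← ENNReal.ofReal_pow (by positivity), ENNReal.ofReal_mul (by positivity)]
        have e2 : ((1 + |t|) ^ (-β)) ^ 4 = T ^ (-(4 * β)) := by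
          rw [hT, ← Real.rpow_natCast, ← Real.rpow_mul (by positivity)]
          congr 1
          push_cast
          ring
        rw [e2]
        gcongr
        conv_lhs => rw [← ENNReal.ofReal_toReal hC4]
        exact ENNReal.ofReal_le_ofReal (by linarith))
  refine h1.trans (le_of_eq ?_)
  unfold Vq
  congr 2
  rw [Real.mul_rpow (by positivity) (by positivity), ← Real.rpow_mul hT0.le, ← hT]
  have e3 : -(4 * β) * ((q - 2) / 2) = -(2 * β * (q - 2)) := by ring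
  rw [e3]
  ring

end Pool.Agent.R244.PQ
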