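import Mathlib
import Pool.Agent.R244.PQ.Interp
set_option autoImplicit false

/-! # All exponents and unbounded densities -/

namespace Pool.Agent.R244.PQ

open MeasureTheory Set Complex Filter
open scoped ENNReal ComplexConjugate Topology

/-- lower exponents on a finite measure space -/
lemma holder1 {X : Type*} [MeasurableSpace X] (μ : Measure X) {W : X → ℝ≥0∞} (hW : Measurable W)
    {a q : ℝ} (ha : 0 < a) (haq : a < q) :
    ∫⁻ x, W x ^ a ∂μ ≤ (∫⁻ x, W x ^ q ∂μ) ^ (a / q) * (μ univ) ^ (1 - a / q) := by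
  have hq : 0 < q := ha.trans haq
  have hpq : (q / a).HolderConjugate (q / (q - a)) := by
    rw [Real.holderConjugate_iff]
    refine ⟨(one_lt_div ha).2 haq, ?_⟩
    have : q - a ≠ 0 := by linarith
    field_simp
    ring
  have h := ENNReal.lintegral_mul_le_Lp_mul_Lq μ hpq (f := fun x => W x ^ a) (g := fun _ => 1)
    (hW.pow_const a).aemeasurable aemeasurable_const
  have e2 : ∀ x, (W x ^ a) ^ (q / a) = W x ^ q := fun x => by
    rw [← ENNReal.rpow_mul]
    congr 1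
    field_simp
  have e3 : (1 : ℝ) / (q / a) = a / q := by field_simp
  have e4 : (1 : ℝ) / (q / (q - a)) = 1 - a / q := by
    have : q - a ≠ 0 := by linarith
    field_simp
  simp only [Pi.mul_apply, mul_one, e2, ENNReal.one_rpow, lintegral_const, one_mul] at h
  rw [e3, e4] at h
  exact h

lemma sup_int {Y : Type*} [MeasurableSpace Y] (ν : Measure Y) {F : Y → ℝ≥0∞} {S : ℝ≥0∞}
    (hS : S ≠ ∞) (hF : ∀ y, F y ≤ S) {q q0 : ℝ} (h0 : 0 < q0) (hq : q0 < q) :
    ∫⁻ y, F y ^ q ∂ν ≤ S ^ (q - q0) * ∫⁻ y, F y ^ q0 ∂ν := by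
  have h1 : S ^ (q - q0) ≠ ∞ := ENNReal.rpow_ne_top_of_nonneg (by linarith) hS
  rw [← lintegral_const_mul' _ _ h1]
  refine lintegral_mono fun y => ?_
  have h2 : F y ^ q = F y ^ (q - q0) * F y ^ q0 := by
    rw [← ENNReal.rpow_add_of_nonneg _ _ (by linarith) h0.le]
    congr 1
    ring
  rw [h2]
  exact mul_le_mul_left (ENNReal.rpow_le_rpow (hF y) (by linarith)) _

lemma PV.sup {U B : ℝ} {f : ℝ × ℝ → ℂ} {V : ℝ → ℝ} (h : PV U B f V) (hU0 : 0 ≤ U) (t : ℝ)
    (x : ℝ × ℝ) : ‖Ft (md f t) x‖ₑ ≤ ENNReal.ofReal U * Vq 1 V := by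
  have h1 : ‖Ft (md f t) x‖ₑ ≤ ∫⁻ ξ, ‖f ξ‖ₑ := by
    unfold Ft
    refine (enorm_integral_le_lintegral_enorm _).trans (le_of_eq ?_)
    congr 1
    funext ξ
    rw [enorm_mul, ← ofReal_norm (e _), e_norm, ENNReal.ofReal_one, mul_one, ← ofReal_norm,
      md_norm, ofReal_norm]
  refine h1.trans ?_
  have h2 := h.lp hU0 one_ne_zero
  simp only [pow_one] at h2
  refine h2.trans (le_of_eq ?_)
  unfold Vn Vq
  simp

lemma mu_univ : (volume.restrict (Ioc (-Real.pi) Real.pi)) univ = ENNReal.ofReal (2 * Real.pi) := by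
  rw [Measure.restrict_apply_univ, Real.volume_Ioc]
  congr 1
  ring

/-- the fixed time estimate for all exponents -/
theorem fixall {U κ' q : ℝ} (hU0 : 0 ≤ U) (hκ : 0 < κ') (hκ1 : κ' < q - 2) (hκ2 : κ' < 2) :
    ∃ C : ℝ, 0 < C ∧ ∀ (t B : ℝ) (f : ℝ × ℝ → ℂ) (V : ℝ → ℝ), PV U B f V →
      ∫⁻ x, ‖Ft (md f t) x‖ₑ ^ q ≤
        ENNReal.ofReal (C * (1 + |t|) ^ (-κ')) * Vq q V := by
  by_cases hq4 : q < 4
  · have hq2 : 2 < q := by linarith
    have hq2' : 0 < q - 2 := by linarith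
    obtain ⟨C, hC, h⟩ := fixq (U := U) (β := κ' / (2 * (q - 2))) (q := q) hU0 (by positivity)
      (by rw [div_lt_div_iff₀ (by positivity) (by norm_num)]; linarith) hq2 hq4
    refine ⟨C, hC, fun t B f V hf => ?_⟩
    have h1 := h t B f V hf
    have e1 : 2 * (κ' / (2 * (q - 2))) * (q - 2) = κ' := by field_simp
    rw [e1] at h1
    simp only [ofReal_norm] at h1
    exact h1
  · have hq4' : 4 ≤ q := not_lt.1 hq4
    obtain ⟨q0, hq0⟩ : ∃ q0, q0 = κ' / 2 + 3 := ⟨_, rfl⟩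
    have h3 : 3 < q0 := by rw [hq0]; linarith
    have h4 : q0 < 4 := by rw [hq0]; linarith
    have hq2' : 0 < q0 - 2 := by linarith
    have hqq : q0 < q := by linarith
    have hqp : 0 < q := by linarith
    obtain ⟨C, hC, h⟩ := fixq (U := U) (β := κ' / (2 * (q0 - 2))) (q := q0) hU0 (by positivity)
      (by rw [div_lt_div_iff₀ (by positivity) (by norm_num)]; linarith) (by linarith) h4
    obtain ⟨D, hD⟩ : ∃ D : ℝ, D = U ^ (q - q0) * (2 * Real.pi) ^ (q - q0) := ⟨_, rfl⟩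
    have hpi := Real.pi_pos
    have hD0 : 0 ≤ D := by rw [hD]; positivity
    refine ⟨C * (D + 1), by positivity, fun t B f V hf => ?_⟩
    have h1 := h t B f V hf
    have e1 : 2 * (κ' / (2 * (q0 - 2))) * (q0 - 2) = κ' := by field_simp
    rw [e1] at h1
    simp only [ofReal_norm] at h1
    have mV : Measurable (fun θ => ENNReal.ofReal (V θ)) := ENNReal.measurable_ofReal.comp hf.Vm
    have H1 := holder1 (volume.restrict (Ioc (-Real.pi) Real.pi)) mV (a := 1) (q := q) one_pos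
      (by linarith)
    have H0 := holder1 (volume.restrict (Ioc (-Real.pi) Real.pi)) mV (a := q0) (q := q) (by linarith)
      hqq
    rw [mu_univ] at H1 H0
    by_cases hV : Vq q V = ∞
    · rw [hV, ENNReal.mul_top]
      · exact le_top
      · rw [Ne, ENNReal.ofReal_eq_zero, not_le]
        positivity
    have hV1 : Vq 1 V ≠ ∞ := by
      refine ne_top_of_le_ne_top ?_ H1
      exact ENNReal.mul_ne_top (ENNReal.rpow_ne_top_of_nonneg (by positivity) hV)
        (ENNReal.rpow_ne_top_of_nonneg (by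
          have : 1 / q ≤ 1 := by rw [div_le_one hqp]; linarith
          linarith) ENNReal.ofReal_ne_top)
    have h5 := sup_int volume (ENNReal.mul_ne_top ENNReal.ofReal_ne_top hV1)
      (fun x => hf.sup hU0 t x) (show 0 < q0 by linarith) hqq
    refine h5.trans ?_
    have hp2 : ENNReal.ofReal (2 * Real.pi) ≠ 0 := by
      rw [Ne, ENNReal.ofReal_eq_zero, not_le]; positivity
    calc (ENNReal.ofReal U * Vq 1 V) ^ (q - q0) * ∫⁻ x, ‖Ft (md f t) x‖ₑ ^ q0
        ≤ (ENNReal.ofReal U * ((Vq q V) ^ (1 / q) * (ENNReal.ofReal (2 * Real.pi)) ^ (1 - 1 / q))) ^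
            (q - q0) * (ENNReal.ofReal (C * (1 + |t|) ^ (-κ')) *
              ((Vq q V) ^ (q0 / q) * (ENNReal.ofReal (2 * Real.pi)) ^ (1 - q0 / q))) := by
          refine mul_le_mul' (ENNReal.rpow_le_rpow (mul_le_mul_right H1 _) (by linarith))
            (h1.trans (mul_le_mul_right H0 _))
      _ = ENNReal.ofReal U ^ (q - q0) * (Vq q V ^ ((1 / q) * (q - q0)) * Vq q V ^ (q0 / q)) *
            (ENNReal.ofReal (2 * Real.pi) ^ ((1 - 1 / q) * (q - q0)) *
            ENNReal.ofReal (2 * Real.pi) ^ (1 - q0 / q)) * ENNReal.ofReal (C * (1 + |t|) ^ (-κ')) := by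
          rw [ENNReal.mul_rpow_of_nonneg _ _ (by linarith), ENNReal.mul_rpow_of_nonneg _ _
            (by linarith), ← ENNReal.rpow_mul, ← ENNReal.rpow_mul]
          ring
      _ = ENNReal.ofReal (D * (C * (1 + |t|) ^ (-κ'))) * Vq q V := by
          rw [← ENNReal.rpow_add_of_nonneg _ _ (by
            have : 0 ≤ q - q0 := by linarith
            positivity) (by positivity),
            ← ENNReal.rpow_add _ _ hp2 ENNReal.ofReal_ne_top]
          have e2 : 1 / q * (q - q0) + q0 / q = 1 := by field_simp; ring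
          have e3 : (1 - 1 / q) * (q - q0) + (1 - q0 / q) = (q - q0) := by
            field_simp
            ring
          rw [e2, e3, ENNReal.rpow_one]
          rw [ENNReal.ofReal_rpow_of_nonneg hU0 (by linarith),
            ENNReal.ofReal_rpow_of_nonneg (by positivity) (by linarith), hD,
            ENNReal.ofReal_mul (show 0 ≤ U ^ (q - q0) * (2 * Real.pi) ^ (q - q0) by positivity),
            ENNReal.ofReal_mul (show 0 ≤ U ^ (q - q0) by positivity)]
          ring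
      _ ≤ _ := by
          refine mul_le_mul_left (ENNReal.ofReal_le_ofReal ?_) _
          have h6 : 0 < C * (1 + |t|) ^ (-κ') := by positivity
          calc D * (C * (1 + |t|) ^ (-κ')) ≤ (D + 1) * (C * (1 + |t|) ^ (-κ')) := by
                gcongr
                linarith
            _ = _ := by ring

/-- the pointwise bound along a ray, extended version -/
lemma ptE {U : ℝ} {f : ℝ × ℝ → ℂ} (hU : ∀ ξ, U < dot ξ ξ → f ξ = 0) {θ r : ℝ} {v : ℝ≥0∞}
    (hv : eVariationOn (ray f θ) (Ioi 0) ≤ v) (hr : 0 < r) : ‖ray f θ r‖ₑ ≤ v := by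
  have hy : 0 < max r (max 1 U + 1) := lt_of_lt_of_le hr (le_max_left _ _)
  have h1 := eVariationOn.edist_le (ray f θ) (s := Ioi 0) (x := r) (y := max r (max 1 U + 1)) hr hy
  have hz : ray f θ (max r (max 1 U + 1)) = 0 := by
    obtain ⟨u, hu⟩ : ∃ u, u = max r (max 1 U + 1) := ⟨_, rfl⟩
    have hu1 : max 1 U + 1 ≤ u := by rw [hu]; exact le_max_right _ _
    have h1 : 1 < u := by linarith [le_max_left 1 U]
    have h2 : U < u := by linarith [le_max_right 1 U]
    rw [← hu]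
    unfold ray
    apply hU
    unfold dot
    simp only
    have h3 := Real.cos_sq_add_sin_sq θ
    have h4 : u * Real.cos θ * (u * Real.cos θ) + u * Real.sin θ * (u * Real.sin θ) = u ^ 2 := by
      calc _ = u ^ 2 * (Real.cos θ ^ 2 + Real.sin θ ^ 2) := by ring
        _ = u ^ 2 := by rw [h3, mul_one]
    rw [h4]
    nlinarith
  rw [hz, edist_zero_right] at h1
  exact h1.trans hv

/-- the angular integral of an extended real majorant -/
noncomputable def Wq (q : ℝ) (W : ℝ → ℝ≥0∞) : ℝ≥0∞ :=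
  ∫⁻ θ in Ioc (-Real.pi) Real.pi, W θ ^ q

lemma Wq_one_ne_top {q : ℝ} (hq : 1 < q) {W : ℝ → ℝ≥0∞} (hW : Measurable W) (h : Wq q W ≠ ∞) :
    Wq 1 W ≠ ∞ := by
  have H1 := holder1 (volume.restrict (Ioc (-Real.pi) Real.pi)) hW (a := 1) (q := q) one_pos hq
  rw [mu_univ] at H1
  refine ne_top_of_le_ne_top ?_ H1
  exact ENNReal.mul_ne_top (ENNReal.rpow_ne_top_of_nonneg (by positivity) h)
    (ENNReal.rpow_ne_top_of_nonneg (by
      have : 1 / q ≤ 1 := by rw [div_le_one (by linarith)]; linarith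
      linarith) ENNReal.ofReal_ne_top)

lemma f_le_W {U : ℝ} {f : ℝ × ℝ → ℂ} (hU : ∀ ξ, U < dot ξ ξ → f ξ = 0) {W : ℝ → ℝ≥0∞}
    (hv : ∀ θ ∈ Ioc (-Real.pi) Real.pi, eVariationOn (ray f θ) (Ioi 0) ≤ W θ) {ξ : ℝ × ℝ}
    (hξ : ξ ≠ 0) : ‖f ξ‖ₑ ≤ W (ag ξ) := by
  have h3 := polar_ag ξ
  obtain ⟨ρ, hρ⟩ : ∃ ρ, ρ = ‖((ξ.1 : ℂ) + ξ.2 * I)‖ := ⟨_, rfl⟩
  rw [← hρ] at h3
  have hρ0 : 0 ≤ ρ := by rw [hρ]; exact norm_nonneg _
  have hρ1 : 0 < ρ := by
    rcases hρ0.eq_or_lt with h | h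
    · exfalso
      apply hξ
      rw [h3, ← h]
      simp
    · exact h
  have h4 := ptE hU (hv (ag ξ) (ag_mem ξ)) hρ1
  unfold ray at h4
  rw [← h3] at h4
  exact h4

end Pool.Agent.R244.PQ
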