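import Mathlib
import Pool.Agent.R244.PQ.Glob
set_option autoImplicit false

/-! # Unbounded densities, extended real majorants -/

namespace Pool.Agent.R244.PQ

open MeasureTheory Set Complex Filter
open scoped ENNReal ComplexConjugate Topology

lemma fatou_le {X : Type*} [MeasurableSpace X] {μ : Measure X} {F : ℕ → X → ℝ≥0∞} {G : X → ℝ≥0∞}
    {K : ℝ≥0∞} (hF : ∀ n, Measurable (F n)) (hK : ∀ n, ∫⁻ x, F n x ∂μ ≤ K)
    (hlim : ∀ᵐ x ∂μ, Tendsto (fun n => F n x) atTop (𝓝 (G x))) : ∫⁻ x, G x ∂μ ≤ K := by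
  calc ∫⁻ x, G x ∂μ = ∫⁻ x, liminf (fun n => F n x) atTop ∂μ :=
        lintegral_congr_ae (hlim.mono fun x hx => hx.liminf_eq.symm)
    _ ≤ liminf (fun n => ∫⁻ x, F n x ∂μ) atTop := lintegral_liminf_le hF
    _ ≤ liminf (fun _ : ℕ => K) atTop := liminf_le_liminf (Eventually.of_forall hK)
    _ = K := liminf_const K

/-- the truncation -/
noncomputable def tr (f : ℝ × ℝ → ℂ) (W : ℝ → ℝ≥0∞) (N : ℕ) : ℝ × ℝ → ℂ :=
  cut {θ | W θ ≤ N} (({0}ᶜ : Set (ℝ × ℝ)).indicator f)

lemma tr_eq {f : ℝ × ℝ → ℂ} {W : ℝ → ℝ≥0∞} {N : ℕ} {ξ : ℝ × ℝ} (h0 : ξ ≠ 0)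
    (h : W (ag ξ) ≤ N) : tr f W N ξ = f ξ := by
  unfold tr cut
  rw [indicator_of_mem (s := ag ⁻¹' {θ | W θ ≤ N}) h,
    indicator_of_mem (s := ({0}ᶜ : Set (ℝ × ℝ))) h0]

lemma tr_norm (f : ℝ × ℝ → ℂ) (W : ℝ → ℝ≥0∞) (N : ℕ) (ξ : ℝ × ℝ) : ‖tr f W N ξ‖ ≤ ‖f ξ‖ := by
  unfold tr cut
  exact (norm_indicator_le_norm_self _ _).trans (norm_indicator_le_norm_self _ _)

/-- the truncated majorant -/
noncomputable def trV (W : ℝ → ℝ≥0∞) (N : ℕ) (θ : ℝ) : ℝ :=
  {θ | W θ ≤ N}.indicator (fun θ => (W θ).toReal) θ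

lemma trV_le (W : ℝ → ℝ≥0∞) (N : ℕ) (θ : ℝ) : ENNReal.ofReal (trV W N θ) ≤ W θ := by
  unfold trV
  by_cases h : θ ∈ {θ | W θ ≤ N}
  · rw [indicator_of_mem h]
    exact ENNReal.ofReal_toReal_le
  · rw [indicator_of_notMem h]
    simp

lemma tr_PV {U : ℝ} {f : ℝ × ℝ → ℂ} {W : ℝ → ℝ≥0∞} (hf : Measurable f)
    (hU : ∀ ξ, U < dot ξ ξ → f ξ = 0) (hW : Measurable W)
    (hv : ∀ θ ∈ Ioc (-Real.pi) Real.pi, eVariationOn (ray f θ) (Ioi 0) ≤ W θ) (N : ℕ) :
    PV U N (tr f W N) (trV W N) where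
  fm := by
    unfold tr cut
    exact (hf.indicator (measurableSet_singleton _).compl).indicator
      (ag_meas (measurableSet_le hW measurable_const))
  fb := fun ξ => by
    by_cases h : ξ ∈ ag ⁻¹' {θ | W θ ≤ N}
    · by_cases h0 : ξ = 0
      · unfold tr cut
        rw [indicator_of_mem h, h0, indicator_of_notMem (by simp)]
        simp
      · rw [tr_eq h0 h]
        have h1 := (f_le_W hU hv h0).trans h
        rw [← ofReal_norm, ← ENNReal.ofReal_natCast] at h1
        exact (ENNReal.ofReal_le_ofReal_iff (by positivity)).1 h1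
    · unfold tr cut
      rw [indicator_of_notMem h]
      simp
  fU := fun ξ hξ => by
    have h := tr_norm f W N ξ
    rw [hU ξ hξ, norm_zero] at h
    exact norm_le_zero_iff.1 h
  f0 := by
    unfold tr cut
    by_cases h : (0 : ℝ × ℝ) ∈ ag ⁻¹' {θ | W θ ≤ N}
    · rw [indicator_of_mem h, indicator_of_notMem (by simp)]
    · rw [indicator_of_notMem h]
  Vm := hW.ennreal_toReal.indicator (measurableSet_le hW measurable_const)
  V0 := fun θ => indicator_nonneg (fun θ _ => ENNReal.toReal_nonneg) θ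
  var := fun θ hθ => by
    by_cases h : θ ∈ {θ | W θ ≤ N}
    · unfold trV
      rw [indicator_of_mem h]
      have h1 : W θ ≠ ∞ := ne_top_of_le_ne_top (ENNReal.natCast_ne_top N) h
      rw [ENNReal.ofReal_toReal h1]
      refine le_trans (le_of_eq ?_) (hv θ hθ)
      refine eVariationOn.eq_of_eqOn fun r hr => ?_
      unfold tr
      rw [cut_ray hθ hr h]
      unfold ray
      rw [indicator_of_mem]
      intro h2
      have h3 : r * Real.cos θ = 0 := congrArg Prod.fst h2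
      have h4 : r * Real.sin θ = 0 := congrArg Prod.snd h2
      have h5 := Real.cos_sq_add_sin_sq θ
      have hr0 : 0 < r := hr
      have h6 : Real.cos θ = 0 := (mul_eq_zero.1 h3).resolve_left hr0.ne'
      have h7 : Real.sin θ = 0 := (mul_eq_zero.1 h4).resolve_left hr0.ne'
      rw [h6, h7] at h5
      norm_num at h5
    · rw [var_zero]
      · exact zero_le
      · intro r hr
        unfold tr
        exact cut_ray' hθ hr h

lemma ag_null {W : ℝ → ℝ≥0∞} (hW : Measurable W) (h : Wq 1 W ≠ ∞) :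
    ∀ᵐ ξ : ℝ × ℝ, W (ag ξ) ≠ ∞ := by
  have h1 : ∀ᵐ θ ∂(volume.restrict (Ioc (-Real.pi) Real.pi)), W θ < ∞ := by
    have h2 : ∫⁻ θ in Ioc (-Real.pi) Real.pi, W θ ≠ ∞ := by
      unfold Wq at h
      simpa using h
    exact ae_lt_top hW h2
  have hS : MeasurableSet {ξ : ℝ × ℝ | W (ag ξ) = ∞} :=
    (hW.comp ag_meas) (measurableSet_singleton _)
  have h3 : ∫⁻ ξ : ℝ × ℝ, {ξ : ℝ × ℝ | W (ag ξ) = ∞}.indicator (fun _ => (1 : ℝ≥0∞)) ξ = 0 := by
    rw [polar_lint _ (measurable_const.indicator hS)]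
    rw [setLIntegral_congr (Ioo_ae_eq_Ioc (a := -Real.pi) (b := Real.pi))]
    rw [lintegral_eq_zero_iff']
    · filter_upwards [h1, ae_restrict_mem measurableSet_Ioc] with θ h4 h5
      simp only [Pi.zero_apply]
      rw [← nonpos_iff_eq_zero]
      calc ∫⁻ r in Ioi (0 : ℝ), ENNReal.ofReal r * {ξ : ℝ × ℝ | W (ag ξ) = ∞}.indicator
            (fun _ => (1 : ℝ≥0∞)) (r * Real.cos θ, r * Real.sin θ)
          ≤ ∫⁻ r in Ioi (0 : ℝ), 0 := by
            apply setLIntegral_mono' measurableSet_Ioi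
            intro r hr
            rw [indicator_of_notMem]
            · simp
            · intro h6
              change W (ag (r * Real.cos θ, r * Real.sin θ)) = ∞ at h6
              rw [ag_polar hr h5] at h6
              exact h4.ne h6
        _ = 0 := by simp
    · apply Measurable.aemeasurable
      have hm : Measurable (fun p : ℝ × ℝ => ENNReal.ofReal p.2 *
          {ξ : ℝ × ℝ | W (ag ξ) = ∞}.indicator (fun _ => (1 : ℝ≥0∞))
            (p.2 * Real.cos p.1, p.2 * Real.sin p.1)) := by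
        refine Measurable.mul (ENNReal.measurable_ofReal.comp measurable_snd)
          ((measurable_const.indicator hS).comp ?_)
        fun_prop
      exact hm.lintegral_prod_right'
  rw [lintegral_indicator hS, setLIntegral_const, one_mul] at h3
  rw [ae_iff]
  simpa using h3

/-- the fixed time estimate -/
theorem fixW {U κ' q : ℝ} (hU0 : 0 ≤ U) (hκ : 0 < κ') (hκ1 : κ' < q - 2) (hκ2 : κ' < 2) :
    ∃ C : ℝ, 0 < C ∧ ∀ (t : ℝ) (f : ℝ × ℝ → ℂ) (W : ℝ → ℝ≥0∞), Measurable f →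
      (∀ ξ, U < dot ξ ξ → f ξ = 0) → Measurable W →
      (∀ θ ∈ Ioc (-Real.pi) Real.pi, eVariationOn (ray f θ) (Ioi 0) ≤ W θ) →
      ∫⁻ x, ‖Ft (md f t) x‖ₑ ^ q ≤ ENNReal.ofReal (C * (1 + |t|) ^ (-κ')) * Wq q W := by
  obtain ⟨C, hC, h⟩ := fixall (U := U) hU0 hκ hκ1 hκ2
  refine ⟨C, hC, fun t f W hf hU hW hv => ?_⟩
  have hq : 0 < q := by linarith
  by_cases hWq : Wq q W = ∞
  · rw [hWq, ENNReal.mul_top]
    · exact le_top
    · rw [Ne, ENNReal.ofReal_eq_zero, not_le]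
      positivity
  have hW1 := Wq_one_ne_top (by linarith) hW hWq
  have hP := fun N => tr_PV hf hU hW hv N
  have hVle : ∀ N, ∀ a : ℝ, 0 ≤ a → Vq a (trV W N) ≤ Wq a W := by
    intro N a ha
    unfold Vq Wq
    exact lintegral_mono fun θ => ENNReal.rpow_le_rpow (trV_le W N θ) ha
  have hne0 : ∀ᵐ ξ : ℝ × ℝ, ξ ≠ 0 := by
    rw [ae_iff]
    simp
  have hconv : ∀ᵐ ξ : ℝ × ℝ, Tendsto (fun N => tr f W N ξ) atTop (𝓝 (f ξ)) := by
    filter_upwards [ag_null hW hW1, hne0] with ξ h1 h2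
    obtain ⟨N0, hN0⟩ := exists_nat_ge (W (ag ξ)).toReal
    apply tendsto_const_nhds.congr'
    filter_upwards [eventually_ge_atTop N0] with N hN
    rw [tr_eq h2]
    rw [← ENNReal.ofReal_toReal h1, ← ENNReal.ofReal_natCast]
    exact ENNReal.ofReal_le_ofReal (hN0.trans (by exact_mod_cast hN))
  have hfi : Integrable f := by
    refine ⟨hf.aestronglyMeasurable, ?_⟩
    have h1 : ∫⁻ ξ, ‖f ξ‖ₑ ≤ ENNReal.ofReal U * Wq 1 W := by
      refine fatou_le (F := fun N ξ => ‖tr f W N ξ‖ₑ) (fun N => (hP N).fm.enorm) (fun N => ?_)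
        (hconv.mono fun ξ h1 => h1.enorm)
      have h2 := (hP N).lp hU0 one_ne_zero
      simp only [pow_one] at h2
      refine h2.trans (mul_le_mul_right ?_ _)
      have h3 := hVle N 1 zero_le_one
      unfold Vn
      unfold Vq at h3
      simpa using h3
    exact h1.trans_lt (ENNReal.mul_lt_top ENNReal.ofReal_lt_top hW1.lt_top)
  refine fatou_le (F := fun N x => ‖Ft (md (tr f W N) t) x‖ₑ ^ q)
    (fun N => (Ft_cont ((hP N).int t)).measurable.enorm.pow_const q) (fun N => ?_)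
    (Eventually.of_forall fun x => ?_)
  · exact (h t N _ _ (hP N)).trans (mul_le_mul_right (hVle N q hq.le) _)
  · have h1 : Tendsto (fun N => Ft (md (tr f W N) t) x) atTop (𝓝 (Ft (md f t) x)) := by
      unfold Ft
      apply tendsto_integral_of_dominated_convergence (fun ξ => ‖f ξ‖)
      · intro N
        exact ((Ft_int ((hP N).int t) x).1)
      · exact hfi.norm
      · intro N
        refine Eventually.of_forall fun ξ => ?_
        rw [norm_mul, e_norm, mul_one, md_norm]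
        exact tr_norm _ _ _ _
      · filter_upwards [hconv] with ξ h2
        unfold md
        exact (h2.mul_const _).mul_const _
    exact (ENNReal.continuous_rpow_const.tendsto _).comp h1.enorm

end Pool.Agent.R244.PQ
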