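import Mathlib
import Pool.Agent.R244.PQ.Lim
set_option autoImplicit false

/-! # Arbitrary centres and integration in time -/

namespace Pool.Agent.R244.PQ

open MeasureTheory Set Complex Filter
open scoped ENNReal ComplexConjugate Topology

lemma Ft_shift (f : ℝ × ℝ → ℂ) (p : ℝ × ℝ) (t : ℝ) (x : ℝ × ℝ) :
    ‖Ft (md f t) x‖ₑ = ‖Ft (md (fun η => f (p + η)) t) (x + (2 * t) • p)‖ₑ := by
  have h1 : Ft (md f t) x = e (t * dot p p + dot x p) *
      Ft (md (fun η => f (p + η)) t) (x + (2 * t) • p) := by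
    unfold Ft
    rw [← integral_const_mul,
      ← integral_add_left_eq_self (fun ξ => md f t ξ * e (dot x ξ)) p]
    congr 1
    funext η
    unfold md
    have h2 : e (t * dot (p + η) (p + η)) * e (dot x (p + η)) =
        e (t * dot p p + dot x p) * e (t * dot η η) * e (dot (x + (2 * t) • p) η) := by
      rw [← e_add, ← e_add, ← e_add]
      congr 1
      unfold dot
      simp only [Prod.fst_add, Prod.snd_add, Prod.smul_fst, Prod.smul_snd, smul_eq_mul]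
      ring
    linear_combination (f (p + η)) * h2
  rw [h1, enorm_mul, ← ofReal_norm (e _), e_norm, ENNReal.ofReal_one, one_mul]

/-- the fixed time estimate with centre `p` -/
theorem fixP {U κ' q R : ℝ} (hU0 : 0 ≤ U) (hκ : 0 < κ') (hκ1 : κ' < q - 2) (hκ2 : κ' < 2) :
    ∃ C : ℝ, 0 < C ∧ ∀ (t : ℝ) (p : ℝ × ℝ) (f : ℝ × ℝ → ℂ) (W : ℝ → ℝ≥0∞), dot p p ≤ R ^ 2 →
      Measurable f → (∀ ξ, U < dot ξ ξ → f ξ = 0) → Measurable W →
      (∀ θ ∈ Ioc (-Real.pi) Real.pi,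
        eVariationOn (fun r : ℝ => f (p + (r * Real.cos θ, r * Real.sin θ))) (Ioi 0) ≤ W θ) →
      ∫⁻ x, ‖Ft (md f t) x‖ₑ ^ q ≤ ENNReal.ofReal (C * (1 + |t|) ^ (-κ')) * Wq q W := by
  obtain ⟨C, hC, h⟩ := fixW (U := 2 * U + 2 * R ^ 2) (by positivity) hκ hκ1 hκ2
  refine ⟨C, hC, fun t p f W hp hf hU hW hv => ?_⟩
  have hm : Measurable (fun η => f (p + η)) := hf.comp (measurable_const_add p)
  have h1 := h t (fun η => f (p + η)) W hm (by
    intro η hη
    apply hU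
    by_contra hn
    rw [not_lt] at hn
    have h2 : dot η η ≤ 2 * dot (p + η) (p + η) + 2 * dot p p := by
      unfold dot
      simp only [Prod.fst_add, Prod.snd_add]
      nlinarith [sq_nonneg (2 * p.1 + η.1), sq_nonneg (2 * p.2 + η.2)]
    linarith) hW hv
  refine le_trans (le_of_eq ?_) h1
  simp_rw [Ft_shift f p t]
  exact lintegral_add_right_eq_self (fun x => ‖Ft (md (fun η => f (p + η)) t) x‖ₑ ^ q) _

lemma FtM_meas {g : ℝ × ℝ → ℂ} (hg : Measurable g) :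
    Measurable (fun w : ℝ × (ℝ × ℝ) => Ft (md g w.1) w.2) := by
  unfold Ft md
  have h1 : Measurable (fun w : (ℝ × (ℝ × ℝ)) × (ℝ × ℝ) => g w.2 * e (w.1.1 * dot w.2 w.2) *
      e (dot w.1.2 w.2)) := by
    have he : Measurable e := e_cont.measurable
    have m1 : Measurable (fun w : (ℝ × (ℝ × ℝ)) × (ℝ × ℝ) => g w.2) := hg.comp measurable_snd
    have m2 : Measurable (fun w : (ℝ × (ℝ × ℝ)) × (ℝ × ℝ) => w.1.1 * dot w.2 w.2) := by
      unfold dot
      fun_prop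
    have m3 : Measurable (fun w : (ℝ × (ℝ × ℝ)) × (ℝ × ℝ) => dot w.1.2 w.2) := by
      unfold dot
      fun_prop
    exact (m1.mul (he.comp m2)).mul (he.comp m3)
  have h2 : StronglyMeasurable (fun w : ℝ × (ℝ × ℝ) => ∫ ξ, g ξ * e (w.1 * dot ξ ξ) *
      e (dot w.2 ξ)) :=
    StronglyMeasurable.integral_prod_right' (ν := volume)
      (f := fun w : (ℝ × (ℝ × ℝ)) × (ℝ × ℝ) => g w.2 * e (w.1.1 * dot w.2 w.2) *
      e (dot w.1.2 w.2)) h1.stronglyMeasurable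
  exact h2.measurable

lemma dec_lint {κ' : ℝ} (hκ : 1 < κ') : ∫⁻ t : ℝ, ENNReal.ofReal ((1 + |t|) ^ (-κ')) < ∞ := by
  have hint : Integrable (fun τ : ℝ => (1 + ‖τ‖) ^ (-κ')) :=
    integrable_one_add_norm (by simp; linarith)
  exact hint.lintegral_lt_top

/-- the space time estimate with centre `p` -/
theorem globP {U q R : ℝ} (hU0 : 0 ≤ U) (hq : 3 < q) :
    ∃ C : ℝ, 0 < C ∧ ∀ (p : ℝ × ℝ) (f : ℝ × ℝ → ℂ) (W : ℝ → ℝ≥0∞), dot p p ≤ R ^ 2 →
      Measurable f → (∀ ξ, U < dot ξ ξ → f ξ = 0) → Measurable W →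
      (∀ θ ∈ Ioc (-Real.pi) Real.pi,
        eVariationOn (fun r : ℝ => f (p + (r * Real.cos θ, r * Real.sin θ))) (Ioi 0) ≤ W θ) →
      ∫⁻ t, (∫⁻ x, ‖Ft (md f t) x‖ₑ ^ q) ≤ ENNReal.ofReal C * Wq q W := by
  obtain ⟨κ', h1, h2, h3⟩ : ∃ κ' : ℝ, 1 < κ' ∧ κ' < q - 2 ∧ κ' < 2 := by
    refine ⟨(1 + min (q - 2) 2) / 2, ?_, ?_, ?_⟩
    · have : 1 < min (q - 2) 2 := lt_min (by linarith) (by norm_num)
      linarith
    · have := min_le_left (q - 2) 2
      linarith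
    · have := min_le_right (q - 2) 2
      linarith
  obtain ⟨C, hC, h⟩ := fixP (R := R) hU0 (by linarith) h2 h3
  have hd := dec_lint h1
  obtain ⟨D, hD⟩ : ∃ D, D = ∫⁻ t : ℝ, ENNReal.ofReal ((1 + |t|) ^ (-κ')) := ⟨_, rfl⟩
  rw [← hD] at hd
  refine ⟨C * (D.toReal + 1), by positivity, fun p f W hp hf hU hW hv => ?_⟩
  calc ∫⁻ t, (∫⁻ x, ‖Ft (md f t) x‖ₑ ^ q)
      ≤ ∫⁻ t : ℝ, ENNReal.ofReal (C * (1 + |t|) ^ (-κ')) * Wq q W :=
        lintegral_mono fun t => h t p f W hp hf hU hW hv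
    _ = ENNReal.ofReal C * D * Wq q W := by
        have m1 : Measurable (fun t : ℝ => ENNReal.ofReal (C * (1 + |t|) ^ (-κ'))) := by fun_prop
        have m2 : Measurable (fun t : ℝ => ENNReal.ofReal ((1 + |t|) ^ (-κ'))) := by fun_prop
        rw [lintegral_mul_const _ m1]
        congr 1
        simp_rw [ENNReal.ofReal_mul hC.le]
        rw [lintegral_const_mul _ m2, hD]
    _ ≤ _ := by
        rw [ENNReal.ofReal_mul hC.le]
        refine mul_le_mul_left (mul_le_mul_right ?_ _) _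
        conv_lhs => rw [← ENNReal.ofReal_toReal hd.ne]
        exact ENNReal.ofReal_le_ofReal (by linarith)

end Pool.Agent.R244.PQ
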