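import Mathlib
import Pool.Agent.R244.PQ.Glo
import Pool.Agent.TH277.CB.B
set_option autoImplicit false
set_option linter.unusedSectionVars false

/-! # Products of rough functions of one coordinate and planar densities of bounded variation along
rays -/

namespace Pool.Agent.R244.PQ

open MeasureTheory Set Complex
open scoped ENNReal NNReal
open Pool.Agent.TH277.HT (ch EE EE_meas Sch Adm E1 E1_meas E1t_meas EE_mult lint_pi mix)
open Pool.Agent.TH277.CB (Phi Phi_mp lint_pi2 EE_blk E2 pq Q2)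

attribute [local irreducible] E1

lemma ch_eq (s : ℝ) : ch s = e s := by
  unfold ch e
  congr 1
  ring

lemma E2_eq (F : ℝ × ℝ → ℂ) (s t : ℝ) (y : ℝ × ℝ) :
    E2 (fun ξ => F ξ * e (s * dot ξ ξ)) y t = Ft (md F (t + s)) y := by
  unfold E2 Ft md pq
  congr 1
  funext ξ
  rw [ch_eq]
  have h1 : e (ξ.1 * y.1 + ξ.2 * y.2 + Pool.Agent.TH277.CS.s2 ξ * t) * e (s * dot ξ ξ) =
      e ((t + s) * dot ξ ξ) * e (dot y ξ) := by
    rw [← e_add, ← e_add]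
    congr 1
    unfold dot Pool.Agent.TH277.CS.s2 Pool.Agent.TH277.CP.sq
    ring
  linear_combination (F ξ) * h1

variable {m₁ m₂ n : ℕ}

/-- multilinear forms at a fixed time -/
lemma sch_time {q : ℝ} (hq0 : 0 < q) {H : Type} [NormedAddCommGroup H] [InnerProductSpace ℂ H]
    [CompleteSpace H] (M : ContinuousMultilinearMap ℂ (fun _ : Fin m₁ => H) ℂ)
    (hM : ‖M‖ ≤ 1) {a : Fin m₁ → ℝ → H} (ha : ∀ j, Adm (a j)) (t : ℝ) :
    ∫⁻ x : Fin m₁ → ℝ, ‖EE (fun ξ => M (fun j => a j (ξ j))) (x, t)‖ₑ ^ q ≤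
      ∏ j, ∫⁻ x : ℝ, ‖E1 (a j) x t‖ₑ ^ q := by
  have h2 : ∀ x : Fin m₁ → ℝ, ‖EE (fun ξ => M (fun j => a j (ξ j))) (x, t)‖ₑ ^ q ≤
      ∏ j, ‖E1 (a j) (x j) t‖ₑ ^ q := by
    intro x
    rw [EE_mult M a ha (x, t), ENNReal.prod_rpow_of_nonneg hq0.le]
    gcongr
    rw [← ofReal_norm]
    calc ENNReal.ofReal ‖M fun j => E1 (a j) (x j) t‖
        ≤ ENNReal.ofReal (∏ j, ‖E1 (a j) (x j) t‖) := by
          apply ENNReal.ofReal_le_ofReal
          refine (M.le_opNorm _).trans ?_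
          have h3 : 0 ≤ ∏ j, ‖E1 (a j) (x j) t‖ := Finset.prod_nonneg fun j _ => norm_nonneg _
          calc ‖M‖ * ∏ j, ‖E1 (a j) (x j) t‖ ≤ 1 * ∏ j, ‖E1 (a j) (x j) t‖ := by gcongr
            _ = _ := one_mul _
      _ = ∏ j, ‖E1 (a j) (x j) t‖ₑ := by
          rw [ENNReal.ofReal_prod_of_nonneg fun j _ => norm_nonneg _]
          apply Finset.prod_congr rfl
          intro j _
          rw [ofReal_norm]
  calc ∫⁻ x : Fin m₁ → ℝ, ‖EE (fun ξ => M (fun j => a j (ξ j))) (x, t)‖ₑ ^ q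
      ≤ ∫⁻ x : Fin m₁ → ℝ, ∏ j, ‖E1 (a j) (x j) t‖ₑ ^ q := lintegral_mono h2
    _ = ∏ j, ∫⁻ x : ℝ, ‖E1 (a j) x t‖ₑ ^ q :=
        lint_pi (fun j x => ‖E1 (a j) x t‖ₑ ^ q) fun j => (E1t_meas (ha j) t).enorm.pow_const q

/-- the density -/
noncomputable def dens (e' : Fin m₁ ⊕ (Fin m₂ ⊕ Fin m₂) ≃ Fin n) (s : (Fin m₁ → ℝ) → ℂ)
    (G : Fin m₂ → ℝ × ℝ → ℂ) (τ : Fin m₂ → ℝ) (ξ : Fin n → ℝ) : ℂ :=
  s (Phi e' ξ).1 * ∏ j, (G j ((Phi e' ξ).2 j) * e (τ j * dot ((Phi e' ξ).2 j) ((Phi e' ξ).2 j)))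

lemma tw_meas {G : ℝ × ℝ → ℂ} (hG : Measurable G) (τ : ℝ) :
    Measurable (fun ξ : ℝ × ℝ => G ξ * e (τ * dot ξ ξ)) := by
  have he : Measurable e := e_cont.measurable
  have h1 : Measurable (fun ξ : ℝ × ℝ => τ * dot ξ ξ) := by
    unfold dot
    fun_prop
  exact hG.mul (he.comp h1)

lemma dens_meas (e' : Fin m₁ ⊕ (Fin m₂ ⊕ Fin m₂) ≃ Fin n) {s : (Fin m₁ → ℝ) → ℂ}
    (hs : StronglyMeasurable s) {G : Fin m₂ → ℝ × ℝ → ℂ} (hG : ∀ j, Measurable (G j))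
    (τ : Fin m₂ → ℝ) : StronglyMeasurable (dens e' s G τ) := by
  unfold dens
  apply StronglyMeasurable.mul
  · exact hs.comp_measurable (measurable_fst.comp (Phi_mp e').measurable)
  · apply Finset.stronglyMeasurable_fun_prod
    intro j _
    have h1 := (tw_meas (hG j) (τ j)).stronglyMeasurable
    exact h1.comp_measurable ((measurable_pi_apply j).comp
      (measurable_snd.comp (Phi_mp e').measurable))

/-- the fixed time integral of a product -/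
lemma dens_time {q : ℝ} (hq0 : 0 < q) (e' : Fin m₁ ⊕ (Fin m₂ ⊕ Fin m₂) ≃ Fin n)
    {s : (Fin m₁ → ℝ) → ℂ} (hs : StronglyMeasurable s) {G : Fin m₂ → ℝ × ℝ → ℂ}
    (hG : ∀ j, Measurable (G j)) (h0 : ∀ j x, x ∉ Q2 → G j x = 0) (τ : Fin m₂ → ℝ) (t : ℝ) :
    ∫⁻ x : Fin n → ℝ, ‖EE (dens e' s G τ) (x, t)‖ₑ ^ q =
      (∫⁻ x : Fin m₁ → ℝ, ‖EE s (x, t)‖ₑ ^ q) *
        ∏ j, ∫⁻ y, ‖Ft (md (G j) (t + τ j)) y‖ₑ ^ q := by
  obtain ⟨Z, hZ⟩ : ∃ Z : (Fin m₁ → ℝ) × (Fin m₂ → ℝ × ℝ) → ℝ≥0∞, Z = fun z =>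
    ‖EE s (z.1, t)‖ₑ ^ q * ∏ j, ‖Ft (md (G j) (t + τ j)) (z.2 j)‖ₑ ^ q := ⟨_, rfl⟩
  have hEs : Measurable fun x : Fin m₁ → ℝ => ‖EE s (x, t)‖ₑ ^ q :=
    ((EE_meas hs).enorm.pow_const q).comp
      (by fun_prop : Measurable fun x : Fin m₁ → ℝ => ((x, t) : (Fin m₁ → ℝ) × ℝ))
  have hEg : ∀ j, Measurable fun y : ℝ × ℝ => ‖Ft (md (G j) (t + τ j)) y‖ₑ ^ q := fun j => by
    have h1 := FtM_meas (hG j)
    have h2 : Measurable (fun y : ℝ × ℝ => (t + τ j, y)) := by fun_prop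
    exact (h1.comp h2).enorm.pow_const q
  have hEgp : Measurable fun z : Fin m₂ → ℝ × ℝ => ∏ j, ‖Ft (md (G j) (t + τ j)) (z j)‖ₑ ^ q :=
    Finset.measurable_prod _ fun j _ => (hEg j).comp (measurable_pi_apply j)
  have hZm : Measurable Z := by
    rw [hZ]
    exact (hEs.comp measurable_fst).mul (hEgp.comp measurable_snd)
  calc ∫⁻ x : Fin n → ℝ, ‖EE (dens e' s G τ) (x, t)‖ₑ ^ q = ∫⁻ x : Fin n → ℝ, Z (Phi e' x) := by
        apply lintegral_congr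
        intro x
        have h1 := EE_blk e' hs (G := fun j ξ => G j ξ * e (τ j * dot ξ ξ))
          (fun j => (tw_meas (hG j) (τ j)).stronglyMeasurable)
          (fun j x hx => by rw [h0 j x hx, zero_mul]) x t
        have h2 : EE (dens e' s G τ) (x, t) = EE s ((Phi e' x).1, t) *
            ∏ j, Ft (md (G j) (t + τ j)) ((Phi e' x).2 j) := by
          simp_rw [← E2_eq]
          exact h1
        rw [h2, enorm_mul, ENNReal.mul_rpow_of_nonneg _ _ hq0.le, hZ]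
        simp only
        congr 1
        rw [ENNReal.prod_rpow_of_nonneg hq0.le]
        congr 1
        rw [← ofReal_norm, norm_prod, ENNReal.ofReal_prod_of_nonneg fun j _ => norm_nonneg _]
        apply Finset.prod_congr rfl
        intro j _
        rw [ofReal_norm]
    _ = ∫⁻ z, Z z := (Phi_mp e').lintegral_comp hZm
    _ = (∫⁻ x : Fin m₁ → ℝ, ‖EE s (x, t)‖ₑ ^ q) *
          ∫⁻ z : Fin m₂ → ℝ × ℝ, ∏ j, ‖Ft (md (G j) (t + τ j)) (z j)‖ₑ ^ q := by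
        rw [Measure.volume_eq_prod, hZ]
        exact lintegral_prod_mul hEs.aemeasurable hEgp.aemeasurable
    _ = _ := by
        rw [lint_pi2 (fun j y => ‖Ft (md (G j) (t + τ j)) y‖ₑ ^ q) hEg]

lemma trans_int (κ' τ : ℝ) : ∫⁻ t : ℝ, ENNReal.ofReal ((1 + |t + τ|) ^ (-κ')) =
    ∫⁻ t : ℝ, ENNReal.ofReal ((1 + |t|) ^ (-κ')) :=
  lintegral_add_right_eq_self (fun t : ℝ => ENNReal.ofReal ((1 + |t|) ^ (-κ'))) τ

/-- The estimate for products. -/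
theorem prod_main (m₁ m₂ n : ℕ) (hm₂ : 1 ≤ m₂) (hn : n = m₁ + 2 * m₂) (q R : ℝ)
    (hq : 2 * ((n : ℝ) + 1) / n < q) :
    ∃ C : ℝ≥0, ∀ (e' : Fin m₁ ⊕ (Fin m₂ ⊕ Fin m₂) ≃ Fin n) (H : Type) [NormedAddCommGroup H]
      [InnerProductSpace ℂ H] [CompleteSpace H]
      (M : ContinuousMultilinearMap ℂ (fun _ : Fin m₁ => H) ℂ) (a : Fin m₁ → ℝ → H),
      ‖M‖ ≤ 1 → (∀ j, Adm (a j)) →
      ∀ (G : Fin m₂ → ℝ × ℝ → ℂ) (τ : Fin m₂ → ℝ) (p : Fin m₂ → ℝ × ℝ) (V : Fin m₂ → ℝ → ℝ≥0∞),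
        (∀ j, Measurable (G j)) → (∀ j x, x ∉ Q2 → G j x = 0) → (∀ j, dot (p j) (p j) ≤ R ^ 2) →
        (∀ j, Measurable (V j)) →
        (∀ j, ∀ θ ∈ Ioc (-Real.pi) Real.pi, eVariationOn
          (fun r : ℝ => G j (p j + (r * Real.cos θ, r * Real.sin θ))) (Ioi 0) ≤ V j θ) →
        ∫⁻ y : (Fin n → ℝ) × ℝ, ‖EE (dens e' (fun ξ => M (fun j => a j (ξ j))) G τ) y‖ₑ ^ q ≤
          C * ∏ j, Wq q (V j) := by
  have hn2 : 2 ≤ n := by omega
  have hn0' : 0 < n := by omega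
  have hn0 : (0 : ℝ) < n := by exact_mod_cast hn0'
  have hn2' : (2 : ℝ) ≤ n := by exact_mod_cast hn2
  have hq2 : 2 / (n : ℝ) < q - 2 := by
    rw [div_lt_iff₀ hn0] at hq ⊢
    linarith
  have h2n : 2 / (n : ℝ) < 2 := by
    rw [div_lt_iff₀ hn0]
    linarith
  have h2n0 : 0 < 2 / (n : ℝ) := by positivity
  obtain ⟨κ', k1, k2, k3⟩ : ∃ κ' : ℝ, 2 / (n : ℝ) < κ' ∧ κ' < q - 2 ∧ κ' < 2 := by
    refine ⟨(2 / n + min (q - 2) 2) / 2, ?_, ?_, ?_⟩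
    · have : 2 / (n : ℝ) < min (q - 2) 2 := lt_min hq2 h2n
      linarith
    · have := min_le_left (q - 2) 2
      have : 2 / (n : ℝ) < min (q - 2) 2 := lt_min hq2 h2n
      linarith [min_le_left (q - 2) 2]
    · have : 2 / (n : ℝ) < min (q - 2) 2 := lt_min hq2 h2n
      linarith [min_le_right (q - 2) 2]
  have hq0 : 0 < q := by linarith
  obtain ⟨C0, hC0, hfix⟩ := fixP (U := 2) (q := q) (R := R) (by norm_num) (by linarith) k2 k3
  obtain ⟨C, hC⟩ := mix n hn2 q hq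
  have hκn : 1 < κ' * n / 2 := by
    rw [div_lt_iff₀ hn0] at k1
    linarith
  have hd := dec_lint hκn
  obtain ⟨D, hD⟩ : ∃ D, D = ∫⁻ t : ℝ, ENNReal.ofReal ((1 + |t|) ^ (-(κ' * n / 2))) := ⟨_, rfl⟩
  rw [← hD] at hd
  obtain ⟨K, hK⟩ : ∃ K : ℝ≥0∞, K = ENNReal.ofReal C0 ^ m₂ *
    (((C : ℝ≥0∞) ^ (1 / (n : ℝ))) ^ m₁ * (D ^ (2 / (n : ℝ))) ^ m₂) := ⟨_, rfl⟩
  have hKt : K ≠ ∞ := by
    rw [hK]
    apply ENNReal.mul_ne_top (ENNReal.pow_ne_top ENNReal.ofReal_ne_top)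
    apply ENNReal.mul_ne_top
    · exact ENNReal.pow_ne_top (ENNReal.rpow_ne_top_of_nonneg (by positivity) ENNReal.coe_ne_top)
    · exact ENNReal.pow_ne_top (ENNReal.rpow_ne_top_of_nonneg (by positivity) hd.ne)
  refine ⟨K.toNNReal, ?_⟩
  intro e' H _ _ _ M a hM ha G τ p V hG h0 hp hV hv
  rw [ENNReal.coe_toNNReal hKt]
  obtain ⟨s, hs⟩ : ∃ s : (Fin m₁ → ℝ) → ℂ, s = fun ξ => M (fun j => a j (ξ j)) := ⟨_, rfl⟩
  have hSch : Sch m₁ s := ⟨H, inferInstance, inferInstance, inferInstance, M, a, hM, ha,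
    fun ξ => by rw [hs]⟩
  have hsm : StronglyMeasurable s := hSch.meas
  rw [← hs]
  have hEm : Measurable fun y : (Fin n → ℝ) × ℝ => ‖EE (dens e' s G τ) y‖ₑ ^ q :=
    (EE_meas (dens_meas e' hsm hG τ)).enorm.pow_const q
  obtain ⟨Bj, hBj⟩ : ∃ Bj : Fin m₁ → ℝ → ℝ≥0∞, Bj = fun j t => ∫⁻ x : ℝ, ‖E1 (a j) x t‖ₑ ^ q :=
    ⟨_, rfl⟩
  have hBm : ∀ j, Measurable (Bj j) := fun j => by
    rw [hBj]
    exact ((E1_meas (ha j)).enorm.pow_const q).lintegral_prod_left'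
  obtain ⟨F, hF⟩ : ∃ F : Fin m₁ ⊕ Fin m₂ → ℝ → ℝ≥0∞, F = Sum.elim (fun j t => Bj j t ^ (n : ℝ))
    (fun j t => ENNReal.ofReal ((1 + |t + τ j|) ^ (-(κ' * n / 2)))) := ⟨_, rfl⟩
  obtain ⟨P, hP⟩ : ∃ P : Fin m₁ ⊕ Fin m₂ → ℝ, P = Sum.elim (fun _ => 1 / (n : ℝ))
    (fun _ => 2 / (n : ℝ)) := ⟨_, rfl⟩
  have hFm : ∀ i, Measurable (F i) := by
    intro i
    rw [hF]
    rcases i with j | j
    · exact (hBm j).pow_const _
    · simp only [Sum.elim_inr]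
      fun_prop
  have hsum : ∑ i, P i = 1 := by
    rw [hP, Fintype.sum_sum_type]
    simp only [Sum.elim_inl, Sum.elim_inr, Finset.sum_const, Finset.card_univ, Fintype.card_fin,
      nsmul_eq_mul]
    have h1 : (n : ℝ) = m₁ + 2 * m₂ := by exact_mod_cast hn
    rw [mul_one_div, mul_div_assoc', ← add_div, mul_comm (m₂ : ℝ) 2, ← h1, div_self hn0.ne']
  have hP0 : ∀ i, 0 ≤ P i := by
    intro i
    rw [hP]
    rcases i with j | j
    · simp only [Sum.elim_inl]; positivity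
    · simp only [Sum.elim_inr]; positivity
  -- the bound at a fixed time
  have hfx : ∀ t : ℝ, ∫⁻ x : Fin n → ℝ, ‖EE (dens e' s G τ) (x, t)‖ₑ ^ q ≤
      (ENNReal.ofReal C0 ^ m₂ * ∏ j, Wq q (V j)) * ∏ i, F i t ^ P i := by
    intro t
    rw [dens_time hq0 e' hsm hG h0 τ t]
    have h1 : ∫⁻ x : Fin m₁ → ℝ, ‖EE s (x, t)‖ₑ ^ q ≤ ∏ j, Bj j t := by
      rw [hs, hBj]
      exact sch_time hq0 M hM ha t
    have h2 : ∀ j, ∫⁻ y, ‖Ft (md (G j) (t + τ j)) y‖ₑ ^ q ≤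
        ENNReal.ofReal (C0 * (1 + |t + τ j|) ^ (-κ')) * Wq q (V j) := by
      intro j
      refine hfix (t + τ j) (p j) (G j) (V j) (hp j) (hG j) ?_ (hV j) (hv j)
      intro ξ hξ
      apply h0
      intro hm
      have h3 : dot ξ ξ ≤ 2 := by
        unfold dot
        have h4 := hm.1.1
        have h5 := hm.1.2
        have h6 := hm.2.1
        have h7 := hm.2.2
        simp only at h4 h5 h6 h7
        nlinarith
      linarith
    have e1 : ∏ i, F i t ^ P i = (∏ j, Bj j t) *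
        ∏ j, ENNReal.ofReal ((1 + |t + τ j|) ^ (-κ')) := by
      rw [Fintype.prod_sum_type, hF, hP]
      simp only [Sum.elim_inl, Sum.elim_inr]
      congr 1
      · apply Finset.prod_congr rfl
        intro j _
        rw [← ENNReal.rpow_mul, mul_one_div_cancel hn0.ne', ENNReal.rpow_one]
      · apply Finset.prod_congr rfl
        intro j _
        rw [ENNReal.ofReal_rpow_of_nonneg (by positivity) (by positivity),
          ← Real.rpow_mul (by positivity)]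
        congr 2
        field_simp
    rw [e1]
    calc (∫⁻ x : Fin m₁ → ℝ, ‖EE s (x, t)‖ₑ ^ q) *
          ∏ j, ∫⁻ y, ‖Ft (md (G j) (t + τ j)) y‖ₑ ^ q
        ≤ (∏ j, Bj j t) * ∏ j, (ENNReal.ofReal (C0 * (1 + |t + τ j|) ^ (-κ')) * Wq q (V j)) :=
          mul_le_mul' h1 (Finset.prod_le_prod' fun j _ => h2 j)
      _ = _ := by
          have e2 : ∀ j, ENNReal.ofReal (C0 * (1 + |t + τ j|) ^ (-κ')) * Wq q (V j) =
              ENNReal.ofReal C0 * ENNReal.ofReal ((1 + |t + τ j|) ^ (-κ')) * Wq q (V j) :=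
            fun j => by rw [ENNReal.ofReal_mul hC0.le]
          simp_rw [e2]
          rw [Finset.prod_mul_distrib, Finset.prod_mul_distrib, Finset.prod_const,
            Finset.card_univ, Fintype.card_fin]
          ring
  rw [Measure.volume_eq_prod, lintegral_prod_symm _ hEm.aemeasurable]
  calc ∫⁻ t, ∫⁻ x : Fin n → ℝ, ‖EE (dens e' s G τ) (x, t)‖ₑ ^ q
      ≤ ∫⁻ t, (ENNReal.ofReal C0 ^ m₂ * ∏ j, Wq q (V j)) * ∏ i, F i t ^ P i :=
        lintegral_mono hfx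
    _ = (ENNReal.ofReal C0 ^ m₂ * ∏ j, Wq q (V j)) * ∫⁻ t, ∏ i, F i t ^ P i := by
        apply lintegral_const_mul
        exact Finset.measurable_prod _ fun i _ => (hFm i).pow_const _
    _ ≤ (ENNReal.ofReal C0 ^ m₂ * ∏ j, Wq q (V j)) * ∏ i, (∫⁻ t, F i t) ^ P i := by
        refine mul_le_mul_right ?_ _
        exact ENNReal.lintegral_prod_norm_pow_le Finset.univ (fun i _ => (hFm i).aemeasurable) hsum
          (fun i _ => hP0 i)
    _ ≤ (ENNReal.ofReal C0 ^ m₂ * ∏ j, Wq q (V j)) *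
        (((C : ℝ≥0∞) ^ (1 / (n : ℝ))) ^ m₁ * (D ^ (2 / (n : ℝ))) ^ m₂) := by
        refine mul_le_mul_right ?_ _
        rw [Fintype.prod_sum_type, hF, hP]
        simp only [Sum.elim_inl, Sum.elim_inr]
        refine mul_le_mul' ?_ ?_
        · calc ∏ j : Fin m₁, (∫⁻ t, Bj j t ^ (n : ℝ)) ^ (1 / (n : ℝ))
              ≤ ∏ _j : Fin m₁, (C : ℝ≥0∞) ^ (1 / (n : ℝ)) := by
                refine Finset.prod_le_prod' fun j _ => ENNReal.rpow_le_rpow ?_ (by positivity)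
                rw [hBj]
                exact hC H (a j) (ha j)
            _ = _ := by rw [Finset.prod_const, Finset.card_univ, Fintype.card_fin]
        · calc ∏ j : Fin m₂, (∫⁻ t, ENNReal.ofReal ((1 + |t + τ j|) ^ (-(κ' * n / 2)))) ^
                (2 / (n : ℝ)) = ∏ _j : Fin m₂, D ^ (2 / (n : ℝ)) := by
                refine Finset.prod_congr rfl fun j _ => ?_
                rw [trans_int, hD]
            _ ≤ _ := by rw [Finset.prod_const, Finset.card_univ, Fintype.card_fin]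
    _ = K * ∏ j, Wq q (V j) := by rw [hK]; ring

end Pool.Agent.R244.PQ
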